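import Pool.Agent.W759.V
set_option autoImplicit false

/-! Lattice sums of `|z+2k|^{-3/2}`. -/

namespace Pool.Agent.W759

open Complex MeasureTheory Filter Topology
open scoped ENNReal

/-- the base sum -/
noncomputable def S0 : ℝ := ∑' j : ℤ, |(j : ℝ)| ^ (-(3 / 2) : ℝ)

lemma S0_summable : Summable (fun j : ℤ => |(j : ℝ)| ^ (-(3 / 2) : ℝ)) :=
  Real.summable_abs_int_rpow (by norm_num)

lemma S0_nonneg : 0 ≤ S0 := tsum_nonneg fun j => by positivity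

lemma exists_round (x : ℝ) : ∃ n : ℤ, |x + 2 * n| ≤ 1 := by
  refine ⟨-round (x / 2), ?_⟩
  have h := abs_sub_round (x / 2)
  push_cast
  have e : x + 2 * -(round (x / 2) : ℝ) = 2 * (x / 2 - round (x / 2)) := by ring
  rw [e, abs_mul, abs_two]
  linarith

lemma shift_lower {z : ℂ} {n k : ℤ} (hn : |z.re + 2 * n| ≤ 1) (hk : k ≠ n) :
    |((k - n : ℤ) : ℝ)| ≤ ‖z + 2 * k‖ := by
  have h1 := Complex.abs_re_le_norm (z + 2 * k)
  rw [shift_re] at h1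
  refine le_trans ?_ h1
  have h2 : (1 : ℝ) ≤ |((k - n : ℤ) : ℝ)| := by
    have : 1 ≤ |k - n| := Int.one_le_abs (sub_ne_zero.2 hk)
    exact_mod_cast this
  have e : z.re + 2 * k = (z.re + 2 * n) + 2 * ((k - n : ℤ) : ℝ) := by push_cast; ring
  rw [e]
  have h3 := abs_sub_abs_le_abs_sub (2 * ((k - n : ℤ) : ℝ)) (-(z.re + 2 * n))
  rw [abs_neg, abs_mul, abs_two, sub_neg_eq_add] at h3
  rw [add_comm]
  linarith

lemma term_le {z : ℂ} (hz : 0 < z.im) {n k : ℤ} (hn : |z.re + 2 * n| ≤ 1) {c : ℝ}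
    (hc : k = n → ‖z + 2 * k‖ ^ (-3 / 2 : ℝ) ≤ c) (hc0 : 0 ≤ c) :
    ‖z + 2 * k‖ ^ (-3 / 2 : ℝ) ≤
      |((k - n : ℤ) : ℝ)| ^ (-(3 / 2) : ℝ) + if k = n then c else 0 := by
  by_cases hk : k = n
  · rw [if_pos hk]
    have : 0 ≤ |((k - n : ℤ) : ℝ)| ^ (-(3 / 2) : ℝ) := by positivity
    linarith [hc hk]
  · rw [if_neg hk, add_zero]
    have h2 : (0 : ℝ) < |((k - n : ℤ) : ℝ)| := by
      rw [abs_pos]
      exact_mod_cast sub_ne_zero.2 hk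
    have e : (-3 / 2 : ℝ) = -(3 / 2) := by norm_num
    rw [e]
    exact Real.rpow_le_rpow_of_nonpos h2 (shift_lower hn hk) (by norm_num)

lemma shifted_hasSum (n : ℤ) (c : ℝ) : HasSum (fun k : ℤ =>
    |((k - n : ℤ) : ℝ)| ^ (-(3 / 2) : ℝ) + if k = n then c else 0) (S0 + c) := by
  refine HasSum.add ?_ (hasSum_ite_eq n c)
  exact (Equiv.subRight n).hasSum_iff.2 S0_summable.hasSum

lemma sum32 {z : ℂ} (hz : 0 < z.im) : Summable (fun k : ℤ => ‖z + 2 * k‖ ^ (-3 / 2 : ℝ)) := by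
  obtain ⟨n, hn⟩ := exists_round z.re
  refine Summable.of_nonneg_of_le (fun k => by positivity)
    (fun k => term_le hz (k := k) hn (c := ‖z + 2 * n‖ ^ (-3 / 2 : ℝ)) (fun h => by rw [h])
      (by positivity)) (shifted_hasSum n _).summable

lemma sum32_Zs {z : ℂ} (hz : 0 < z.im) : Summable (fun k : Zs => ‖z + 2 * k‖ ^ (-3 / 2 : ℝ)) :=
  (sum32 hz).subtype _

lemma sum32_le {z : ℂ} (hz : z ∈ Om0) : ∑' k : Zs, ‖z + 2 * k‖ ^ (-3 / 2 : ℝ) ≤ S0 + 1 := by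
  obtain ⟨n, hn⟩ := exists_round z.re
  have h1 := (shifted_hasSum n 1)
  have h2 : Summable (fun k : Zs =>
    |((k - n : ℤ) : ℝ)| ^ (-(3 / 2) : ℝ) + if (k : ℤ) = n then (1 : ℝ) else 0) :=
    h1.summable.subtype _
  calc ∑' k : Zs, ‖z + 2 * k‖ ^ (-3 / 2 : ℝ) ≤ ∑' k : Zs,
        (|((k - n : ℤ) : ℝ)| ^ (-(3 / 2) : ℝ) + if (k : ℤ) = n then (1 : ℝ) else 0) := by
        refine (sum32_Zs hz.1).tsum_le_tsum (fun k => ?_) h2
        refine term_le hz.1 hn (fun _ => ?_) zero_le_one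
        exact Real.rpow_le_one_of_one_le_of_nonpos (hz.2 k k.2).le (by norm_num)
    _ ≤ ∑' k : ℤ, (|((k - n : ℤ) : ℝ)| ^ (-(3 / 2) : ℝ) + if (k : ℤ) = n then (1 : ℝ) else 0) :=
        h1.summable.tsum_subtype_le _ _ (fun k => by positivity)
    _ = S0 + 1 := h1.tsum_eq

lemma tele {a : ℝ} (ha : 1 ≤ a) :
    a ^ (-3 / 2 : ℝ) ≤ 4 * (a ^ (-1 / 2 : ℝ) - (a + 1) ^ (-1 / 2 : ℝ)) := by
  have ha0 : 0 < a := by linarith
  have ha1 : 0 < a + 1 := by linarith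
  set p := Real.sqrt a with hp
  set q := Real.sqrt (a + 1) with hq
  have hp0 : 0 < p := Real.sqrt_pos.2 ha0
  have hq0 : 0 < q := Real.sqrt_pos.2 ha1
  have hp2 : p ^ 2 = a := Real.sq_sqrt ha0.le
  have hq2 : q ^ 2 = a + 1 := Real.sq_sqrt ha1.le
  have e1 : a ^ (-3 / 2 : ℝ) = 1 / p ^ 3 := by
    rw [hp, Real.sqrt_eq_rpow, ← Real.rpow_natCast, ← Real.rpow_mul ha0.le, one_div,
      ← Real.rpow_neg ha0.le]
    norm_num
  have e2 : a ^ (-1 / 2 : ℝ) = 1 / p := by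
    rw [hp, Real.sqrt_eq_rpow, one_div, ← Real.rpow_neg ha0.le]
    norm_num
  have e3 : (a + 1) ^ (-1 / 2 : ℝ) = 1 / q := by
    rw [hq, Real.sqrt_eq_rpow, one_div, ← Real.rpow_neg ha1.le]
    norm_num
  rw [e1, e2, e3]
  have hpq : q ^ 2 = p ^ 2 + 1 := by rw [hp2, hq2]
  have hp1 : 1 ≤ p ^ 2 := by rw [hp2]; exact ha
  have hqp : q ≤ 3 / 2 * p := by
    by_contra h
    push Not at h
    nlinarith
  have hlt : p < q := by nlinarith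
  have h4 : 1 / p - 1 / q = 1 / (p * q * (p + q)) := by
    field_simp
    nlinarith
  rw [h4]
  rw [div_le_iff₀ (by positivity)]
  have h5 : 4 * (1 / (p * q * (p + q))) * p ^ 3 = 4 * p ^ 2 / (q * (p + q)) := by
    field_simp
  rw [h5, le_div_iff₀ (by positivity)]
  nlinarith

lemma sum_nat_le {y : ℝ} (hy : 1 ≤ y) (N : ℕ) :
    ∑ m ∈ Finset.range N, (y + m) ^ (-3 / 2 : ℝ) ≤
      4 * (y ^ (-1 / 2 : ℝ) - (y + N) ^ (-1 / 2 : ℝ)) := by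
  induction N with
  | zero => simp
  | succ N ih =>
    rw [Finset.sum_range_succ]
    have h := tele (a := y + N) (by have : (0 : ℝ) ≤ N := Nat.cast_nonneg N; linarith)
    push_cast
    rw [← add_assoc]
    linarith

lemma sum_nat {y : ℝ} (hy : 1 ≤ y) : Summable (fun m : ℕ => (y + m) ^ (-3 / 2 : ℝ)) ∧
    ∑' m : ℕ, (y + m) ^ (-3 / 2 : ℝ) ≤ 4 * y ^ (-1 / 2 : ℝ) := by
  have h0 : ∀ m : ℕ, 0 ≤ (y + m) ^ (-3 / 2 : ℝ) := fun m => by positivity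
  have h1 : ∀ N, ∑ m ∈ Finset.range N, (y + m) ^ (-3 / 2 : ℝ) ≤ 4 * y ^ (-1 / 2 : ℝ) := by
    intro N
    refine (sum_nat_le hy N).trans ?_
    have : 0 ≤ (y + N) ^ (-1 / 2 : ℝ) := by positivity
    linarith
  exact ⟨summable_of_sum_range_le h0 h1, Real.tsum_le_of_sum_range_le h0 h1⟩

lemma sum_int {y : ℝ} (hy : 1 ≤ y) : Summable (fun j : ℤ => (y + |(j : ℝ)|) ^ (-3 / 2 : ℝ)) ∧
    ∑' j : ℤ, (y + |(j : ℝ)|) ^ (-3 / 2 : ℝ) ≤ 8 * y ^ (-1 / 2 : ℝ) := by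
  obtain ⟨s1, s2⟩ := sum_nat hy
  have h1 : (fun n : ℕ => (y + |((n : ℤ) : ℝ)|) ^ (-3 / 2 : ℝ)) =
      fun m : ℕ => (y + m) ^ (-3 / 2 : ℝ) := by
    funext m; simp
  have h2 : ∀ m : ℕ, (y + |((-((m : ℤ) + 1) : ℤ) : ℝ)|) ^ (-3 / 2 : ℝ) ≤
      (y + m) ^ (-3 / 2 : ℝ) := by
    intro m
    apply Real.rpow_le_rpow_of_nonpos (by positivity) _ (by norm_num)
    push_cast
    rw [abs_neg, abs_of_nonneg (by positivity)]
    linarith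
  have s3 : Summable (fun m : ℕ => (y + |((-((m : ℤ) + 1) : ℤ) : ℝ)|) ^ (-3 / 2 : ℝ)) :=
    Summable.of_nonneg_of_le (fun m => by positivity) h2 s1
  have s4 := HasSum.of_nat_of_neg_add_one (f := fun j : ℤ => (y + |(j : ℝ)|) ^ (-3 / 2 : ℝ))
    (h1 ▸ s1.hasSum) s3.hasSum
  refine ⟨s4.summable, ?_⟩
  rw [s4.tsum_eq, h1]
  have s5 := s3.tsum_le_tsum h2 s1
  linarith

lemma sum32_inf {z : ℂ} (hz : 1 ≤ z.im) :
    ∑' k : ℤ, ‖z + 2 * k‖ ^ (-3 / 2 : ℝ) ≤ 32 * z.im ^ (-1 / 2 : ℝ) := by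
  have hz0 : 0 < z.im := by linarith
  obtain ⟨n, hn⟩ := exists_round z.re
  obtain ⟨s1, s2⟩ := sum_int hz
  have s3 : Summable (fun k : ℤ => 4 * (z.im + |((k - n : ℤ) : ℝ)|) ^ (-3 / 2 : ℝ)) :=
    ((Equiv.subRight n).summable_iff.2 s1).mul_left 4
  have h1 : ∀ k : ℤ, ‖z + 2 * k‖ ^ (-3 / 2 : ℝ) ≤
      4 * (z.im + |((k - n : ℤ) : ℝ)|) ^ (-3 / 2 : ℝ) := by
    intro k
    have h2 : (z.im + |((k - n : ℤ) : ℝ)|) / 2 ≤ ‖z + 2 * k‖ := by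
      have h3 := Complex.abs_im_le_norm (z + 2 * k)
      rw [shift_im, abs_of_pos hz0] at h3
      by_cases hk : k = n
      · subst hk
        simp
        linarith
      · have := shift_lower hn hk
        linarith
    have h4 : ‖z + 2 * k‖ ^ (-3 / 2 : ℝ) ≤ ((z.im + |((k - n : ℤ) : ℝ)|) / 2) ^ (-3 / 2 : ℝ) :=
      Real.rpow_le_rpow_of_nonpos (by positivity) h2 (by norm_num)
    refine h4.trans ?_
    rw [Real.div_rpow (by positivity) (by norm_num), div_eq_mul_inv, mul_comm]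
    have h5 : ((2 : ℝ) ^ (-3 / 2 : ℝ))⁻¹ ≤ 4 := by
      rw [← Real.rpow_neg (by norm_num)]
      calc (2 : ℝ) ^ (-(-3 / 2) : ℝ) ≤ 2 ^ (2 : ℝ) :=
            Real.rpow_le_rpow_of_exponent_le (by norm_num) (by norm_num)
        _ = 4 := by norm_num
    gcongr
  calc ∑' k : ℤ, ‖z + 2 * k‖ ^ (-3 / 2 : ℝ) ≤
        ∑' k : ℤ, 4 * (z.im + |((k - n : ℤ) : ℝ)|) ^ (-3 / 2 : ℝ) :=
        (sum32 hz0).tsum_le_tsum h1 s3
    _ = 4 * ∑' j : ℤ, (z.im + |(j : ℝ)|) ^ (-3 / 2 : ℝ) := by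
        rw [tsum_mul_left]
        congr 1
        exact (Equiv.subRight n).tsum_eq (fun j : ℤ => (z.im + |(j : ℝ)|) ^ (-3 / 2 : ℝ))
    _ ≤ 32 * z.im ^ (-1 / 2 : ℝ) := by linarith

lemma shift_ball {z z' : ℂ} (hz : 0 < z.im) (h : ‖z' - z‖ ≤ z.im / 2) (k : ℤ) :
    ‖z' + 2 * k‖ ^ (-3 / 2 : ℝ) ≤ 4 * ‖z + 2 * k‖ ^ (-3 / 2 : ℝ) := by
  have h1 : z.im ≤ ‖z + 2 * k‖ := by
    have h3 := Complex.abs_im_le_norm (z + 2 * k)
    rw [shift_im, abs_of_pos hz] at h3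
    exact h3
  have h2 : ‖z + 2 * k‖ / 2 ≤ ‖z' + 2 * k‖ := by
    have h3 : ‖z + 2 * k‖ ≤ ‖z' + 2 * k‖ + ‖z' - z‖ := by
      have := norm_sub_le (z' + 2 * k) (z' - z)
      have e : z' + 2 * (k : ℂ) - (z' - z) = z + 2 * k := by ring
      rwa [e] at this
    linarith
  have hpos : 0 < ‖z + 2 * k‖ := by linarith
  have h4 : ‖z' + 2 * k‖ ^ (-3 / 2 : ℝ) ≤ (‖z + 2 * k‖ / 2) ^ (-3 / 2 : ℝ) :=
    Real.rpow_le_rpow_of_nonpos (by positivity) h2 (by norm_num)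
  refine h4.trans ?_
  rw [Real.div_rpow (by positivity) (by norm_num), div_eq_mul_inv, mul_comm]
  have h5 : ((2 : ℝ) ^ (-3 / 2 : ℝ))⁻¹ ≤ 4 := by
    rw [← Real.rpow_neg (by norm_num)]
    calc (2 : ℝ) ^ (-(-3 / 2) : ℝ) ≤ 2 ^ (2 : ℝ) :=
          Real.rpow_le_rpow_of_exponent_le (by norm_num) (by norm_num)
      _ = 4 := by norm_num
  gcongr

end Pool.Agent.W759
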