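import Pool.Agent.W759.Stmts2
import Pool.Agent.W759.Sm
import Pool.Agent.Split938.J4
import Pool.Agent.W12.SqMeas
set_option autoImplicit false

/-! Summability over translates and integrability on strips (StPhi3). -/

namespace Pool.Agent.W759.Phi3

open Complex MeasureTheory Filter Topology Pool.Agent.W759
open scoped ENNReal

variable {ε : ℂ} {φ : ℂ → ℂ} {C : ℝ}

lemma ipos {z : ℂ} (hz : 0 < z.im) : 0 < (-z⁻¹).im := by
  rw [inv_im']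
  have := norm_pos_iff.2 (ne_zero_of_im hz)
  positivity

lemma dec (hε : ‖ε‖ = 1) (hb : ∀ z : ℂ, 0 < z.im → ‖φ z‖ ≤ C)
    (hinv : ∀ z : ℂ, 0 < z.im → φ (-z⁻¹) = ε * J z * φ z) {z : ℂ} (hz : 0 < z.im) :
    ‖φ z‖ ≤ C * ‖z‖ ^ (-1 / 2 : ℝ) := by
  have h1 := hinv z hz
  have h2 : ‖φ (-z⁻¹)‖ = ‖z‖ ^ (1 / 2 : ℝ) * ‖φ z‖ := by
    rw [h1, norm_mul, norm_mul, hε, one_mul, J_norm']
  have h3 := hb _ (ipos hz)
  have hn := norm_pos_iff.2 (ne_zero_of_im hz)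
  rw [h2] at h3
  have h4 : ‖φ z‖ = (‖z‖ ^ (1 / 2 : ℝ) * ‖φ z‖) * ‖z‖ ^ (-1 / 2 : ℝ) := by
    rw [mul_right_comm, ← Real.rpow_add hn]
    norm_num
  rw [h4]
  gcongr

lemma deriv_inv (hφ : ∀ z : ℂ, 0 < z.im → DifferentiableAt ℂ φ z)
    (hinv : ∀ z : ℂ, 0 < z.im → φ (-z⁻¹) = ε * J z * φ z) {z : ℂ} (hz : 0 < z.im) :
    deriv φ (-z⁻¹) * (z ^ 2)⁻¹ = ε * (-I / (2 * J z) * φ z + J z * deriv φ z) := by
  have h0 := ne_zero_of_im hz
  have h1 : HasDerivAt (fun ζ : ℂ => -ζ⁻¹) ((z ^ 2)⁻¹) z := by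
    have := (hasDerivAt_inv h0).fun_neg
    simpa using this
  have h2 : HasDerivAt (fun ζ : ℂ => φ (-ζ⁻¹)) (deriv φ (-z⁻¹) * (z ^ 2)⁻¹) z :=
    HasDerivAt.comp (h₂ := φ) z (hφ _ (ipos hz)).hasDerivAt h1
  have h3 : HasDerivAt (fun ζ : ℂ => ε * (J ζ * φ ζ))
      (ε * (-I / (2 * J z) * φ z + J z * deriv φ z)) z :=
    ((J_diff hz).fun_mul (hφ z hz).hasDerivAt).const_mul ε
  have h4 : (fun ζ : ℂ => φ (-ζ⁻¹)) =ᶠ[𝓝 z] fun ζ : ℂ => ε * (J ζ * φ ζ) := by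
    have : ∀ᶠ w in 𝓝 z, 0 < w.im :=
      (Complex.continuous_im.tendsto z).eventually (lt_mem_nhds hz)
    filter_upwards [this] with w hw
    rw [hinv w hw, mul_assoc]
  exact (h2.congr_of_eventuallyEq h4.symm).unique h3

/-- the function `xi` -/
noncomputable def xi (φ : ℂ → ℂ) (z : ℂ) : ℂ := z * deriv φ z + φ z / 2

lemma xi_norm (hε : ‖ε‖ = 1) (hφ : ∀ z : ℂ, 0 < z.im → DifferentiableAt ℂ φ z)
    (hinv : ∀ z : ℂ, 0 < z.im → φ (-z⁻¹) = ε * J z * φ z) {z : ℂ} (hz : 0 < z.im) :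
    ‖deriv φ (-z⁻¹)‖ = ‖z‖ ^ (3 / 2 : ℝ) * ‖xi φ z‖ := by
  have hJ := J_ne hz
  have hn := norm_pos_iff.2 (ne_zero_of_im hz)
  have h0 := ne_zero_of_im hz
  have h1 := deriv_inv hφ hinv hz
  have h2 : deriv φ (-z⁻¹) = z ^ 2 * (ε * (-I) * (J z)⁻¹ * xi φ z) := by
    have h3 : deriv φ (-z⁻¹) = z ^ 2 * (deriv φ (-z⁻¹) * (z ^ 2)⁻¹) := by
      field_simp
    rw [h3, h1]
    congr 1
    unfold xi
    have h4 : J z = (J z)⁻¹ * (-I * z) := by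
      rw [← J_sq]; field_simp
    have h5 : J z * deriv φ z = (J z)⁻¹ * (-I * z) * deriv φ z := by rw [← h4]
    rw [h5]
    field_simp
    ring
  rw [h2, norm_mul, norm_mul, norm_mul, norm_mul, hε, norm_neg, Complex.norm_I, norm_inv, J_norm',
    norm_pow, one_mul, one_mul, ← mul_assoc]
  congr 1
  rw [← Real.rpow_neg hn.le, ← Real.rpow_natCast, ← Real.rpow_add hn]
  norm_num

lemma xi_L2 (hε : ‖ε‖ = 1) (hφ : ∀ z : ℂ, 0 < z.im → DifferentiableAt ℂ φ z)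
    (hinv : ∀ z : ℂ, 0 < z.im → φ (-z⁻¹) = ε * J z * φ z)
    (hL : ∫⁻ z in HP, ENNReal.ofReal (z.im ^ (-1 / 2 : ℝ)) * ‖deriv φ z‖ₑ ^ 2 < ∞) :
    ∫⁻ z in HP, ENNReal.ofReal (z.im ^ (-1 / 2 : ℝ)) * ‖xi φ z‖ₑ ^ 2 < ∞ := by
  have hHm : MeasurableSet HP := (isOpen_lt continuous_const Complex.continuous_im).measurableSet
  have hd : ∀ z ∈ HP, HasDerivAt (fun ζ : ℂ => -ζ⁻¹) ((z ^ 2)⁻¹) z := by
    intro z hz
    have := (hasDerivAt_inv (ne_zero_of_im hz)).fun_neg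
    simpa using this
  have hinj : Set.InjOn (fun ζ : ℂ => -ζ⁻¹) HP := by
    intro z _ w _ h
    exact inv_injective (neg_injective h)
  have h1 := lintegral_image_eq_lintegral_abs_det_fderiv_mul volume hHm
    (fun z hz => (hd z hz).complexToReal_fderiv.hasFDerivWithinAt) hinj
    (fun z => ENNReal.ofReal (z.im ^ (-1 / 2 : ℝ)) * ‖deriv φ z‖ₑ ^ 2)
  have h2 : ∫⁻ z in (fun ζ : ℂ => -ζ⁻¹) '' HP,
      ENNReal.ofReal (z.im ^ (-1 / 2 : ℝ)) * ‖deriv φ z‖ₑ ^ 2 < ∞ := by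
    refine lt_of_le_of_lt (lintegral_mono_set ?_) hL
    rintro _ ⟨z, hz, rfl⟩
    exact ipos hz
  rw [h1] at h2
  refine lt_of_le_of_lt (le_of_eq ?_) h2
  refine setLIntegral_congr_fun hHm fun z hz => ?_
  have hz' : 0 < z.im := hz
  have hn := norm_pos_iff.2 (ne_zero_of_im hz')
  rw [Pool.Agent.W12.SqMeas.det_smul_one, abs_of_nonneg (by positivity), inv_im',
    ← ofReal_norm, ← ofReal_norm, xi_norm hε hφ hinv hz', ← ENNReal.ofReal_pow (by positivity),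
    ← ENNReal.ofReal_pow (by positivity), ← ENNReal.ofReal_mul (by positivity),
    ← ENNReal.ofReal_mul (by positivity), ← ENNReal.ofReal_mul (by positivity)]
  congr 1
  rw [Real.div_rpow hz'.le (by positivity), norm_inv, norm_pow]
  have e2 : (‖z‖ ^ 2) ^ (-1 / 2 : ℝ) = ‖z‖⁻¹ := by
    rw [← Real.rpow_natCast, ← Real.rpow_mul hn.le, ← Real.rpow_neg_one]
    norm_num
  have e3 : (‖z‖ ^ (3 / 2 : ℝ) * ‖xi φ z‖) ^ 2 = ‖z‖ ^ 3 * ‖xi φ z‖ ^ 2 := by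
    rw [mul_pow, ← Real.rpow_natCast (‖z‖ ^ (3 / 2 : ℝ)) 2, ← Real.rpow_mul hn.le]
    norm_num
  rw [e2, e3]
  field_simp

lemma deriv_le (hε : ‖ε‖ = 1) (hb : ∀ z : ℂ, 0 < z.im → ‖φ z‖ ≤ C)
    (hinv : ∀ z : ℂ, 0 < z.im → φ (-z⁻¹) = ε * J z * φ z) {z : ℂ} (hz : 0 < z.im) :
    ‖deriv φ z‖ ≤ ‖xi φ z‖ ^ 2 + (z.im ^ (-1 / 2 : ℝ) + C) * ‖z‖ ^ (-3 / 2 : ℝ) := by
  have hn := norm_pos_iff.2 (ne_zero_of_im hz)
  have h0 := ne_zero_of_im hz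
  have hC : 0 ≤ C := (norm_nonneg _).trans (hb z hz)
  have hiz : z.im ≤ ‖z‖ := by
    have := Complex.abs_im_le_norm z
    rwa [abs_of_pos hz] at this
  have e1 : deriv φ z = (xi φ z - φ z / 2) * z⁻¹ := by
    unfold xi
    field_simp
    ring
  have h1 : ‖deriv φ z‖ ≤ (‖xi φ z‖ + ‖φ z‖ / 2) * ‖z‖⁻¹ := by
    conv_lhs => rw [e1]
    rw [norm_mul, norm_inv]
    have := norm_sub_le (xi φ z) (φ z / 2)
    rw [norm_div, Complex.norm_ofNat] at this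
    gcongr
  have h2 := dec hε hb hinv hz
  have e2 : ‖z‖ ^ (-3 / 2 : ℝ) = ‖z‖ ^ (-1 / 2 : ℝ) * ‖z‖⁻¹ := by
    rw [← Real.rpow_neg_one, ← Real.rpow_add hn]
    norm_num
  have h3 : ‖z‖⁻¹ ^ 2 ≤ z.im ^ (-1 / 2 : ℝ) * ‖z‖ ^ (-3 / 2 : ℝ) := by
    have e3 : ‖z‖⁻¹ ^ 2 = ‖z‖ ^ (-1 / 2 : ℝ) * ‖z‖ ^ (-3 / 2 : ℝ) := by
      rw [← Real.rpow_add hn, inv_pow, ← Real.rpow_natCast, ← Real.rpow_neg hn.le]
      norm_num
    rw [e3]
    have h4 : ‖z‖ ^ (-1 / 2 : ℝ) ≤ z.im ^ (-1 / 2 : ℝ) :=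
      Real.rpow_le_rpow_of_nonpos hz hiz (by norm_num)
    gcongr
  have hinvn : 0 ≤ ‖z‖⁻¹ := by positivity
  calc ‖deriv φ z‖ ≤ (‖xi φ z‖ + ‖φ z‖ / 2) * ‖z‖⁻¹ := h1
    _ = ‖xi φ z‖ * ‖z‖⁻¹ + (‖φ z‖ * ‖z‖⁻¹) / 2 := by ring
    _ ≤ (‖xi φ z‖ ^ 2 + ‖z‖⁻¹ ^ 2) + (C * ‖z‖ ^ (-1 / 2 : ℝ) * ‖z‖⁻¹) := by
        have h5 : ‖φ z‖ * ‖z‖⁻¹ ≤ C * ‖z‖ ^ (-1 / 2 : ℝ) * ‖z‖⁻¹ := by gcongr
        have h6 : 0 ≤ ‖φ z‖ * ‖z‖⁻¹ := by positivity
        nlinarith [sq_nonneg (‖xi φ z‖ - ‖z‖⁻¹), sq_nonneg (‖xi φ z‖ + ‖z‖⁻¹)]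
    _ ≤ (‖xi φ z‖ ^ 2 + z.im ^ (-1 / 2 : ℝ) * ‖z‖ ^ (-3 / 2 : ℝ)) +
        C * (‖z‖ ^ (-1 / 2 : ℝ) * ‖z‖⁻¹) := by
        rw [mul_assoc C]
        gcongr
    _ = _ := by rw [← e2]; ring

lemma xi_diff (hφ : ∀ z : ℂ, 0 < z.im → DifferentiableAt ℂ φ z) :
    DifferentiableOn ℂ (xi φ) HP := by
  have hO : IsOpen HP := isOpen_lt continuous_const Complex.continuous_im
  have hd : DifferentiableOn ℂ φ HP := fun z hz => (hφ z hz).differentiableWithinAt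
  have h2 : DifferentiableOn ℂ (deriv φ) HP := hd.deriv hO
  exact (differentiableOn_id.mul h2).add (hd.div_const 2)

lemma xi_summable (hφ : ∀ z : ℂ, 0 < z.im → DifferentiableAt ℂ φ z)
    (hL : ∫⁻ z in HP, ENNReal.ofReal (z.im ^ (-1 / 2 : ℝ)) * ‖xi φ z‖ₑ ^ 2 < ∞)
    {z : ℂ} (hz : 0 < z.im) : Summable (fun k : ℤ => ‖xi φ (z + 2 * k)‖ ^ 2) := by
  set r : ℝ := min 1 z.im / 2 with hr
  have hr0 : 0 < r := by have : 0 < min 1 z.im := lt_min one_pos hz; positivity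
  have hr1 : r ≤ 1 / 2 := by have := min_le_left 1 z.im; linarith
  have hr2 : r ≤ z.im / 2 := by have := min_le_right 1 z.im; linarith
  have him : ∀ k : ℤ, ∀ w ∈ Metric.ball (z + 2 * (k : ℂ)) r, z.im / 2 ≤ w.im ∧ w.im ≤ 2 * z.im := by
    intro k w hw
    rw [Metric.mem_ball, dist_eq_norm] at hw
    have := Complex.abs_im_le_norm (w - (z + 2 * k))
    rw [Complex.sub_im, shift_im] at this
    have h2 := abs_le.1 (this.trans hw.le)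
    constructor <;> linarith [h2.1, h2.2]
  have hsub : ∀ k : ℤ, Metric.ball (z + 2 * (k : ℂ)) r ⊆ HP := by
    intro k w hw
    have := (him k w hw).1
    show 0 < w.im
    linarith
  have hdisj : Pairwise (Function.onFun Disjoint fun k : ℤ => Metric.ball (z + 2 * (k : ℂ)) r) := by
    intro j k hjk
    apply Metric.ball_disjoint_ball
    rw [dist_eq_norm]
    have e : z + 2 * (j : ℂ) - (z + 2 * k) = 2 * ((j - k : ℤ) : ℂ) := by push_cast; ring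
    rw [e, norm_mul, Complex.norm_ofNat, Complex.norm_intCast]
    have : (1 : ℝ) ≤ |((j - k : ℤ) : ℝ)| := by
      have := Int.one_le_abs (sub_ne_zero.2 hjk)
      exact_mod_cast this
    linarith
  have hmean : ∀ k : ℤ, ENNReal.ofReal (Real.pi * r ^ 2 * ‖xi φ (z + 2 * k)‖ ^ 2) ≤
      ENNReal.ofReal ((2 * z.im) ^ (1 / 2 : ℝ)) * ∫⁻ w in Metric.ball (z + 2 * (k : ℂ)) r,
        ENNReal.ofReal (w.im ^ (-1 / 2 : ℝ)) * ‖xi φ w‖ₑ ^ 2 := by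
    intro k
    have h1 := Pool.Agent.Split938.J4.mean_disc' (fun w => xi φ w ^ 2) (z + 2 * (k : ℂ)) r hr0
      (((xi_diff hφ).mono (hsub k)).pow 2)
    rw [norm_pow] at h1
    refine h1.trans ?_
    rw [← lintegral_const_mul' _ _ ENNReal.ofReal_ne_top]
    refine setLIntegral_mono' measurableSet_ball fun w hw => ?_
    obtain ⟨h2, h3⟩ := him k w hw
    have hw0 : 0 < w.im := by linarith
    rw [norm_pow, ← ofReal_norm, ← ENNReal.ofReal_pow (norm_nonneg _), ← mul_assoc,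
      ← ENNReal.ofReal_mul (by positivity), ← ENNReal.ofReal_mul (by positivity)]
    apply ENNReal.ofReal_le_ofReal
    have h4 : 1 ≤ (2 * z.im) ^ (1 / 2 : ℝ) * w.im ^ (-1 / 2 : ℝ) := by
      have h5 : (2 * z.im) ^ (-1 / 2 : ℝ) ≤ w.im ^ (-1 / 2 : ℝ) :=
        Real.rpow_le_rpow_of_nonpos hw0 h3 (by norm_num)
      have h6 : (2 * z.im) ^ (1 / 2 : ℝ) * (2 * z.im) ^ (-1 / 2 : ℝ) = 1 := by
        rw [← Real.rpow_add (by positivity)]; norm_num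
      calc (1 : ℝ) = (2 * z.im) ^ (1 / 2 : ℝ) * (2 * z.im) ^ (-1 / 2 : ℝ) := h6.symm
        _ ≤ _ := by gcongr
    have h7 : 0 ≤ Real.pi * r ^ 2 * ‖xi φ w‖ ^ 2 := by have := Real.pi_pos; positivity
    nlinarith
  have hsum : ∑' k : ℤ, ENNReal.ofReal (Real.pi * r ^ 2 * ‖xi φ (z + 2 * k)‖ ^ 2) < ∞ := by
    calc _ ≤ ∑' k : ℤ, ENNReal.ofReal ((2 * z.im) ^ (1 / 2 : ℝ)) *
          ∫⁻ w in Metric.ball (z + 2 * (k : ℂ)) r,
          ENNReal.ofReal (w.im ^ (-1 / 2 : ℝ)) * ‖xi φ w‖ₑ ^ 2 := ENNReal.tsum_le_tsum hmean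
      _ = ENNReal.ofReal ((2 * z.im) ^ (1 / 2 : ℝ)) *
          ∫⁻ w in ⋃ k : ℤ, Metric.ball (z + 2 * (k : ℂ)) r,
          ENNReal.ofReal (w.im ^ (-1 / 2 : ℝ)) * ‖xi φ w‖ₑ ^ 2 := by
          rw [ENNReal.tsum_mul_left, lintegral_iUnion (fun k => measurableSet_ball) hdisj]
      _ < ∞ := by
          apply ENNReal.mul_lt_top ENNReal.ofReal_lt_top
          exact lt_of_le_of_lt (lintegral_mono_set (Set.iUnion_subset hsub)) hL
  have h8 := ENNReal.summable_toReal hsum.ne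
  have h9 : Summable (fun k : ℤ => Real.pi * r ^ 2 * ‖xi φ (z + 2 * k)‖ ^ 2) := by
    refine h8.congr fun k => ?_
    rw [ENNReal.toReal_ofReal (by have := Real.pi_pos; positivity)]
  have hc : Real.pi * r ^ 2 ≠ 0 := by have := Real.pi_pos; positivity
  exact (summable_mul_left_iff hc).1 h9

lemma strip_lt {y1 y2 : ℝ} (h1 : 0 < y1) :
    ∫⁻ z in (Set.univ ×ℂ Set.Icc y1 y2), ENNReal.ofReal (‖z‖ ^ (-3 / 2 : ℝ)) < ∞ := by
  set m : ℝ := min 1 (y1 ^ 2) with hm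
  have hm0 : 0 < m := lt_min one_pos (by positivity)
  have hint : Integrable (fun x : ℝ => (1 + ‖x‖ ^ 2) ^ (-(3 / 2 : ℝ) / 2)) :=
    integrable_rpow_neg_one_add_norm_sq (E := ℝ) (r := 3 / 2) (by simp; norm_num)
  have hS : MeasurableSet (Set.univ ×ℂ Set.Icc y1 y2) := by
    have : (Set.univ ×ℂ Set.Icc y1 y2) = {z : ℂ | z.im ∈ Set.Icc y1 y2} := by
      ext z; simp [Complex.mem_reProdIm]
    rw [this]
    exact Complex.measurable_im measurableSet_Icc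
  have hbound : ∀ z ∈ (Set.univ ×ℂ Set.Icc y1 y2), ENNReal.ofReal (‖z‖ ^ (-3 / 2 : ℝ)) ≤
      ENNReal.ofReal (m ^ (-3 / 4 : ℝ)) *
        ENNReal.ofReal ((1 + ‖z.re‖ ^ 2) ^ (-(3 / 2 : ℝ) / 2)) := by
    intro z hz
    rw [Complex.mem_reProdIm] at hz
    have hy := hz.2.1
    rw [← ENNReal.ofReal_mul (by positivity)]
    apply ENNReal.ofReal_le_ofReal
    have h2 : m * (1 + ‖z.re‖ ^ 2) ≤ ‖z‖ ^ 2 := by
      rw [Complex.sq_norm, Complex.normSq_apply, Real.norm_eq_abs, sq_abs]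
      have a1 : m ≤ 1 := min_le_left _ _
      have a2 : m ≤ y1 ^ 2 := min_le_right _ _
      have a3 : y1 ^ 2 ≤ z.im ^ 2 := by gcongr
      nlinarith [sq_nonneg z.re]
    have hn : 0 < ‖z‖ := norm_pos_iff.2 (ne_zero_of_im (by linarith))
    have e1 : ‖z‖ ^ (-3 / 2 : ℝ) = (‖z‖ ^ 2) ^ (-3 / 4 : ℝ) := by
      rw [← Real.rpow_natCast, ← Real.rpow_mul hn.le]
      norm_num
    have e2 : m ^ (-3 / 4 : ℝ) * (1 + ‖z.re‖ ^ 2) ^ (-(3 / 2 : ℝ) / 2) =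
        (m * (1 + ‖z.re‖ ^ 2)) ^ (-3 / 4 : ℝ) := by
      rw [Real.mul_rpow hm0.le (by positivity)]
      norm_num
    rw [e1, e2]
    exact Real.rpow_le_rpow_of_nonpos (by positivity) h2 (by norm_num)
  refine lt_of_le_of_lt (setLIntegral_mono' hS hbound) ?_
  rw [lintegral_const_mul' _ _ ENNReal.ofReal_ne_top]
  apply ENNReal.mul_lt_top ENNReal.ofReal_lt_top
  rw [← Complex.volume_preserving_equiv_real_prod.symm.setLIntegral_comp_preimage_emb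
    Complex.measurableEquivRealProd.symm.measurableEmbedding]
  have hpre : (Complex.measurableEquivRealProd.symm ⁻¹' (Set.univ ×ℂ Set.Icc y1 y2)) =
      (Set.univ : Set ℝ) ×ˢ Set.Icc y1 y2 := by
    ext p
    simp [Complex.mem_reProdIm, Complex.measurableEquivRealProd]
  rw [hpre]
  have hmeas : Measurable (fun x : ℝ => ENNReal.ofReal ((1 + ‖x‖ ^ 2) ^ (-(3 / 2 : ℝ) / 2))) := by
    fun_prop
  rw [Measure.volume_eq_prod, ← Measure.prod_restrict]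
  have e3 : ∀ p : ℝ × ℝ, (Complex.measurableEquivRealProd.symm p).re = p.1 := fun p => rfl
  simp only [e3]
  rw [lintegral_prod (fun p : ℝ × ℝ => ENNReal.ofReal ((1 + ‖p.1‖ ^ 2) ^ (-(3 / 2 : ℝ) / 2)))
    (hmeas.comp measurable_fst).aemeasurable]
  simp only [lintegral_const, Measure.restrict_univ, Measure.restrict_apply MeasurableSet.univ,
    Set.univ_inter, Real.volume_Icc]
  rw [lintegral_mul_const _ hmeas]
  apply ENNReal.mul_lt_top _ ENNReal.ofReal_lt_top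
  have := hint.lintegral_lt_top
  exact this

theorem main : StPhi3 := by
  intro ε hε' φ C hφ hb hinv hL
  have hε : ‖ε‖ = 1 := by rcases hε' with h | h <;> simp [h]
  have hL' := xi_L2 hε hφ hinv hL
  refine ⟨fun z hz => ?_, fun y1 y2 hy1 hy12 => ?_⟩
  · have hs := (xi_summable hφ hL' hz).add ((sum32 hz).mul_left (z.im ^ (-1 / 2 : ℝ) + C))
    refine Summable.of_norm_bounded hs fun k => ?_
    have := deriv_le hε hb hinv (z := z + 2 * k) (by rw [shift_im]; exact hz)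
    rwa [shift_im] at this
  · have hC : 0 ≤ C := (norm_nonneg _).trans (hb I (by simp))
    have hS : MeasurableSet (Set.univ ×ℂ Set.Icc y1 y2) := by
      have : (Set.univ ×ℂ Set.Icc y1 y2) = {z : ℂ | z.im ∈ Set.Icc y1 y2} := by
        ext z; simp [Complex.mem_reProdIm]
      rw [this]
      exact Complex.measurable_im measurableSet_Icc
    have hSub : (Set.univ ×ℂ Set.Icc y1 y2) ⊆ HP := by
      intro z hz
      rw [Complex.mem_reProdIm] at hz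
      show 0 < z.im
      linarith [hz.2.1]
    refine ⟨(measurable_deriv φ).aestronglyMeasurable, ?_⟩
    show ∫⁻ z in (Set.univ ×ℂ Set.Icc y1 y2), ‖deriv φ z‖ₑ < ∞
    have hbound : ∀ z ∈ (Set.univ ×ℂ Set.Icc y1 y2), ‖deriv φ z‖ₑ ≤
        ENNReal.ofReal (y2 ^ (1 / 2 : ℝ)) *
          (ENNReal.ofReal (z.im ^ (-1 / 2 : ℝ)) * ‖xi φ z‖ₑ ^ 2) +
        ENNReal.ofReal (y1 ^ (-1 / 2 : ℝ) + C) * ENNReal.ofReal (‖z‖ ^ (-3 / 2 : ℝ)) := by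
      intro z hz
      have hz0 : 0 < z.im := hSub hz
      rw [Complex.mem_reProdIm] at hz
      have hy2 : 0 < y2 := by linarith
      rw [← ofReal_norm, ← ofReal_norm, ← ENNReal.ofReal_pow (norm_nonneg _),
        ← ENNReal.ofReal_mul (by positivity), ← ENNReal.ofReal_mul (by positivity),
        ← ENNReal.ofReal_mul (by positivity), ← ENNReal.ofReal_add (by positivity) (by positivity)]
      apply ENNReal.ofReal_le_ofReal
      refine (deriv_le hε hb hinv hz0).trans ?_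
      have h4 : 1 ≤ y2 ^ (1 / 2 : ℝ) * z.im ^ (-1 / 2 : ℝ) := by
        have h5 : y2 ^ (-1 / 2 : ℝ) ≤ z.im ^ (-1 / 2 : ℝ) :=
          Real.rpow_le_rpow_of_nonpos hz0 hz.2.2 (by norm_num)
        have h6 : y2 ^ (1 / 2 : ℝ) * y2 ^ (-1 / 2 : ℝ) = 1 := by
          rw [← Real.rpow_add (by positivity)]; norm_num
        calc (1 : ℝ) = y2 ^ (1 / 2 : ℝ) * y2 ^ (-1 / 2 : ℝ) := h6.symm
          _ ≤ _ := by gcongr
      have h7 : 0 ≤ ‖xi φ z‖ ^ 2 := by positivity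
      have h8 : z.im ^ (-1 / 2 : ℝ) ≤ y1 ^ (-1 / 2 : ℝ) :=
        Real.rpow_le_rpow_of_nonpos hy1 hz.2.1 (by norm_num)
      have h9 : ‖xi φ z‖ ^ 2 ≤ y2 ^ (1 / 2 : ℝ) * (z.im ^ (-1 / 2 : ℝ) * ‖xi φ z‖ ^ 2) := by
        nlinarith
      gcongr
    refine lt_of_le_of_lt (setLIntegral_mono' hS hbound) ?_
    have hxm : Measurable (fun z : ℂ => ENNReal.ofReal (‖z‖ ^ (-3 / 2 : ℝ))) := by fun_prop
    rw [lintegral_add_right _ (hxm.const_mul _), lintegral_const_mul' _ _ ENNReal.ofReal_ne_top,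
      lintegral_const_mul' _ _ ENNReal.ofReal_ne_top]
    apply ENNReal.add_lt_top.2 ⟨?_, ?_⟩
    · apply ENNReal.mul_lt_top ENNReal.ofReal_lt_top
      exact lt_of_le_of_lt (lintegral_mono_set hSub) hL'
    · exact ENNReal.mul_lt_top ENNReal.ofReal_lt_top (strip_lt hy1)

end Pool.Agent.W759.Phi3
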