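import Pool.Agent.W759.Wd
set_option autoImplicit false

/-! The cocycle, its derivative, Harnack inequality for orbits. -/

namespace Pool.Agent.W759

open Complex MeasureTheory Filter Topology
open scoped ENNReal

lemma J_arg {z : ℂ} (hz : 0 < z.im) : 0 < (-I * z).re := by simpa using hz

lemma J_ne {z : ℂ} (hz : 0 < z.im) : J z ≠ 0 := by
  unfold J
  rw [Complex.cpow_ne_zero_iff]
  left
  intro h
  have := J_arg hz
  rw [h] at this
  simp at this

lemma J_sq (z : ℂ) : J z ^ 2 = -I * z := by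
  unfold J
  rw [← Complex.cpow_nat_mul]
  norm_num

lemma J_norm {z : ℂ} : ‖J z‖ ^ 2 = ‖z‖ := by
  rw [← norm_pow, J_sq, norm_mul, norm_neg, Complex.norm_I, one_mul]

lemma J_norm' {z : ℂ} : ‖J z‖ = ‖z‖ ^ (1 / 2 : ℝ) := by
  rw [← Real.sqrt_eq_rpow, ← J_norm (z := z), Real.sqrt_sq (norm_nonneg _)]

lemma J_mul_conj (z : ℂ) : J z * (starRingEnd ℂ) (J z) = (‖z‖ : ℂ) := by
  rw [Complex.mul_conj, Complex.normSq_eq_norm_sq, J_norm]

lemma J_inv {z : ℂ} (hz : 0 < z.im) : J (-z⁻¹) = (J z)⁻¹ := by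
  unfold J
  have h0 := ne_zero_of_im hz
  have e : -I * -z⁻¹ = (-I * z)⁻¹ := by
    rw [mul_inv, neg_mul_neg, inv_neg, Complex.inv_I, neg_neg]
  rw [e, Complex.inv_cpow]
  intro h
  have h1 := Complex.arg_eq_pi_iff.1 h
  have := J_arg hz
  linarith [h1.1]

lemma J_diff {z : ℂ} (hz : 0 < z.im) : HasDerivAt J (-I / (2 * J z)) z := by
  have h1 : DifferentiableAt ℂ J z := by
    unfold J
    apply DifferentiableAt.cpow_const
    · fun_prop
    · left
      exact J_arg hz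
  have h2 := h1.hasDerivAt
  have h3 : HasDerivAt (fun w => J w ^ 2) (2 * J z * deriv J z) z :=
    (h2.fun_pow 2).congr_deriv (by simp)
  have h4 : HasDerivAt (fun w => J w ^ 2) (-I) z := by
    have : (fun w => J w ^ 2) = fun w => -I * w := funext J_sq
    rw [this]
    simpa using (hasDerivAt_id z).const_mul (-I)
  have h5 := h3.unique h4
  have h6 : deriv J z = -I / (2 * J z) := by
    have := J_ne hz
    rw [eq_div_iff (by simpa using this)]
    rw [← h5]; ring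
  rw [← h6]
  exact h2

/-- the slash factor -/
noncomputable def jf (z : ℂ) : ℂ := (J z)⁻¹ ^ 3

lemma jf_norm {z : ℂ} : ‖jf z‖ = ‖z‖ ^ (-3 / 2 : ℝ) := by
  unfold jf
  rw [norm_pow, norm_inv, J_norm', ← Real.rpow_neg (norm_nonneg _), ← Real.rpow_natCast,
    ← Real.rpow_mul (norm_nonneg _)]
  norm_num

lemma jf_diff {z : ℂ} (hz : 0 < z.im) : HasDerivAt jf (-(3 / 2) / z * jf z) z := by
  have h1 := J_diff hz
  have hJ := J_ne hz
  have h2 : HasDerivAt (fun w => (J w)⁻¹ ^ 3)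
      (3 * (J z)⁻¹ ^ 2 * (-(-I / (2 * J z)) / J z ^ 2)) z :=
    ((h1.fun_inv hJ).fun_pow 3).congr_deriv (by simp)
  refine h2.congr_deriv ?_
  unfold jf
  have h0 := ne_zero_of_im hz
  have hz' : z = I * J z ^ 2 := by
    rw [J_sq]
    rw [← mul_assoc, mul_neg, Complex.I_mul_I]
    simp
  have hI : I ≠ 0 := Complex.I_ne_zero
  have e : -(3 / 2) / z = (3 / 2) * I / J z ^ 2 := by
    rw [div_eq_div_iff h0 (pow_ne_zero 2 hJ)]
    nth_rewrite 2 [hz']
    have : I * I = -1 := Complex.I_mul_I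
    linear_combination (-(3 / 2) * J z ^ 2) * this
  rw [e]
  field_simp

lemma sk_diff (k : ℤ) {z : ℂ} (hz : 0 < z.im) :
    HasDerivAt (sk k) (((z + 2 * k) ^ 2)⁻¹) z := by
  have h : z + 2 * k ≠ 0 := ne_zero_of_im (by rw [shift_im]; exact hz)
  have h1 : HasDerivAt (fun w : ℂ => w + 2 * k) 1 z := (hasDerivAt_id z).add_const _
  have h2 := (h1.inv h).neg
  refine h2.congr_deriv ?_
  rw [neg_div, neg_neg, one_div]

lemma orb_diff (l : List Zs) : ∀ {z : ℂ}, 0 < z.im →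
    ∃ d : ℂ, HasDerivAt (orb l) d z ∧ ‖d‖ = (orb l z).im / z.im := by
  induction l with
  | nil =>
    intro z hz
    refine ⟨1, ?_, ?_⟩
    · have : orb [] = id := rfl
      rw [this]; exact hasDerivAt_id z
    · rw [orb_nil, norm_one, div_self hz.ne']
  | cons k l ih =>
    intro z hz
    have hs := sk_im_pos k hz
    obtain ⟨d, hd, hn⟩ := ih hs
    refine ⟨d * ((z + 2 * (k : ℤ)) ^ 2)⁻¹, ?_, ?_⟩
    · exact hd.comp z (sk_diff k hz)
    · have h : z + 2 * (k : ℤ) ≠ 0 := ne_zero_of_im (by rw [shift_im]; exact hz)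
      have hnp := norm_pos_iff.2 h
      rw [norm_mul, hn, norm_inv, norm_pow, sk_im, orb_cons]
      field_simp

/-- the cocycle of a word -/
noncomputable def fac (ε : ℂ) : List Zs → ℂ → ℂ
  | [], _ => 1
  | k :: l, z => ε * jf (z + 2 * k) * fac ε l (sk k z)

@[simp] lemma fac_nil (ε z : ℂ) : fac ε [] z = 1 := rfl
@[simp] lemma fac_cons (ε : ℂ) (k : Zs) (l : List Zs) (z : ℂ) :
    fac ε (k :: l) z = ε * jf (z + 2 * k) * fac ε l (sk k z) := rfl

lemma fac_norm {ε : ℂ} (hε : ‖ε‖ = 1) (l : List Zs) : ∀ {z : ℂ}, 0 < z.im →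
    ‖fac ε l z‖ = ((orb l z).im / z.im) ^ (3 / 4 : ℝ) := by
  induction l with
  | nil =>
    intro z hz
    simp [div_self hz.ne']
  | cons k l ih =>
    intro z hz
    have hs := sk_im_pos k hz
    have hz' : 0 < (z + 2 * (k : ℤ)).im := by rw [shift_im]; exact hz
    have hnp := norm_pos_iff.2 (ne_zero_of_im hz')
    have ho := orb_im_pos l hs
    rw [fac_cons, norm_mul, norm_mul, hε, one_mul, ih hs, jf_norm, orb_cons, sk_im]
    have e1 : ‖z + 2 * (k : ℤ)‖ ^ (-3 / 2 : ℝ) = ((‖z + 2 * (k : ℤ)‖ ^ 2)⁻¹) ^ (3 / 4 : ℝ) := by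
      rw [← Real.rpow_natCast, ← Real.rpow_neg hnp.le, ← Real.rpow_mul hnp.le]
      norm_num
    rw [e1, ← Real.mul_rpow (by positivity) (by positivity)]
    congr 1
    field_simp

lemma fac_diff {ε : ℂ} (l : List Zs) : ∀ {z : ℂ}, 0 < z.im →
    ∃ a : ℂ, HasDerivAt (fac ε l) (a * fac ε l z) z ∧
      ‖a - (3 / (4 * z.im) : ℝ) * I‖ ≤ 3 / (4 * z.im) := by
  induction l with
  | nil =>
    intro z hz
    refine ⟨0, ?_, ?_⟩
    · have : fac ε [] = fun _ => 1 := rfl
      rw [this, zero_mul]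
      exact hasDerivAt_const z _
    · rw [zero_sub, norm_neg, norm_mul, Complex.norm_I, mul_one, Complex.norm_real,
        Real.norm_eq_abs, abs_of_pos (by positivity)]
  | cons k l ih =>
    intro z hz
    have hs := sk_im_pos k hz
    obtain ⟨a, ha, hn⟩ := ih hs
    have hz' : 0 < (z + 2 * (k : ℤ)).im := by rw [shift_im]; exact hz
    set w : ℂ := z + 2 * (k : ℤ) with hw
    have hw0 : w ≠ 0 := ne_zero_of_im hz'
    have hnp := norm_pos_iff.2 hw0
    refine ⟨-(3 / 2) / w + a * (w ^ 2)⁻¹, ?_, ?_⟩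
    · have h1 : HasDerivAt (fun ζ : ℂ => ζ + 2 * ((k : ℤ) : ℂ)) 1 z :=
        (hasDerivAt_id z).add_const _
      have h2 : HasDerivAt (fun ζ : ℂ => jf (ζ + 2 * ((k : ℤ) : ℂ))) (-(3 / 2) / w * jf w) z := by
        have h2' : HasDerivAt jf (-(3 / 2) / w * jf w) (z + 2 * ((k : ℤ) : ℂ)) := jf_diff hz'
        have h2'' := HasDerivAt.comp (h₂ := jf) z h2' h1
        rw [mul_one] at h2''
        exact h2''
      have h3 : HasDerivAt (fun ζ : ℂ => fac ε l (sk k ζ))
          (a * fac ε l (sk k z) * (w ^ 2)⁻¹) z := ha.comp z (sk_diff k hz)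
      have h4 := (h2.const_mul ε).mul h3
      have h5 : fac ε (k :: l) = fun ζ => ε * jf (ζ + 2 * ((k : ℤ) : ℂ)) * fac ε l (sk k ζ) := rfl
      rw [h5]
      refine h4.congr_deriv ?_
      simp only []
      rw [← hw]
      ring
    · have hsi : (sk k z).im = z.im / ‖w‖ ^ 2 := sk_im k z
      rw [hsi] at hn
      have key : -(3 / 2) / w + a * (w ^ 2)⁻¹ - ((3 / (4 * z.im) : ℝ) : ℂ) * I =
          (w ^ 2)⁻¹ * (a - ((3 / (4 * (z.im / ‖w‖ ^ 2)) : ℝ) : ℂ) * I) := by
        have e1 : ((3 / (4 * (z.im / ‖w‖ ^ 2)) : ℝ) : ℂ) =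
            3 / (4 * z.im) * (w * (starRingEnd ℂ) w) := by
          rw [Complex.mul_conj, Complex.normSq_eq_norm_sq]
          push_cast
          have : (z.im : ℂ) ≠ 0 := by exact_mod_cast hz.ne'
          have h2 : ((‖w‖ : ℝ) : ℂ) ≠ 0 := by exact_mod_cast hnp.ne'
          field_simp
        have e2 : (starRingEnd ℂ) w = w - 2 * z.im * I := by
          apply Complex.ext
          · simp
          · simp [hw]; ring
        rw [e1, e2]
        push_cast
        have h3 : (z.im : ℂ) ≠ 0 := by exact_mod_cast hz.ne'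
        field_simp
        have hI : I ^ 2 = -1 := Complex.I_sq
        linear_combination (-12 * (z.im : ℂ) * w) * hI
      rw [key, norm_mul, norm_inv, norm_pow]
      calc (‖w‖ ^ 2)⁻¹ * ‖a - ((3 / (4 * (z.im / ‖w‖ ^ 2)) : ℝ) : ℂ) * I‖ ≤
          (‖w‖ ^ 2)⁻¹ * (3 / (4 * (z.im / ‖w‖ ^ 2))) := by gcongr
        _ = 3 / (4 * z.im) := by field_simp

/-- invariance of the hyperbolic quantity -/
lemma orb_dist (l : List Zs) : ∀ {z z' : ℂ}, 0 < z.im → 0 < z'.im →
    ‖orb l z - orb l z'‖ ^ 2 / ((orb l z).im * (orb l z').im) = ‖z - z'‖ ^ 2 / (z.im * z'.im) := by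
  induction l with
  | nil => intro z z' _ _; rfl
  | cons k l ih =>
    intro z z' hz hz'
    rw [orb_cons, orb_cons, ih (sk_im_pos k hz) (sk_im_pos k hz'), sk_im, sk_im]
    have h : z + 2 * (k : ℤ) ≠ 0 := ne_zero_of_im (by rw [shift_im]; exact hz)
    have h' : z' + 2 * (k : ℤ) ≠ 0 := ne_zero_of_im (by rw [shift_im]; exact hz')
    have hn := norm_pos_iff.2 h
    have hn' := norm_pos_iff.2 h'
    have e : sk k z - sk k z' = (z - z') / ((z + 2 * (k : ℤ)) * (z' + 2 * (k : ℤ))) := by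
      unfold sk
      field_simp
      ring
    rw [e, norm_div, norm_mul]
    field_simp

lemma im_harnack {z z' : ℂ} (hz : 0 < z.im) (hz' : 0 < z'.im) :
    z'.im ≤ (‖z - z'‖ ^ 2 / (z.im * z'.im) + 2) * z.im := by
  have h1 : (z.im - z'.im) ^ 2 ≤ ‖z - z'‖ ^ 2 := by
    have := Complex.abs_im_le_norm (z - z')
    rw [Complex.sub_im] at this
    rw [← sq_abs (z.im - z'.im)]
    gcongr
  have h2 : z'.im ≤ ((z.im - z'.im) ^ 2 / (z.im * z'.im) + 2) * z.im := by
    have h3 : ((z.im - z'.im) ^ 2 / (z.im * z'.im) + 2) * z.im =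
        (z.im ^ 2 + z'.im ^ 2) / z'.im := by
      field_simp
      ring
    rw [h3, le_div_iff₀ hz']
    nlinarith [sq_nonneg z.im]
  refine h2.trans ?_
  gcongr

lemma orb_harnack (l : List Zs) {z z' : ℂ} (hz : 0 < z.im) (hz' : 0 < z'.im) :
    (orb l z').im ≤ (‖z - z'‖ ^ 2 / (z.im * z'.im) + 2) * (orb l z).im := by
  rw [← orb_dist l hz hz']
  exact im_harnack (orb_im_pos l hz) (orb_im_pos l hz')

/-- on the ball of radius `Im z / 2` the orbits are comparable -/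
lemma orb_ball (l : List Zs) {z z' : ℂ} (hz : 0 < z.im) (h : ‖z' - z‖ ≤ z.im / 2) :
    (orb l z').im ≤ 3 * (orb l z).im := by
  have h1 : z.im / 2 ≤ z'.im := by
    have := Complex.abs_im_le_norm (z' - z)
    rw [Complex.sub_im] at this
    have := (abs_le.1 (this.trans h)).1
    linarith
  have hz' : 0 < z'.im := by linarith
  refine (orb_harnack l hz hz').trans ?_
  have h2 : ‖z - z'‖ ^ 2 / (z.im * z'.im) ≤ 1 := by
    rw [div_le_one (by positivity), norm_sub_rev]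
    have : ‖z' - z‖ ^ 2 ≤ (z.im / 2) ^ 2 := by gcongr
    nlinarith
  have := orb_im_pos l hz
  nlinarith

end Pool.Agent.W759
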