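import Pool.Agent.W759.D
set_option autoImplicit false

/-! Facts about the angle function. -/

namespace Pool.Agent.W759

open Complex MeasureTheory Filter Topology
open scoped ENNReal

lemma arg_pos_H {z : ℂ} (hz : 0 < z.im) : 0 < z.arg := by
  rcases (Complex.arg_nonneg_iff.2 hz.le).lt_or_eq with h | h
  · exact h
  · exact absurd (Complex.arg_eq_zero_iff.1 h.symm).2 hz.ne'

lemma arg_lt_H {z : ℂ} (hz : 0 < z.im) : z.arg < Real.pi := by
  rcases (Complex.arg_le_pi z).lt_or_eq with h | h
  · exact h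
  · exact absurd (Complex.arg_eq_pi_iff.1 h).2 hz.ne'

lemma sin_arg_sub {z w : ℂ} (hz : z ≠ 0) (hw : w ≠ 0) :
    Real.sin (z.arg - w.arg) = (z * (starRingEnd ℂ) w).im / (‖z‖ * ‖w‖) := by
  have h1 : ‖z‖ ≠ 0 := norm_ne_zero_iff.2 hz
  have h2 : ‖w‖ ≠ 0 := norm_ne_zero_iff.2 hw
  rw [Real.sin_sub, Complex.sin_arg, Complex.sin_arg, Complex.cos_arg hz, Complex.cos_arg hw]
  simp only [Complex.mul_im, Complex.conj_re, Complex.conj_im]
  field_simp
  ring

lemma sin_An {z : ℂ} (hz : 0 < z.im) : Real.sin (An z) = 2 * z.im / ‖z ^ 2 - 1‖ := by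
  have h1 : z - 1 ≠ 0 := fun h => by
    have := congrArg Complex.im h
    simp at this
    exact hz.ne' this
  have h2 : z + 1 ≠ 0 := fun h => by
    have := congrArg Complex.im h
    simp at this
    exact hz.ne' this
  unfold An
  rw [sin_arg_sub h1 h2, ← norm_mul]
  congr 1
  · simp only [map_add, map_one, Complex.mul_im, Complex.add_im, Complex.add_re, Complex.sub_re,
      Complex.sub_im, Complex.conj_re, Complex.conj_im, Complex.one_re, Complex.one_im]
    ring
  · congr 1
    ring

lemma z2_ne {z : ℂ} (hz : 0 < z.im) : z ^ 2 - 1 ≠ 0 := by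
  have : z ^ 2 - 1 = (z - 1) * (z + 1) := by ring
  rw [this]
  apply mul_ne_zero
  · intro h
    have := congrArg Complex.im h
    simp at this
    exact hz.ne' this
  · intro h
    have := congrArg Complex.im h
    simp at this
    exact hz.ne' this

lemma An_mem {z : ℂ} (hz : 0 < z.im) : 0 < An z ∧ An z < Real.pi := by
  have h1 : 0 < (z - 1).im := by simpa using hz
  have h2 : 0 < (z + 1).im := by simpa using hz
  have a1 := arg_pos_H h1
  have a2 := arg_lt_H h1
  have b1 := arg_pos_H h2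
  have b2 := arg_lt_H h2
  have hs : 0 < Real.sin (An z) := by
    rw [sin_An hz]
    have := norm_pos_iff.2 (z2_ne hz)
    positivity
  refine ⟨?_, ?_⟩
  · by_contra h
    have h3 : Real.sin (An z) ≤ 0 :=
      Real.sin_nonpos_of_nonpos_of_neg_pi_le (not_lt.1 h) (by unfold An; linarith)
    linarith
  · unfold An
    linarith

lemma An_inv {z : ℂ} (hz : 0 < z.im) : An (-z⁻¹) = Real.pi - An z := by
  have hz0 : z ≠ 0 := fun h => by rw [h] at hz; simp at hz
  have hi : 0 < (-z⁻¹).im := by
    rw [Complex.neg_im, Complex.inv_im, neg_div, neg_neg]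
    exact div_pos hz (Complex.normSq_pos.2 hz0)
  have m1 := An_mem hz
  have m2 := An_mem hi
  have h1 : z - 1 ≠ 0 := fun h => by
    have := congrArg Complex.im h
    simp at this
    exact hz.ne' this
  have h2 : z + 1 ≠ 0 := fun h => by
    have := congrArg Complex.im h
    simp at this
    exact hz.ne' this
  have e1 : -z⁻¹ - 1 = (-1) * ((z + 1) / z) := by field_simp; ring
  have e2 : -z⁻¹ + 1 = (z - 1) / z := by field_simp; ring
  have key : ((An (-z⁻¹) : ℝ) : Real.Angle) = ((Real.pi - An z : ℝ) : Real.Angle) := by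
    unfold An
    rw [e1, e2]
    simp only [Real.Angle.coe_sub]
    rw [Complex.arg_mul_coe_angle (by norm_num) (div_ne_zero h2 hz0),
      Complex.arg_div_coe_angle h2 hz0, Complex.arg_div_coe_angle h1 hz0, Complex.arg_neg_one]
    abel
  rw [Real.Angle.angle_eq_iff_two_pi_dvd_sub] at key
  obtain ⟨k, hk⟩ := key
  have hp := Real.pi_pos
  have hk0 : k = 0 := by
    have h3 : (k : ℝ) < 1 := by
      by_contra h
      have : 2 * Real.pi * 1 ≤ 2 * Real.pi * k :=
        mul_le_mul_of_nonneg_left (not_lt.1 h) (by positivity)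
      linarith
    have h4 : (-1 : ℝ) < k := by
      by_contra h
      have : 2 * Real.pi * k ≤ 2 * Real.pi * (-1) :=
        mul_le_mul_of_nonneg_left (not_lt.1 h) (by positivity)
      linarith
    have h5 : k < 1 := by exact_mod_cast h3
    have h6 : -1 < k := by exact_mod_cast h4
    omega
  rw [hk0] at hk
  simp at hk
  linarith

lemma An_ge {z : ℂ} (hz : 0 < z.im) : 2 * z.im / ‖z ^ 2 - 1‖ ≤ An z := by
  rw [← sin_An hz]
  exact Real.sin_le (An_mem hz).1.le

lemma arg_le_div {w : ℂ} (h1 : 0 < w.re) (h2 : 0 ≤ w.im) : w.arg ≤ w.im / w.re := by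
  have h3 : |w.arg| < Real.pi / 2 := Complex.abs_arg_lt_pi_div_two_iff.2 (Or.inl h1)
  have h4 : 0 ≤ w.arg := Complex.arg_nonneg_iff.2 h2
  rw [abs_of_nonneg h4] at h3
  rw [← Complex.tan_arg]
  exact Real.le_tan h4 h3

lemma pi_sub_arg_le {w : ℂ} (h1 : w.re < 0) (h2 : 0 < w.im) :
    Real.pi - w.arg ≤ w.im / (-w.re) := by
  have h3 := Complex.arg_neg_eq_arg_sub_pi_of_im_pos h2
  have h4 : ((starRingEnd ℂ) (-w)).arg = Real.pi - w.arg := by
    rw [Complex.arg_conj, if_neg, h3]
    · ring
    · rw [h3]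
      have := arg_pos_H h2
      have h5 := arg_lt_H h2
      have := Real.pi_pos
      linarith
  rw [← h4]
  have h6 := arg_le_div (w := (starRingEnd ℂ) (-w)) (by simpa using h1) (by simpa using h2.le)
  simpa using h6

lemma An_U {z : ℂ} (hz : 0 < z.im) (h1 : |z.re| < 1) :
    Real.pi - An z ≤ z.im * (1 / (1 - z.re) + 1 / (1 + z.re)) := by
  rw [abs_lt] at h1
  have a := pi_sub_arg_le (w := z - 1) (by simp; linarith) (by simpa using hz)
  have b := arg_le_div (w := z + 1) (by simp; linarith) (by simpa using hz.le)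
  simp only [Complex.sub_re, Complex.one_re, Complex.sub_im, Complex.one_im, Complex.add_re,
    Complex.add_im, sub_zero, add_zero, neg_sub] at a b
  unfold An
  have e : z.im * (1 / (1 - z.re) + 1 / (1 + z.re)) = z.im / (1 - z.re) + z.im / (z.re + 1) := by
    rw [add_comm z.re 1]; ring
  rw [e]
  linarith

lemma An_V {z : ℂ} (hz : 0 < z.im) (h1 : 1 < |z.re|) : An z ≤ z.im / (|z.re| - 1) := by
  rcases lt_abs.1 h1 with h | h
  · rw [abs_of_pos (by linarith)]
    have a := arg_le_div (w := z - 1) (by simp; linarith) (by simpa using hz.le)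
    simp only [Complex.sub_re, Complex.one_re, Complex.sub_im, Complex.one_im, sub_zero] at a
    have b : 0 < (z + 1).arg := arg_pos_H (by simpa using hz)
    unfold An
    linarith
  · rw [abs_of_neg (by linarith)]
    have a := pi_sub_arg_le (w := z + 1) (by simp; linarith) (by simpa using hz)
    simp only [Complex.add_re, Complex.add_im, Complex.one_re, Complex.one_im, add_zero,
      neg_add_rev] at a
    have b : (z - 1).arg < Real.pi := arg_lt_H (by simpa using hz)
    unfold An
    have e : -z.re - 1 = -1 + -z.re := by ring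
    rw [e]
    linarith

lemma arg_tendsto_zero {z : ℂ} (hz : 0 < z.im) (c : ℝ) :
    Tendsto (fun n : ℕ => (z + 2 * n + c).arg) atTop (𝓝 0) := by
  have h1 : ∀ᶠ n : ℕ in atTop, ((1 : ℂ) + (z + c) / (2 * n)).arg = (z + 2 * n + c).arg := by
    filter_upwards [eventually_gt_atTop 0] with n hn
    have hn' : (0 : ℝ) < 2 * n := by positivity
    have hn'' : (n : ℂ) ≠ 0 := by exact_mod_cast hn.ne'
    rw [← Complex.arg_real_mul ((1 : ℂ) + (z + c) / (2 * n)) hn']
    congr 1
    push_cast
    field_simp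
    ring
  have h2 : Tendsto (fun n : ℕ => ((1 : ℂ) + (z + c) / (2 * n))) atTop (𝓝 1) := by
    have h3 : Tendsto (fun n : ℕ => (z + c) / 2 * ((n : ℂ))⁻¹) atTop (𝓝 ((z + c) / 2 * 0)) :=
      (tendsto_inv_atTop_nhds_zero_nat (𝕜 := ℂ)).const_mul _
    have h4 := h3.const_add (1 : ℂ)
    simp only [mul_zero, add_zero] at h4
    refine h4.congr fun n => ?_
    rw [← div_eq_mul_inv, div_div]
  have h5 := (Complex.continuousAt_arg (x := 1) (by simp)).tendsto.comp h2
  rw [Complex.arg_one] at h5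
  exact h5.congr' h1

lemma arg_tendsto_pi {z : ℂ} (hz : 0 < z.im) (c : ℝ) :
    Tendsto (fun n : ℕ => (z - 2 * n + c).arg) atTop (𝓝 Real.pi) := by
  have h := arg_tendsto_zero (z := -(starRingEnd ℂ) z) (by simpa using hz) (-c)
  have h2 := h.const_sub Real.pi
  rw [sub_zero] at h2
  refine h2.congr fun n => ?_
  have e1 : -(starRingEnd ℂ) z + 2 * n + ((-c : ℝ) : ℂ) = -(starRingEnd ℂ) (z - 2 * n + c) := by
    simp only [map_add, map_sub, map_mul, Complex.conj_ofReal, Complex.conj_natCast]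
    push_cast
    have : (starRingEnd ℂ) 2 = 2 := Complex.conj_ofNat 2
    rw [this]
    ring
  have him : 0 < (z - 2 * n + c).im := by simpa using hz
  rw [e1, ← map_neg, Complex.arg_conj, if_neg, Complex.arg_neg_eq_arg_sub_pi_of_im_pos him]
  · ring
  · rw [Complex.arg_neg_eq_arg_sub_pi_of_im_pos him]
    have := arg_lt_H him
    have := Real.pi_pos
    linarith

lemma An_hasSum {z : ℂ} (hz : 0 < z.im) : HasSum (fun k : ℤ => An (z + 2 * k)) Real.pi := by
  have hnn : ∀ k : ℤ, 0 ≤ An (z + 2 * k) := fun k => (An_mem (by simpa using hz)).1.le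
  have h1 : HasSum (fun n : ℕ => An (z + 2 * ((n : ℤ) : ℂ))) ((z - 1).arg) := by
    rw [hasSum_iff_tendsto_nat_of_nonneg (fun n => hnn n)]
    have e : ∀ n : ℕ, ∑ i ∈ Finset.range n, An (z + 2 * ((i : ℤ) : ℂ)) =
        (z - 1).arg - (z + 2 * n + ((-1 : ℝ) : ℂ)).arg := by
      intro n
      induction n with
      | zero => simp [sub_eq_add_neg]
      | succ n ih =>
        rw [Finset.sum_range_succ, ih]
        unfold An
        have e1 : z + 2 * ((n : ℤ) : ℂ) - 1 = z + 2 * n + ((-1 : ℝ) : ℂ) := by push_cast; ring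
        have e2 : z + 2 * ((n : ℤ) : ℂ) + 1 = z + 2 * ((n + 1 : ℕ) : ℂ) + ((-1 : ℝ) : ℂ) := by
          push_cast; ring
        rw [e1, e2]
        ring
    have := (arg_tendsto_zero hz (-1)).const_sub ((z - 1).arg)
    rw [sub_zero] at this
    exact this.congr fun n => (e n).symm
  have h2 : HasSum (fun n : ℕ => An (z + 2 * ((-((n : ℤ) + 1) : ℤ) : ℂ)))
      (Real.pi - (z - 1).arg) := by
    rw [hasSum_iff_tendsto_nat_of_nonneg (fun n => hnn _)]
    have e : ∀ n : ℕ, ∑ i ∈ Finset.range n, An (z + 2 * ((-((i : ℤ) + 1) : ℤ) : ℂ)) =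
        (z - 2 * n + ((-1 : ℝ) : ℂ)).arg - (z - 1).arg := by
      intro n
      induction n with
      | zero => simp [sub_eq_add_neg]
      | succ n ih =>
        rw [Finset.sum_range_succ, ih]
        unfold An
        have e1 : z + 2 * ((-((n : ℤ) + 1) : ℤ) : ℂ) - 1 =
            z - 2 * ((n + 1 : ℕ) : ℂ) + ((-1 : ℝ) : ℂ) := by push_cast; ring
        have e2 : z + 2 * ((-((n : ℤ) + 1) : ℤ) : ℂ) + 1 = z - 2 * n + ((-1 : ℝ) : ℂ) := by
          push_cast; ring
        rw [e1, e2]
        ring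
    have := (arg_tendsto_pi hz (-1)).sub_const ((z - 1).arg)
    exact this.congr fun n => (e n).symm
  have h3 := HasSum.of_nat_of_neg_add_one (f := fun k : ℤ => An (z + 2 * k)) h1 h2
  have e : (z - 1).arg + (Real.pi - (z - 1).arg) = Real.pi := by ring
  rwa [e] at h3

end Pool.Agent.W759
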