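import Mathlib
set_option autoImplicit false

/-! Definitions for the proof that the square roots form a Fourier uniqueness pair (MP_860c65). -/

namespace Pool.Agent.W759

open Complex MeasureTheory Filter Topology
open scoped ENNReal

/-- nonzero integers -/
abbrev Zs : Type := {k : ℤ // k ≠ 0}

/-- principal branch of the square root of `-iz` -/
noncomputable def J (z : ℂ) : ℂ := (-I * z) ^ (1 / 2 : ℂ)

/-- the maps `z ↦ -1/(z+2k)` -/
noncomputable def sk (k : ℤ) (z : ℂ) : ℂ := -(z + 2 * k)⁻¹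

/-- upper half plane -/
def HP : Set ℂ := {z | 0 < z.im}

/-- upper half of the unit disc -/
def U : Set ℂ := {z | 0 < z.im ∧ ‖z‖ < 1}

def Om0 : Set ℂ := {z | 0 < z.im ∧ ∀ k : ℤ, k ≠ 0 → 1 < ‖z + 2 * k‖}

def Om : Set ℂ := {z | 0 < z.im ∧ ∀ k : ℤ, 1 < ‖z + 2 * k‖}

def Om1 : Set ℂ := {z | z ∈ Om0 ∧ -z⁻¹ ∈ Om0}

/-- angle under which `[-1,1]` is seen from `z` -/
noncomputable def An (z : ℂ) : ℝ := (z - 1).arg - (z + 1).arg

/-- the transfer operator -/
noncomputable def SS (G : ℂ → ℝ≥0∞) (z : ℂ) : ℝ≥0∞ := ∑' k : Zs, G (sk k z)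

end Pool.Agent.W759
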