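import Pool.Agent.W759.D
set_option autoImplicit false

/-! Statements of independent parts (as propositions). -/

namespace Pool.Agent.W759

open Complex MeasureTheory Filter Topology
open scoped ENNReal

/-- THETA: decay of the theta function at the cusp 1. -/
def StTheta : Prop := ∃ C : ℝ, ∀ τ : ℂ, 1 / 2 ≤ (-τ⁻¹).im →
    ‖jacobiTheta (1 + τ)‖ ≤ C * ‖τ‖ ^ (-1 / 2 : ℝ) * Real.exp (-(Real.pi / 4) * (-τ⁻¹).im)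

/-- MAX: maximum principle on the fundamental domain of the theta group. -/
def StMax : Prop := ∀ (P : ℂ → ℂ)
    (_ : ∀ z ∈ Om1, DifferentiableAt ℂ P z)
    (_ : ∀ z ∈ Om, P (z + 2) = P z)
    (_ : ∀ z ∈ Om1, ‖P (-z⁻¹)‖ = ‖P z‖)
    (C : ℝ) (_ : ∀ z : ℂ, 2 ≤ z.im → ‖P z‖ ≤ C)
    (_ : ∀ δ > 0, ∃ r > 0, ∀ z : ℂ, 0 < z.im → 1 ≤ ‖z‖ → |z.re| ≤ 1 → z.im ≤ r → ‖P z‖ ≤ δ),
    ∀ z ∈ Om1, P z = 0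

/-- UNIQ: there is no nonzero cusp form of weight 3/2 on the theta group, in a local form. -/
def StUniq : Prop := ∀ (ε : ℂ) (_ : ε = 1 ∨ ε = -1) (W : ℂ → ℂ)
    (_ : ∀ z ∈ Om1, DifferentiableAt ℂ W z)
    (_ : ∀ z ∈ Om, W (z + 2) = W z)
    (_ : ∀ z ∈ Om1, W (-z⁻¹) = ε * J z ^ 3 * W z)
    (C : ℝ) (_ : ∀ z ∈ Om1, 1 ≤ ‖z‖ → |z.re| ≤ 1 → z.im ≤ 2 → ‖W z‖ ≤ C * z.im ^ (-1 / 2 : ℝ))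
    (_ : ∀ δ > 0, ∃ T : ℝ, ∀ z : ℂ, T ≤ z.im → ‖W z‖ ≤ δ),
    ∀ z ∈ Om1, W z = 0

/-- MEAS: L2 functions decay along the transfer operator. -/
def StMeas : Prop := ∀ (N0 : ℂ → ℝ≥0∞) (_ : Measurable N0)
    (_ : ∫⁻ z in U, N0 z ^ 2 * ENNReal.ofReal (z.im ^ (-3 : ℝ)) < ∞),
    ∀ᵐ z ∂((volume : Measure ℂ).restrict U), liminf (fun m : ℕ => (SS^[m] N0) z) atTop = 0

/-- FIN: final step. -/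
def StFin : Prop := ∀ (g : ℝ → ℂ) (_ : Continuous g) (B : ℝ) (_ : ∀ t, ‖g t‖ ≤ B * (1 + |t|))
    (ψ q : ℂ → ℂ)
    (_ : ∀ z : ℂ, 0 < z.im → ψ z = ∫ t in Set.Ioi (0 : ℝ), g t * exp (I * Real.pi * z * t))
    (_ : ∀ y1 y2 : ℝ, 0 < y1 → y1 < y2 → IntegrableOn ψ (Set.univ ×ℂ Set.Icc y1 y2))
    (_ : ∀ z : ℂ, 0 < z.im → ∃ q' : ℂ →L[ℝ] ℂ, HasFDerivAt q q' z ∧
      q' 1 + I * q' I = -((z.im ^ (-1 / 2 : ℝ) : ℝ) : ℂ) * (starRingEnd ℂ) (ψ z))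
    (C : ℝ) (_ : ∀ z : ℂ, 0 < z.im → ‖z‖ < 1 → ‖q z‖ ≤ C * z.im ^ (-1 / 2 : ℝ) * (Real.pi - An z))
    (_ : ∀ z : ℂ, 0 < z.im → 1 < ‖z‖ → ‖q z‖ ≤ C * (z.im ^ (1 / 2 : ℝ) * ‖z‖ ^ (-3 / 2 : ℝ) +
      z.im ^ (-1 / 2 : ℝ) * ‖z‖ ^ (-1 / 2 : ℝ) * An z)),
    ∀ s > 0, g s = 0

end Pool.Agent.W759
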