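import Pool.Agent.W759.V
import Pool.Agent.W759.Stmts
set_option autoImplicit false

/-! Vanishing of the limit density. -/

namespace Pool.Agent.W759

open Complex MeasureTheory Filter Topology
open scoped ENNReal

variable {ε : ℂ} {w1 : ℂ → ℂ} {C1 : ℝ}

lemma dk_norm (hε : ‖ε‖ = 1) (k : ℤ) {z : ℂ} (hz : 0 < z.im) :
    z.im ^ (7 / 4 : ℝ) * ‖dk ε k z‖ = (sk k z).im ^ (7 / 4 : ℝ) := by
  have hz' : 0 < (z + 2 * (k : ℤ)).im := by rw [shift_im]; exact hz
  have hnp := norm_pos_iff.2 (ne_zero_of_im hz')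
  unfold dk
  rw [norm_mul, norm_mul, hε, one_mul, RCLike.norm_conj, norm_inv, norm_pow, jf_norm, sk_im,
    Real.div_rpow hz.le (by positivity), div_eq_mul_inv]
  congr 1
  rw [← Real.rpow_natCast, ← Real.rpow_neg hnp.le, ← Real.rpow_add hnp, ← Real.rpow_mul hnp.le,
    ← Real.rpow_neg hnp.le]
  norm_num

/-- weighted size -/
noncomputable def Nf (E : ℂ → ℂ) (z : ℂ) : ℝ≥0∞ := ENNReal.ofReal (z.im ^ (7 / 4 : ℝ)) * ‖E z‖ₑ

lemma Nf_le_SS (hε : ‖ε‖ = 1) {E : ℂ → ℂ}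
    (hE : ∀ z ∈ Om0, E z = ∑' k : Zs, dk ε k z * E (sk k z)) {z : ℂ} (hz : z ∈ Om0) :
    Nf E z ≤ SS (Nf E) z := by
  unfold Nf SS
  rw [hE z hz]
  calc ENNReal.ofReal (z.im ^ (7 / 4 : ℝ)) * ‖∑' k : Zs, dk ε k z * E (sk k z)‖ₑ
      ≤ ENNReal.ofReal (z.im ^ (7 / 4 : ℝ)) * ∑' k : Zs, ‖dk ε k z * E (sk k z)‖ₑ := by
        gcongr
        exact enorm_tsum_le_tsum_enorm
    _ = ∑' k : Zs, ENNReal.ofReal ((sk k z).im ^ (7 / 4 : ℝ)) * ‖E (sk k z)‖ₑ := by
        rw [← ENNReal.tsum_mul_left]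
        congr 1
        funext k
        rw [enorm_mul, ← mul_assoc]
        congr 1
        rw [← ofReal_norm_eq_enorm, ← ENNReal.ofReal_mul (by have := hz.1; positivity),
          dk_norm hε k hz.1]

lemma iter_SS_mono {F G : ℂ → ℝ≥0∞} (h : ∀ z ∈ U, F z ≤ G z) (m : ℕ) : ∀ z ∈ U,
    (SS^[m] F) z ≤ (SS^[m] G) z := by
  induction m with
  | zero => exact h
  | succ m ih =>
    intro z hz
    rw [Function.iterate_succ_apply', Function.iterate_succ_apply']
    exact SS_mono_on ih (U_sub hz)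

lemma iter_SS_le {F : ℂ → ℝ≥0∞} (h : ∀ z ∈ U, F z ≤ SS F z) (m : ℕ) : ∀ z ∈ U,
    F z ≤ (SS^[m] F) z := by
  induction m with
  | zero => intro z _; exact le_rfl
  | succ m ih =>
    intro z hz
    rw [Function.iterate_succ_apply']
    exact (h z hz).trans (SS_mono_on ih (U_sub hz))

lemma iter_SS_add (F G : ℂ → ℝ≥0∞) (m : ℕ) : ∀ z,
    (SS^[m] (fun w => F w + G w)) z = (SS^[m] F) z + (SS^[m] G) z := by
  induction m with
  | zero => intro z; rfl
  | succ m ih =>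
    intro z
    rw [Function.iterate_succ_apply', Function.iterate_succ_apply', Function.iterate_succ_apply',
      ← SS_add]
    congr 1
    funext w
    exact ih w

lemma iter_SS_mul (c : ℝ≥0∞) (F : ℂ → ℝ≥0∞) (m : ℕ) : ∀ z,
    (SS^[m] (fun w => c * F w)) z = c * (SS^[m] F) z := by
  induction m with
  | zero => intro z; rfl
  | succ m ih =>
    intro z
    rw [Function.iterate_succ_apply', Function.iterate_succ_apply', ← SS_mul]
    congr 1
    funext w
    exact ih w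

lemma dk_sum_add {a b : Zs → ℂ} (ha : Summable a) (hb : Summable b) :
    ∑' k, (a k + b k) = ∑' k, a k + ∑' k, b k := ha.tsum_add hb

theorem Vd_eq_neg (hM : StMeas) (hε : ‖ε‖ = 1) (h : W1Dat w1 C1) {u : ℂ → ℂ}
    (hum : Measurable u) (huc : ContinuousOn u Om0)
    (hks : ∀ z ∈ Om0, Summable (fun k : Zs => dk ε k z * u (sk k z)))
    (hk : ∀ z ∈ Om0, db (fderiv ℝ w1 z) = -u z + ∑' k : Zs, dk ε k z * u (sk k z))
    (hL : ∫⁻ z in U, (ENNReal.ofReal (z.im ^ (7 / 4 : ℝ)) * ‖u z‖ₑ) ^ 2 *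
      ENNReal.ofReal (z.im ^ (-3 : ℝ)) < ∞) :
    ∀ z ∈ Om0, Vd ε (fun ζ => db (fderiv ℝ w1 ζ)) z = -u z := by
  set V := Vd ε (fun ζ => db (fderiv ℝ w1 ζ)) with hV
  set E : ℂ → ℂ := fun z => u z + V z with hE
  have hrec : ∀ z ∈ Om0, E z = ∑' k : Zs, dk ε k z * E (sk k z) := by
    intro z hz
    have h1 : V z = db (fderiv ℝ w1 z) + ∑' k : Zs, dk ε k z * V (sk k z) := Vd_rec hε h hz
    simp only [hE, mul_add]
    rw [(hks z hz).tsum_add (Vd_rec_summable hε h hz), h1, hk z hz]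
    ring
  have hN : ∀ z ∈ U, Nf E z ≤ SS (Nf E) z := fun z hz => Nf_le_SS hε hrec (U_sub hz)
  have hbd : ∀ z ∈ U, Nf E z ≤ Nf u z + ENNReal.ofReal (2 * C1) * Rs z := by
    intro z hz
    have hO := U_sub hz
    have h0 := hz.1
    have h1 : ‖E z‖ₑ ≤ ‖u z‖ₑ + ‖V z‖ₑ := enorm_add_le _ _
    have h2 : ENNReal.ofReal (z.im ^ (7 / 4 : ℝ)) * ‖V z‖ₑ ≤ ENNReal.ofReal (2 * C1) * Rs z := by
      have hC := h.C0
      rw [← ofReal_norm_eq_enorm, ← ENNReal.ofReal_mul (by positivity), ← ofReal_Rr hO,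
        ← ENNReal.ofReal_mul (by positivity)]
      apply ENNReal.ofReal_le_ofReal
      have h3 := Vd_norm hε h hO
      calc z.im ^ (7 / 4 : ℝ) * ‖V z‖ ≤ z.im ^ (7 / 4 : ℝ) *
            (2 * C1 * (z.im ^ (-7 / 4 : ℝ) * Rr z)) := by gcongr
        _ = (z.im ^ (7 / 4 : ℝ) * z.im ^ (-7 / 4 : ℝ)) * (2 * C1 * Rr z) := by ring
        _ = 2 * C1 * Rr z := by
            rw [← Real.rpow_add h0]; norm_num
    unfold Nf
    calc _ ≤ ENNReal.ofReal (z.im ^ (7 / 4 : ℝ)) * (‖u z‖ₑ + ‖V z‖ₑ) := by gcongr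
      _ = ENNReal.ofReal (z.im ^ (7 / 4 : ℝ)) * ‖u z‖ₑ +
          ENNReal.ofReal (z.im ^ (7 / 4 : ℝ)) * ‖V z‖ₑ := mul_add _ _ _
      _ ≤ _ := by gcongr
  have hmain : ∀ m : ℕ, ∀ z ∈ U, Nf E z ≤ (SS^[m] (Nf u)) z +
      ENNReal.ofReal (2 * C1) * (SS^[m] Rs) z := by
    intro m z hz
    refine (iter_SS_le hN m z hz).trans ((iter_SS_mono hbd m z hz).trans (le_of_eq ?_))
    rw [iter_SS_add, iter_SS_mul]
  have hNm : Measurable (Nf u) := by
    unfold Nf
    have h1 : Measurable (fun z : ℂ => z.im ^ (7 / 4 : ℝ)) :=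
      Complex.measurable_im.pow_const _
    exact (ENNReal.measurable_ofReal.comp h1).mul hum.enorm
  have hae := hM (Nf u) hNm hL
  have hz0 : ∀ᵐ z ∂((volume : Measure ℂ).restrict U), E z = 0 := by
    have hUm : MeasurableSet U := by
      have : U = {z : ℂ | 0 < z.im} ∩ {z : ℂ | ‖z‖ < 1} := rfl
      rw [this]
      exact (isOpen_lt continuous_const Complex.continuous_im).measurableSet.inter
        (isOpen_lt continuous_norm continuous_const).measurableSet
    filter_upwards [hae, ae_restrict_mem hUm] with z hz hzU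
    have hNz : Nf E z = 0 := by
      by_contra hne
      obtain ⟨δ, hδ0, hδ⟩ : ∃ δ : ℝ≥0∞, 0 < δ ∧ δ + δ ≤ Nf E z ∧ δ ≠ ∞ := by
        rcases eq_or_ne (Nf E z) ∞ with htop | htop
        · exact ⟨1, one_pos, by rw [htop]; exact le_top, ENNReal.one_ne_top⟩
        · refine ⟨Nf E z / 2, ENNReal.half_pos hne, le_of_eq (ENNReal.add_halves _), ?_⟩
          exact (ENNReal.div_lt_top htop (by norm_num)).ne
      have h1 : ∃ᶠ m in atTop, (SS^[m] (Nf u)) z < δ := by
        apply Filter.frequently_lt_of_liminf_lt (by isBoundedDefault)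
        rw [hz]; exact hδ0
      have h2 : Tendsto (fun m : ℕ => ENNReal.ofReal (2 * C1) * (SS^[m] Rs) z) atTop (𝓝 0) := by
        have := ENNReal.Tendsto.const_mul (a := ENNReal.ofReal (2 * C1))
          (SS_iter_Rs_tendsto (U_sub hzU)) (Or.inr ENNReal.ofReal_ne_top)
        simpa using this
      have h3 : ∀ᶠ m in atTop, ENNReal.ofReal (2 * C1) * (SS^[m] Rs) z < δ :=
        h2.eventually (gt_mem_nhds hδ0)
      obtain ⟨m, hm1, hm2⟩ := (h1.and_eventually h3).exists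
      have h4 := hmain m z hzU
      have h5 : Nf E z < δ + δ := lt_of_le_of_lt h4 (ENNReal.add_lt_add hm1 hm2)
      exact absurd hδ.1 (not_le.2 h5)
    unfold Nf at hNz
    rcases mul_eq_zero.1 hNz with h1 | h1
    · exfalso
      rw [ENNReal.ofReal_eq_zero] at h1
      have := hzU.1
      have h2 : 0 < z.im ^ (7 / 4 : ℝ) := by positivity
      linarith
    · simpa using h1
  have hEc : ContinuousOn E Om0 := huc.add (Vd_contOn hε h)
  have hUo : IsOpen U := (isOpen_lt continuous_const Complex.continuous_im).inter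
    (isOpen_lt continuous_norm continuous_const)
  have hEU : ∀ z ∈ U, E z = 0 := by
    have h1 : Set.EqOn E (fun _ => 0) U :=
      MeasureTheory.Measure.eqOn_open_of_ae_eq hz0 hUo (hEc.mono fun z hz => U_sub hz)
        continuousOn_const
    exact h1
  intro z hz
  have h1 : E z = 0 := by
    rw [hrec z hz]
    have : ∀ k : Zs, dk ε k z * E (sk k z) = 0 := fun k => by
      rw [hEU _ (sk_mem k.2 hz), mul_zero]
    simp [this]
  have h2 : u z + V z = 0 := h1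
  linear_combination h2

end Pool.Agent.W759
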