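import Pool.Agent.W759.Q
set_option autoImplicit false

/-! Reduction of the general statement to eigenfunctions. -/

namespace Pool.Agent.W759

open Complex MeasureTheory Filter Topology
open scoped ENNReal FourierTransform

lemma integrable_of_weight {g : ℝ → ℂ} (hg : Continuous g)
    (h : Integrable (fun x : ℝ => ‖g x‖ ^ 2 * (1 + x ^ 2))) : Integrable g := by
  have h1 : Integrable (fun x : ℝ => (‖g x‖ ^ 2 * (1 + x ^ 2) + (1 + x ^ 2)⁻¹) / 2) :=
    (h.add integrable_inv_one_add_sq).div_const 2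
  refine h1.mono' hg.aestronglyMeasurable (Filter.Eventually.of_forall fun x => ?_)
  have hw : 0 < 1 + x ^ 2 := by positivity
  have h2 : 0 ≤ (‖g x‖ * (1 + x ^ 2) - 1) ^ 2 / (1 + x ^ 2) := by positivity
  have h3 : (‖g x‖ * (1 + x ^ 2) - 1) ^ 2 / (1 + x ^ 2) =
      ‖g x‖ ^ 2 * (1 + x ^ 2) + (1 + x ^ 2)⁻¹ - 2 * ‖g x‖ := by
    field_simp
    ring
  linarith

lemma fourier_cont {g : ℝ → ℂ} (hg : Integrable g) : Continuous (𝓕 g) :=
  VectorFourier.fourierIntegral_continuous Real.continuous_fourierChar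
    (by exact continuous_inner) hg

lemma fourier_even {g : ℝ → ℂ} (he : ∀ x, g (-x) = g x) (ξ : ℝ) : 𝓕 g (-ξ) = 𝓕 g ξ := by
  rw [Real.fourier_real_eq, Real.fourier_real_eq]
  rw [← integral_neg_eq_self]
  congr 1
  funext x
  rw [he]
  congr 2
  ring

theorem main_of (hM : StMeas) (hU : StUniq) (hF : StFin) (h1 : StPhi1) (h2 : StPhi2)
    (h3 : StPhi3) (h4 : StPhi4) (f : ℝ → ℂ) (hc : Continuous f) (he : ∀ x, f (-x) = f x)
    (hw : Integrable (fun x : ℝ => (‖f x‖ ^ 2 + ‖𝓕 f x‖ ^ 2) * (1 + x ^ 2)))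
    (hz : ∀ n : ℕ, f (Real.sqrt n) = 0) (hz' : ∀ n : ℕ, 𝓕 f (Real.sqrt n) = 0) :
    ∀ x, f x = 0 := by
  have hwf : Integrable (fun x : ℝ => ‖f x‖ ^ 2 * (1 + x ^ 2)) := by
    refine hw.mono' (by fun_prop) (Filter.Eventually.of_forall fun x => ?_)
    rw [Real.norm_eq_abs, abs_of_nonneg (by positivity)]
    have : 0 ≤ ‖𝓕 f x‖ ^ 2 * (1 + x ^ 2) := by positivity
    linarith
  have hfi := integrable_of_weight hc hwf
  have hFc : Continuous (𝓕 f) := fourier_cont hfi
  have hwF : Integrable (fun x : ℝ => ‖𝓕 f x‖ ^ 2 * (1 + x ^ 2)) := by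
    refine hw.mono' (by fun_prop) (Filter.Eventually.of_forall fun x => ?_)
    rw [Real.norm_eq_abs, abs_of_nonneg (by positivity)]
    have : 0 ≤ ‖f x‖ ^ 2 * (1 + x ^ 2) := by positivity
    linarith
  have hFi := integrable_of_weight hFc hwF
  have hFe : ∀ x, 𝓕 f (-x) = 𝓕 f x := fourier_even he
  have hFF : ∀ x, 𝓕 (𝓕 f) x = f x := by
    intro x
    have e1 : 𝓕⁻ (𝓕 f) x = f x := hfi.fourierInv_fourier_eq hFi hc.continuousAt
    rw [Real.fourierInv_eq_fourier_neg] at e1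
    rw [← e1]
    exact (fourier_even hFe x).symm
  have key : ∀ ε : ℂ, (ε = 1 ∨ ε = -1) → ∀ x, f x + ε * 𝓕 f x = 0 := by
    intro ε hε
    have hεε : ε * ε = 1 := by rcases hε with h | h <;> simp [h]
    have hεn : ‖ε‖ = 1 := by rcases hε with h | h <;> simp [h]
    have hF' : 𝓕 (fun x => f x + ε * 𝓕 f x) = fun x => ε * (f x + ε * 𝓕 f x) := by
      have e1 : (fun x => f x + ε * 𝓕 f x) = f + ε • 𝓕 f := by
        funext x; simp
      funext ξ
      rw [e1]
      have e2 : 𝓕 (f + ε • 𝓕 f) ξ = 𝓕 f ξ + ε * 𝓕 (𝓕 f) ξ := by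
        rw [Real.fourier_real_eq, Real.fourier_real_eq, Real.fourier_real_eq,
          ← integral_const_mul, ← integral_add]
        · congr 1
          funext x
          simp only [Pi.add_apply, Pi.smul_apply, smul_eq_mul, Circle.smul_def]
          ring
        · have := (Real.fourierIntegral_convergent_iff (V := ℝ) (f := f) ξ).2 hfi
          simpa [mul_comm] using this
        · have := ((Real.fourierIntegral_convergent_iff (V := ℝ) (f := 𝓕 f) ξ).2 hFi).const_mul ε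
          simpa [mul_comm] using this
      rw [e2, hFF]
      linear_combination (-(𝓕 f ξ)) * hεε
    refine eig_zero hM hU hF h1 h2 h3 h4 (ε := ε) (f := fun x => f x + ε * 𝓕 f x)
      ⟨hε, by fun_prop, fun x => by simp only [he, hFe], ?_, fun x => by rw [hF'], fun n => ?_⟩
    · refine (hw.const_mul 2).mono' (by fun_prop) (Filter.Eventually.of_forall fun x => ?_)
      rw [Real.norm_eq_abs, abs_of_nonneg (by positivity)]
      have e1 : ‖f x + ε * 𝓕 f x‖ ≤ ‖f x‖ + ‖𝓕 f x‖ := by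
        refine (norm_add_le _ _).trans ?_
        rw [norm_mul, hεn, one_mul]
      have e2 : ‖f x + ε * 𝓕 f x‖ ^ 2 ≤ 2 * (‖f x‖ ^ 2 + ‖𝓕 f x‖ ^ 2) := by
        have := norm_nonneg (f x + ε * 𝓕 f x)
        nlinarith [sq_nonneg (‖f x‖ - ‖𝓕 f x‖)]
      have hwt : 0 < 1 + x ^ 2 := by positivity
      nlinarith
    · simp only [hz n, hz' n]
      simp
  intro x
  have k1 := key 1 (Or.inl rfl) x
  have k2 := key (-1) (Or.inr rfl) x
  linear_combination (k1 + k2) / 2

end Pool.Agent.W759
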