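import Pool.Agent.W759.D
set_option autoImplicit false

/-! Second batch of statements: facts on the function `φ`. -/

namespace Pool.Agent.W759

open Complex MeasureTheory Filter Topology
open scoped ENNReal FourierTransform

/-- an eigenfunction of the Fourier transform in the space, vanishing at the square roots -/
structure FDat (ε : ℂ) (f : ℝ → ℂ) : Prop where
  hε : ε = 1 ∨ ε = -1
  cont : Continuous f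
  even : ∀ x, f (-x) = f x
  int2 : Integrable (fun x : ℝ => ‖f x‖ ^ 2 * (1 + x ^ 2))
  four : ∀ x : ℝ, 𝓕 f x = ε * f x
  zero : ∀ n : ℕ, f (Real.sqrt n) = 0

/-- the theta transform of `f` -/
noncomputable def Phi (f : ℝ → ℂ) (z : ℂ) : ℂ := ∫ x : ℝ, f x * exp (I * Real.pi * z * x ^ 2)

/-- the density on the half line -/
noncomputable def gf (f : ℝ → ℂ) (t : ℝ) : ℂ := I * Real.pi * (Real.sqrt t : ℂ) * f (Real.sqrt t)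

/-- PHI1 -/
def StPhi1 : Prop := ∀ (ε : ℂ) (f : ℝ → ℂ), FDat ε f → ∃ C : ℝ, 0 ≤ C ∧
  (∀ x, ‖f x‖ ≤ C) ∧
  (∀ z : ℂ, 0 < z.im → DifferentiableAt ℂ (Phi f) z) ∧
  (∀ z : ℂ, 0 < z.im → ‖Phi f z‖ ≤ C) ∧
  (∀ z : ℂ, 0 < z.im → Phi f (-z⁻¹) = ε * J z * Phi f z) ∧
  (∀ δ > 0, ∃ r > 0, ∀ z : ℂ, 0 < z.im → ‖z‖ ≤ r → ‖Phi f z‖ ≤ δ) ∧
  (∀ z : ℂ, 0 < z.im →
    deriv (Phi f) z = ∫ t in Set.Ioi (0 : ℝ), gf f t * exp (I * Real.pi * z * t))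

/-- PHI2 -/
def StPhi2 : Prop := ∀ (ε : ℂ) (f : ℝ → ℂ), FDat ε f →
  (∀ z : ℂ, 0 < z.im →
    deriv (Phi f) z = ∫ t in Set.Ioi (0 : ℝ), gf f t * exp (I * Real.pi * z * t)) →
  ∫⁻ z in HP, ENNReal.ofReal (z.im ^ (-1 / 2 : ℝ)) * ‖deriv (Phi f) z‖ₑ ^ 2 < ∞

/-- PHI3 -/
def StPhi3 : Prop := ∀ (ε : ℂ) (_ : ε = 1 ∨ ε = -1) (φ : ℂ → ℂ) (C : ℝ),
  (∀ z : ℂ, 0 < z.im → DifferentiableAt ℂ φ z) →
  (∀ z : ℂ, 0 < z.im → ‖φ z‖ ≤ C) →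
  (∀ z : ℂ, 0 < z.im → φ (-z⁻¹) = ε * J z * φ z) →
  (∫⁻ z in HP, ENNReal.ofReal (z.im ^ (-1 / 2 : ℝ)) * ‖deriv φ z‖ₑ ^ 2 < ∞) →
  (∀ z : ℂ, 0 < z.im → Summable (fun k : ℤ => deriv φ (z + 2 * k))) ∧
  (∀ y1 y2 : ℝ, 0 < y1 → y1 < y2 → IntegrableOn (deriv φ) (Set.univ ×ℂ Set.Icc y1 y2))

/-- PHI4 -/
def StPhi4 : Prop := ∀ (ε : ℂ) (f : ℝ → ℂ), FDat ε f →
  (∀ z : ℂ, 0 < z.im →
    deriv (Phi f) z = ∫ t in Set.Ioi (0 : ℝ), gf f t * exp (I * Real.pi * z * t)) →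
  ∀ z : ℂ, 0 < z.im → Summable (fun k : ℤ => deriv (Phi f) (z + 2 * k)) →
    ∑' k : ℤ, deriv (Phi f) (z + 2 * k) = 0

end Pool.Agent.W759
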