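import Pool.Agent.W759.W
import Pool.Agent.W759.Stmts2
set_option autoImplicit false

/-! The glued function `q` and the conclusion for eigenfunctions. -/

namespace Pool.Agent.W759

open Complex MeasureTheory Filter Topology
open scoped ENNReal FourierTransform

variable {ε : ℂ} {φ : ℂ → ℂ} {C : ℝ}

/-- the glued function -/
noncomputable def qq (ε : ℂ) (φ : ℂ → ℂ) (z : ℂ) : ℂ :=
  if ‖z‖ < 1 then v ε φ z else -(ww φ z + vs ε φ z)

lemma Om1_isOpen : IsOpen Om1 := by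
  have e : Om1 = Om0 ∩ ({z : ℂ | 0 < z.im} ∩ (fun z : ℂ => -z⁻¹) ⁻¹' Om0) := by
    ext z
    constructor
    · rintro ⟨h1, h2⟩
      exact ⟨h1, h1.1, h2⟩
    · rintro ⟨h1, _, h2⟩
      exact ⟨h1, h2⟩
  rw [e]
  apply Om0_isOpen.inter
  have hc : ContinuousOn (fun z : ℂ => -z⁻¹) {z : ℂ | 0 < z.im} :=
    (continuousOn_id.inv₀ fun z hz => ne_zero_of_im hz).neg
  exact hc.isOpen_inter_preimage HP_isOpen Om0_isOpen

lemma circle_mem0 {z : ℂ} (hz : 0 < z.im) (h1 : ‖z‖ = 1) : z ∈ Om0 := by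
  refine ⟨hz, fun k hk => ?_⟩
  have hre : |z.re| < 1 := by
    have h2 : z.re ^ 2 + z.im ^ 2 = 1 := by
      have := Complex.sq_norm z
      rw [h1, Complex.normSq_apply] at this
      nlinarith
    rw [abs_lt]
    constructor <;> nlinarith
  have h3 : ‖z + 2 * k‖ ^ 2 = 1 + 4 * (k * (k + z.re)) := by
    rw [Complex.sq_norm, Complex.normSq_apply, shift_re, shift_im]
    have := Complex.sq_norm z
    rw [h1, Complex.normSq_apply] at this
    nlinarith
  have h4 : 0 < (k : ℝ) * (k + z.re) := by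
    rw [abs_lt] at hre
    rcases lt_or_gt_of_ne hk with h | h
    · have : (k : ℝ) ≤ -1 := by exact_mod_cast Int.le_sub_one_of_lt h
      apply mul_pos_of_neg_of_neg <;> linarith
    · have : (1 : ℝ) ≤ k := by exact_mod_cast h
      apply mul_pos <;> linarith
  by_contra h
  push Not at h
  have := norm_nonneg (z + 2 * k)
  nlinarith

lemma circle_mem {z : ℂ} (hz : 0 < z.im) (h1 : ‖z‖ = 1) : z ∈ Om1 := by
  refine ⟨circle_mem0 hz h1, circle_mem0 (inv_im_pos hz) ?_⟩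
  rw [norm_neg, norm_inv, h1, inv_one]

lemma qq_eq_v (hM : StMeas) (hU : StUniq) (h : PhiDat ε φ C) {z : ℂ} (hz : z ∈ Om1) :
    qq ε φ z = v ε φ z := by
  unfold qq
  split_ifs with h1
  · rfl
  · have := WW_zero hM hU h z hz
    unfold WW at this
    linear_combination -this

lemma qq_hasFDerivAt (hM : StMeas) (hU : StUniq) (h : PhiDat ε φ C) {z : ℂ} (hz : 0 < z.im) :
    ∃ T : ℂ →L[ℝ] ℂ, HasFDerivAt (qq ε φ) T z ∧ db T = -uu φ z := by
  rcases lt_trichotomy ‖z‖ 1 with h1 | h1 | h1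
  · obtain ⟨h2, h3⟩ := v_db hM h (U_sub ⟨hz, h1⟩)
    refine ⟨_, h2.hasFDerivAt.congr_of_eventuallyEq ?_, h3⟩
    have : ∀ᶠ w in 𝓝 z, ‖w‖ < 1 := (continuous_norm.tendsto z).eventually (gt_mem_nhds h1)
    filter_upwards [this] with w hw
    unfold qq
    rw [if_pos hw]
    rfl
  · have hO := circle_mem hz h1
    obtain ⟨h2, h3⟩ := v_db hM h hO.1
    refine ⟨_, h2.hasFDerivAt.congr_of_eventuallyEq ?_, h3⟩
    filter_upwards [Om1_isOpen.mem_nhds hO] with w hw
    rw [qq_eq_v hM hU h hw]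
    rfl
  · have hU' : -z⁻¹ ∈ U := by
      refine ⟨inv_im_pos hz, ?_⟩
      rw [norm_neg, norm_inv]
      exact inv_lt_one_of_one_lt₀ h1
    obtain ⟨T, hT, hT2⟩ := vs_hasFDerivAt hM h hz (U_sub hU')
    have h3 := ww_hasFDerivAt hz (h.hol z hz)
    refine ⟨-(wD φ z + T), (h3.add hT).neg.congr_of_eventuallyEq ?_, ?_⟩
    · have : ∀ᶠ w in 𝓝 z, 1 < ‖w‖ := (continuous_norm.tendsto z).eventually (lt_mem_nhds h1)
      filter_upwards [this] with w hw
      unfold qq
      rw [if_neg (not_lt.2 hw.le)]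
      rfl
    · have e : db (-(wD φ z + T)) = -(db (wD φ z) + db T) := by
        rw [← db_add]
        unfold db
        simp only [neg_apply]
        ring
      rw [e, hT2, slash_id h hz]
      ring

lemma FDat_phi (h1 : StPhi1) (h2 : StPhi2) (h3 : StPhi3) (h4 : StPhi4) {f : ℝ → ℂ}
    (hf : FDat ε f) : ∃ C, PhiDat ε (Phi f) C ∧ (∀ x, ‖f x‖ ≤ C) ∧
      (∀ z : ℂ, 0 < z.im →
        deriv (Phi f) z = ∫ t in Set.Ioi (0 : ℝ), gf f t * exp (I * Real.pi * z * t)) ∧
      (∀ y1 y2 : ℝ, 0 < y1 → y1 < y2 → IntegrableOn (deriv (Phi f)) (Set.univ ×ℂ Set.Icc y1 y2)) := by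
  obtain ⟨C, hC, hb, hhol, hb0, hinv, hlim, hder⟩ := h1 ε f hf
  have hL := h2 ε f hf hder
  obtain ⟨hs, hi⟩ := h3 ε hf.hε (Phi f) C hhol hb0 hinv hL
  refine ⟨C, ⟨hf.hε, hC, hhol, hb0, hinv, hlim, hL, hs, ?_⟩, hb, hder, hi⟩
  intro z hz
  exact h4 ε f hf hder z hz (hs z hz)

/-- the theorem for eigenfunctions -/
theorem eig_zero (hM : StMeas) (hU : StUniq) (hF : StFin) (h1 : StPhi1) (h2 : StPhi2)
    (h3 : StPhi3) (h4 : StPhi4) {f : ℝ → ℂ} (hf : FDat ε f) : ∀ x, f x = 0 := by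
  obtain ⟨C, hφ, hb, hder, hi⟩ := FDat_phi h1 h2 h3 h4 hf
  have hC := hφ.C0
  have hC1 := C1_nonneg hφ
  have hc := cs_pos
  have hgc : Continuous (gf f) := by
    unfold gf
    have := hf.cont
    fun_prop
  have hgb : ∀ t, ‖gf f t‖ ≤ Real.pi * C * (1 + |t|) := by
    intro t
    unfold gf
    rw [norm_mul, norm_mul, norm_mul, Complex.norm_I, one_mul, Complex.norm_real,
      Complex.norm_real, Real.norm_eq_abs, Real.norm_eq_abs, abs_of_pos Real.pi_pos,
      abs_of_nonneg (Real.sqrt_nonneg t)]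
    have h5 : Real.sqrt t ≤ 1 + |t| := by
      have h6 : Real.sqrt t ≤ Real.sqrt |t| := Real.sqrt_le_sqrt (le_abs_self t)
      have h7 : Real.sqrt |t| ≤ 1 + |t| := by
        rw [Real.sqrt_le_left (by positivity)]
        nlinarith [abs_nonneg t]
      linarith
    have h8 := hb (Real.sqrt t)
    have := Real.pi_pos
    calc Real.pi * Real.sqrt t * ‖f (Real.sqrt t)‖ ≤ Real.pi * (1 + |t|) * C := by gcongr
      _ = _ := by ring
  have key : ∀ s > 0, gf f s = 0 := by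
    refine hF (gf f) hgc _ hgb (deriv (Phi f)) (qq ε (Phi f)) hder hi (fun z hz => ?_)
      (C + C1 C * cs⁻¹) (fun z hz hz1 => ?_) (fun z hz hz1 => ?_)
    · obtain ⟨T, hT, hT2⟩ := qq_hasFDerivAt hM hU hφ hz
      refine ⟨T, hT, ?_⟩
      have h5 : T 1 + I * T I = -uu (Phi f) z := hT2
      rw [h5]
      unfold uu
      ring
    · unfold qq
      rw [if_pos hz1]
      refine (v_normU hφ ⟨hz, hz1⟩).trans ?_
      have hA := An_mem hz
      have : 0 ≤ Real.pi - An z := by linarith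
      gcongr
      linarith
    · unfold qq
      rw [if_neg (not_lt.2 hz1.le), norm_neg]
      have hA := An_mem hz
      have b1 := ww_norm hφ hz
      have b2 := vs_norm hφ hz hz1
      have hA0 := hA.1
      have p1 : 0 ≤ z.im ^ (1 / 2 : ℝ) * ‖z‖ ^ (-3 / 2 : ℝ) := by positivity
      have p2 : 0 ≤ z.im ^ (-1 / 2 : ℝ) * ‖z‖ ^ (-1 / 2 : ℝ) * An z := by positivity
      have p3 : 0 ≤ C1 C * cs⁻¹ := by positivity
      refine (norm_add_le _ _).trans ?_
      nlinarith [mul_nonneg hC p2, mul_nonneg p3 p1]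
  have hpos : ∀ x > 0, f x = 0 := by
    intro x hx
    have h5 := key (x ^ 2) (by positivity)
    unfold gf at h5
    rw [Real.sqrt_sq hx.le] at h5
    have h6 : (I * Real.pi * (x : ℂ)) ≠ 0 := by
      apply mul_ne_zero (mul_ne_zero Complex.I_ne_zero _) _
      · exact_mod_cast Real.pi_pos.ne'
      · exact_mod_cast hx.ne'
    rcases mul_eq_zero.1 h5 with h | h
    · exact absurd h h6
    · exact h
  intro x
  rcases lt_trichotomy x 0 with hx | hx | hx
  · rw [← hf.even]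
    exact hpos (-x) (by linarith)
  · subst hx
    have := hf.zero 0
    simpa using this
  · exact hpos x hx

end Pool.Agent.W759
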