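import Pool.Agent.W759.Ang
set_option autoImplicit false

/-! The supersolution and sums over words. -/

namespace Pool.Agent.W759

open Complex MeasureTheory Filter Topology
open scoped ENNReal

lemma shift_im (z : ℂ) (k : ℤ) : (z + 2 * k).im = z.im := by simp

lemma shift_re (z : ℂ) (k : ℤ) : (z + 2 * k).re = z.re + 2 * k := by simp

lemma ne_zero_of_im {z : ℂ} (hz : 0 < z.im) : z ≠ 0 := fun h => by rw [h] at hz; simp at hz

lemma inv_im' (z : ℂ) : (-z⁻¹).im = z.im / ‖z‖ ^ 2 := by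
  rw [Complex.neg_im, Complex.inv_im, neg_div, neg_neg, Complex.normSq_eq_norm_sq]

lemma sk_im (k : ℤ) (z : ℂ) : (sk k z).im = z.im / ‖z + 2 * k‖ ^ 2 := by
  unfold sk
  rw [inv_im', shift_im]

lemma sk_im_pos (k : ℤ) {z : ℂ} (hz : 0 < z.im) : 0 < (sk k z).im := by
  rw [sk_im]
  have h : z + 2 * k ≠ 0 := ne_zero_of_im (by rw [shift_im]; exact hz)
  have := norm_pos_iff.2 h
  positivity

lemma sk_norm (k : ℤ) (z : ℂ) : ‖sk k z‖ = ‖z + 2 * k‖⁻¹ := by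
  unfold sk
  rw [norm_neg, norm_inv]

lemma sk_mem {k : ℤ} (hk : k ≠ 0) {z : ℂ} (hz : z ∈ Om0) : sk k z ∈ U := by
  refine ⟨sk_im_pos k hz.1, ?_⟩
  rw [sk_norm]
  exact inv_lt_one_of_one_lt₀ (hz.2 k hk)

lemma U_sub {z : ℂ} (hz : z ∈ U) : z ∈ Om0 := by
  refine ⟨hz.1, fun k hk => ?_⟩
  have h1 : (2 : ℝ) ≤ ‖(2 * k : ℂ)‖ := by
    rw [norm_mul]
    have h2 : (1 : ℝ) ≤ |(k : ℝ)| := by
      have := Int.one_le_abs hk
      exact_mod_cast this
    simp only [Complex.norm_ofNat, Complex.norm_intCast]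
    linarith
  have h3 : ‖(2 * k : ℂ)‖ ≤ ‖z + 2 * k‖ + ‖z‖ := by
    have := norm_sub_le (z + 2 * k) z
    simpa using this
  have := hz.2
  linarith

lemma An_sk {k : ℤ} {z : ℂ} (hz : 0 < z.im) : Real.pi - An (sk k z) = An (z + 2 * k) := by
  unfold sk
  rw [An_inv (by rw [shift_im]; exact hz)]
  ring

lemma hasSum_Zs {f : ℤ → ℝ} {a : ℝ} (h : HasSum f a) :
    HasSum (fun k : Zs => f k) (a - f 0) := by
  have h1 : HasSum (fun k : ℤ => f k - if k = 0 then f 0 else 0) (a - f 0) :=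
    h.sub (hasSum_ite_eq 0 (f 0))
  have h2 : (fun k : ℤ => f k - if k = 0 then f 0 else 0) =
      Set.indicator {k : ℤ | k ≠ 0} f := by
    funext k
    by_cases hk : k = 0
    · subst hk; simp
    · simp [hk]
  rw [h2] at h1
  exact hasSum_subtype_iff_indicator.2 h1

lemma An_hasSum_Zs {z : ℂ} (hz : 0 < z.im) :
    HasSum (fun k : Zs => An (z + 2 * k)) (Real.pi - An z) := by
  have := hasSum_Zs (An_hasSum hz)
  simpa using this

/-- the comparison function -/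
noncomputable def Gs (z : ℂ) : ℝ≥0∞ := ENNReal.ofReal (z.im ^ (1 / 4 : ℝ) * (Real.pi - An z))

/-- the basic function `Y^{5/4}` -/
noncomputable def Fs (z : ℂ) : ℝ≥0∞ := ENNReal.ofReal (z.im ^ (5 / 4 : ℝ))

noncomputable def cs : ℝ := (1 - 2 ^ (-1 / 2 : ℝ)) / 5

lemma cs_pos : 0 < cs := by
  unfold cs
  have : (2 : ℝ) ^ (-1 / 2 : ℝ) < 1 := Real.rpow_lt_one_of_one_lt_of_neg (by norm_num) (by norm_num)
  linarith

lemma Gs_sk {k : ℤ} {z : ℂ} (hz : 0 < z.im) : (sk k z).im ^ (1 / 4 : ℝ) * (Real.pi - An (sk k z)) =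
    z.im ^ (1 / 4 : ℝ) * (‖z + 2 * k‖ ^ (-1 / 2 : ℝ) * An (z + 2 * k)) := by
  rw [An_sk hz, sk_im]
  have h : z + 2 * k ≠ 0 := ne_zero_of_im (by rw [shift_im]; exact hz)
  have hn := norm_pos_iff.2 h
  rw [Real.div_rpow hz.le (by positivity), ← Real.rpow_natCast ‖z + 2 * k‖ 2, ← Real.rpow_mul hn.le]
  have e : (-1 / 2 : ℝ) = -(((2 : ℕ) : ℝ) * (1 / 4)) := by norm_num
  rw [e, Real.rpow_neg hn.le]
  field_simp

lemma tsum_ofReal_le {f g : Zs → ℝ} {a : ℝ} (hf : ∀ k, 0 ≤ f k) (hfg : ∀ k, f k ≤ g k)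
    (hg : HasSum g a) : ∑' k, ENNReal.ofReal (f k) ≤ ENNReal.ofReal a := by
  have hs : Summable f := Summable.of_nonneg_of_le hf hfg hg.summable
  rw [← ENNReal.ofReal_tsum_of_nonneg hf hs]
  apply ENNReal.ofReal_le_ofReal
  rw [← hg.tsum_eq]
  exact hs.tsum_le_tsum hfg hg.summable

/-- subinvariance on `Om0` -/
lemma SS_Gs_le {z : ℂ} (hz : z ∈ Om0) : SS Gs z ≤ Gs z := by
  unfold SS Gs
  have h0 := hz.1
  simp only [Gs_sk h0]
  refine tsum_ofReal_le (g := fun k : Zs => z.im ^ (1 / 4 : ℝ) * An (z + 2 * k)) ?_ ?_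
    ((An_hasSum_Zs h0).mul_left _)
  · intro k
    have := (An_mem (z := z + 2 * k) (by rw [shift_im]; exact h0)).1
    positivity
  · intro k
    have h1 := (An_mem (z := z + 2 * k) (by rw [shift_im]; exact h0)).1
    have h2 : ‖z + 2 * k‖ ^ (-1 / 2 : ℝ) ≤ 1 :=
      Real.rpow_le_one_of_one_le_of_nonpos (hz.2 k k.2).le (by norm_num)
    apply mul_le_mul_of_nonneg_left _ (by positivity)
    calc _ ≤ 1 * An (z + 2 * k) := mul_le_mul_of_nonneg_right h2 h1.le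
      _ = _ := one_mul _

lemma exists_k0 {z : ℂ} (hz : z ∈ U) : ∃ k : Zs, 2 ≤ ‖z + 2 * k‖ ∧ ‖z + 2 * k‖ ≤ 3 := by
  have key : ∀ k : ℤ, |(k : ℝ)| = 1 → ‖z + 2 * k‖ ≤ 3 := by
    intro k hk
    have h1 : ‖z + 2 * k‖ ≤ ‖z‖ + ‖(2 * k : ℂ)‖ := norm_add_le _ _
    rw [norm_mul] at h1
    simp only [Complex.norm_ofNat, Complex.norm_intCast] at h1
    rw [hk] at h1
    have := hz.2
    linarith
  rcases le_total 0 z.re with h | h
  · refine ⟨⟨1, one_ne_zero⟩, ?_, key 1 (by simp)⟩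
    have h1 := Complex.re_le_norm (z + 2 * ((1 : ℤ) : ℂ))
    rw [shift_re] at h1
    push_cast at h1 ⊢
    linarith
  · refine ⟨⟨-1, by norm_num⟩, ?_, key (-1) (by simp)⟩
    have h1 := Complex.re_le_norm (-(z + 2 * ((-1 : ℤ) : ℂ)))
    rw [Complex.neg_re, shift_re, norm_neg] at h1
    push_cast at h1 ⊢
    linarith

/-- strict subinvariance on `U` -/
lemma SS_Gs_lt {z : ℂ} (hz : z ∈ U) : ENNReal.ofReal cs * Fs z + SS Gs z ≤ Gs z := by
  have h0 := hz.1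
  have hO := U_sub hz
  obtain ⟨k0, hk2, hk3⟩ := exists_k0 hz
  set δ : ℝ := cs * z.im ^ (5 / 4 : ℝ) with hδ
  have hδ0 : 0 ≤ δ := by
    have := cs_pos
    positivity
  have hA : ∀ k : Zs, 0 < An (z + 2 * k) := fun k =>
    (An_mem (z := z + 2 * k) (by rw [shift_im]; exact h0)).1
  have hδA : δ ≤ z.im ^ (1 / 4 : ℝ) * ((1 - 2 ^ (-1 / 2 : ℝ)) * An (z + 2 * k0)) := by
    have h1 := An_ge (z := z + 2 * k0) (by rw [shift_im]; exact h0)
    rw [shift_im] at h1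
    have h2 : ‖(z + 2 * k0) ^ 2 - 1‖ ≤ 10 := by
      calc ‖(z + 2 * k0) ^ 2 - 1‖ ≤ ‖(z + 2 * k0) ^ 2‖ + ‖(1 : ℂ)‖ := norm_sub_le _ _
        _ = ‖z + 2 * k0‖ ^ 2 + 1 := by rw [norm_pow, norm_one]
        _ ≤ 3 ^ 2 + 1 := by gcongr
        _ = 10 := by norm_num
    have h3 : z.im / 5 ≤ An (z + 2 * k0) := by
      refine le_trans ?_ h1
      have h4 : 0 < ‖(z + 2 * (k0 : ℤ)) ^ 2 - 1‖ :=
        norm_pos_iff.2 (z2_ne (by rw [shift_im]; exact h0))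
      rw [div_le_div_iff₀ (by norm_num) h4]
      nlinarith
    have h5 : z.im ^ (5 / 4 : ℝ) = z.im ^ (1 / 4 : ℝ) * z.im := by
      rw [← Real.rpow_add_one h0.ne']
      norm_num
    rw [hδ, h5]
    unfold cs
    have h6 : (0 : ℝ) < 1 - 2 ^ (-1 / 2 : ℝ) := by
      have := cs_pos
      unfold cs at this
      linarith
    have h7 : 0 ≤ z.im ^ (1 / 4 : ℝ) := by positivity
    calc (1 - 2 ^ (-1 / 2 : ℝ)) / 5 * (z.im ^ (1 / 4 : ℝ) * z.im) =
        z.im ^ (1 / 4 : ℝ) * ((1 - 2 ^ (-1 / 2 : ℝ)) * (z.im / 5)) := by ring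
      _ ≤ _ := by gcongr
  have hsum : SS Gs z ≤ ENNReal.ofReal (z.im ^ (1 / 4 : ℝ) * (Real.pi - An z) - δ) := by
    unfold SS Gs
    simp only [Gs_sk h0]
    have hg : HasSum (fun k : Zs => z.im ^ (1 / 4 : ℝ) * An (z + 2 * k) - if k = k0 then δ else 0)
        (z.im ^ (1 / 4 : ℝ) * (Real.pi - An z) - δ) :=
      ((An_hasSum_Zs h0).mul_left _).sub (hasSum_ite_eq k0 δ)
    refine tsum_ofReal_le ?_ ?_ hg
    · intro k
      have := hA k
      positivity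
    · intro k
      have h1 := hA k
      by_cases hk : k = k0
      · subst hk
        rw [if_pos rfl]
        have h2 : ‖z + 2 * k‖ ^ (-1 / 2 : ℝ) ≤ 2 ^ (-1 / 2 : ℝ) :=
          Real.rpow_le_rpow_of_nonpos (by norm_num) hk2 (by norm_num)
        have h3 : z.im ^ (1 / 4 : ℝ) * (‖z + 2 * k‖ ^ (-1 / 2 : ℝ) * An (z + 2 * k)) ≤
            z.im ^ (1 / 4 : ℝ) * (2 ^ (-1 / 2 : ℝ) * An (z + 2 * k)) := by gcongr
        nlinarith
      · rw [if_neg hk, sub_zero]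
        have h2 : ‖z + 2 * k‖ ^ (-1 / 2 : ℝ) ≤ 1 :=
          Real.rpow_le_one_of_one_le_of_nonpos (hO.2 k k.2).le (by norm_num)
        apply mul_le_mul_of_nonneg_left _ (by positivity)
        calc _ ≤ 1 * An (z + 2 * k) := mul_le_mul_of_nonneg_right h2 h1.le
          _ = _ := one_mul _
  have hδG : δ ≤ z.im ^ (1 / 4 : ℝ) * (Real.pi - An z) := by
    have h1 : An (z + 2 * k0) ≤ Real.pi - An z :=
      le_hasSum (An_hasSum_Zs h0) k0 (fun k _ => (hA k).le)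
    refine hδA.trans ?_
    have h2 : (1 - 2 ^ (-1 / 2 : ℝ) : ℝ) ≤ 1 := by
      have : (0 : ℝ) < 2 ^ (-1 / 2 : ℝ) := by positivity
      linarith
    have h3 := hA k0
    calc _ ≤ z.im ^ (1 / 4 : ℝ) * (1 * An (z + 2 * k0)) := by gcongr
      _ ≤ _ := by rw [one_mul]; gcongr
  have e1 : ENNReal.ofReal cs * Fs z = ENNReal.ofReal δ := by
    unfold Fs
    rw [hδ, ENNReal.ofReal_mul cs_pos.le]
  rw [e1]
  calc ENNReal.ofReal δ + SS Gs z ≤ ENNReal.ofReal δ +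
        ENNReal.ofReal (z.im ^ (1 / 4 : ℝ) * (Real.pi - An z) - δ) := by gcongr
    _ = Gs z := by
      rw [← ENNReal.ofReal_add hδ0 (by linarith)]
      unfold Gs
      congr 1
      ring

end Pool.Agent.W759
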