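import Pool.Agent.W759.Fc
set_option autoImplicit false

/-! Terms of the word series and their derivatives. -/

namespace Pool.Agent.W759

open Complex MeasureTheory Filter Topology
open scoped ENNReal

/-- twice the `∂̄` derivative, from the real derivative -/
noncomputable def db (T : ℂ →L[ℝ] ℂ) : ℂ := T 1 + I * T I

/-- multiplication by `c` as a real linear map -/
noncomputable def mulR (c : ℂ) : ℂ →L[ℝ] ℂ :=
  ((ContinuousLinearMap.mul ℂ ℂ) c).restrictScalars ℝ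

@[simp] lemma mulR_apply (c h : ℂ) : mulR c h = c * h := rfl

lemma mulR_norm (c : ℂ) : ‖mulR c‖ ≤ ‖c‖ := by
  refine ContinuousLinearMap.opNorm_le_bound _ (norm_nonneg _) fun x => ?_
  rw [mulR_apply, norm_mul]

lemma hasFDerivAt_mulR {A : ℂ → ℂ} {a z : ℂ} (h : HasDerivAt A a z) :
    HasFDerivAt A (mulR a) z := by
  have h1 := h.hasFDerivAt.restrictScalars ℝ
  have e : mulR a = ContinuousLinearMap.restrictScalars ℝ
      (ContinuousLinearMap.toSpanSingleton ℂ a) := by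
    ext x
    simp
    ring
  rw [e]
  exact h1

lemma db_add (S T : ℂ →L[ℝ] ℂ) : db (S + T) = db S + db T := by
  unfold db
  simp only [add_apply]
  ring

lemma db_mulR (c : ℂ) : db (mulR c) = 0 := by
  unfold db
  rw [mulR_apply, mulR_apply, mul_one]
  linear_combination c * Complex.I_mul_I

lemma db_smul (c : ℂ) (T : ℂ →L[ℝ] ℂ) : db (c • T) = c * db T := by
  unfold db
  simp only [smul_apply, smul_eq_mul]
  ring

lemma db_norm (T : ℂ →L[ℝ] ℂ) : ‖db T‖ ≤ 2 * ‖T‖ := by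
  unfold db
  have h1 : ‖T 1‖ ≤ ‖T‖ := by simpa using T.le_opNorm 1
  have h2 : ‖T I‖ ≤ ‖T‖ := by simpa using T.le_opNorm I
  refine (norm_add_le _ _).trans ?_
  rw [norm_mul, Complex.norm_I, one_mul]
  linarith

lemma db_comp (T : ℂ →L[ℝ] ℂ) (c : ℂ) : db (T.comp (mulR c)) = (starRingEnd ℂ) c * db T := by
  unfold db
  simp only [ContinuousLinearMap.comp_apply, mulR_apply, mul_one]
  have h1 : ∀ x : ℂ, T x = (x.re : ℂ) * T 1 + (x.im : ℂ) * T I := by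
    intro x
    have e : x = x.re • (1 : ℂ) + x.im • I := by
      simp only [Complex.real_smul, mul_one]
      exact (Complex.re_add_im x).symm
    conv_lhs => rw [e]
    rw [map_add, map_smul, map_smul]
    simp only [Complex.real_smul]
  rw [h1 c, h1 (c * I)]
  have e2 : (starRingEnd ℂ) c = c.re - c.im * I := by
    apply Complex.ext <;> simp
  rw [e2]
  simp only [Complex.mul_re, Complex.mul_im, Complex.I_re, Complex.I_im, mul_zero, mul_one,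
    zero_sub, add_zero]
  push_cast
  linear_combination (c.im : ℂ) * T I * Complex.I_mul_I

lemma slash_hasFDerivAt {A g F : ℂ → ℂ} {a d z : ℂ} {T : ℂ →L[ℝ] ℂ} (hA : HasDerivAt A a z)
    (hg : HasDerivAt g d z) (hF : HasFDerivAt F T (g z)) :
    HasFDerivAt (fun ζ => A ζ * F (g ζ)) (A z • T.comp (mulR d) + F (g z) • mulR a) z := by
  have h1 := hasFDerivAt_mulR hA
  have h2 := hF.comp z (hasFDerivAt_mulR hg)
  exact h1.mul h2

lemma slash_db {A F : ℂ} {a d : ℂ} {T : ℂ →L[ℝ] ℂ} :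
    db (A • T.comp (mulR d) + F • mulR a) = A * (starRingEnd ℂ) d * db T := by
  rw [db_add, db_smul, db_smul, db_comp, db_mulR]
  ring

lemma slash_norm {A F : ℂ} {a d : ℂ} {T : ℂ →L[ℝ] ℂ} :
    ‖A • T.comp (mulR d) + F • mulR a‖ ≤ ‖A‖ * (‖T‖ * ‖d‖) + ‖F‖ * ‖a‖ := by
  refine (norm_add_le _ _).trans ?_
  rw [norm_smul, norm_smul]
  have h1 : ‖T.comp (mulR d)‖ ≤ ‖T‖ * ‖d‖ :=
    (ContinuousLinearMap.opNorm_comp_le _ _).trans (by gcongr; exact mulR_norm d)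
  have h2 := mulR_norm a
  gcongr

lemma orb_hasDerivAt (l : List Zs) {z : ℂ} (hz : 0 < z.im) :
    HasDerivAt (orb l) (deriv (orb l) z) z := by
  obtain ⟨d, hd, _⟩ := orb_diff l hz
  rw [hd.deriv]; exact hd

lemma orb_deriv_norm (l : List Zs) {z : ℂ} (hz : 0 < z.im) :
    ‖deriv (orb l) z‖ = (orb l z).im / z.im := by
  obtain ⟨d, hd, hn⟩ := orb_diff l hz
  rw [hd.deriv]; exact hn

lemma orb_deriv_cons (k : Zs) (l : List Zs) {z : ℂ} (hz : 0 < z.im) :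
    deriv (orb (k :: l)) z = deriv (orb l) (sk k z) * ((z + 2 * (k : ℤ)) ^ 2)⁻¹ :=
  ((orb_hasDerivAt l (sk_im_pos k hz)).comp z (sk_diff k hz)).deriv

lemma fac_hasDerivAt (ε : ℂ) (l : List Zs) {z : ℂ} (hz : 0 < z.im) :
    HasDerivAt (fac ε l) (deriv (fac ε l) z) z := by
  obtain ⟨a, ha, _⟩ := fac_diff (ε := ε) l hz
  rw [ha.deriv]; exact ha

lemma fac_deriv_norm {ε : ℂ} (hε : ‖ε‖ = 1) (l : List Zs) {z : ℂ} (hz : 0 < z.im) :
    ‖deriv (fac ε l) z‖ ≤ 3 / (2 * z.im) * ((orb l z).im / z.im) ^ (3 / 4 : ℝ) := by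
  obtain ⟨a, ha, hn⟩ := fac_diff (ε := ε) l hz
  rw [ha.deriv, norm_mul, fac_norm hε l hz]
  have h1 : ‖a‖ ≤ 3 / (2 * z.im) := by
    have e : a = (a - (3 / (4 * z.im) : ℝ) * I) + (3 / (4 * z.im) : ℝ) * I := by ring
    rw [e]
    refine (norm_add_le _ _).trans ?_
    have h2 : ‖((3 / (4 * z.im) : ℝ) : ℂ) * I‖ = 3 / (4 * z.im) := by
      rw [norm_mul, Complex.norm_I, mul_one, Complex.norm_real, Real.norm_eq_abs,
        abs_of_pos (by positivity)]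
    rw [h2]
    calc _ ≤ 3 / (4 * z.im) + 3 / (4 * z.im) := by gcongr
      _ = 3 / (2 * z.im) := by field_simp; norm_num
  have := orb_im_pos l hz
  gcongr

/-- the derivative of a term -/
noncomputable def tD (ε : ℂ) (F : ℂ → ℂ) (l : List Zs) (z : ℂ) : ℂ →L[ℝ] ℂ :=
  fac ε l z • (fderiv ℝ F (orb l z)).comp (mulR (deriv (orb l) z)) +
    F (orb l z) • mulR (deriv (fac ε l) z)

lemma tm_hasFDerivAt (ε : ℂ) {F : ℂ → ℂ} (l : List Zs) {z : ℂ} (hz : 0 < z.im)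
    (hF : DifferentiableAt ℝ F (orb l z)) :
    HasFDerivAt (fun ζ => fac ε l ζ * F (orb l ζ)) (tD ε F l z) z :=
  slash_hasFDerivAt (fac_hasDerivAt ε l hz) (orb_hasDerivAt l hz) hF.hasFDerivAt

lemma tD_db (ε : ℂ) (F : ℂ → ℂ) (l : List Zs) (z : ℂ) :
    db (tD ε F l z) = fac ε l z * (starRingEnd ℂ) (deriv (orb l) z) *
      db (fderiv ℝ F (orb l z)) := slash_db

lemma pow_id1 {o y : ℝ} (ho : 0 < o) (hy : 0 < y) :
    (o / y) ^ (3 / 4 : ℝ) * o ^ (1 / 2 : ℝ) = y ^ (-3 / 4 : ℝ) * o ^ (5 / 4 : ℝ) := by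
  rw [Real.div_rpow ho.le hy.le, div_mul_eq_mul_div, ← Real.rpow_add ho, div_eq_mul_inv,
    ← Real.rpow_neg hy.le, mul_comm]
  norm_num

lemma pow_id2 {o y : ℝ} (ho : 0 < o) (hy : 0 < y) :
    1 / y * ((o / y) ^ (3 / 4 : ℝ) * o ^ (1 / 2 : ℝ)) = y ^ (-7 / 4 : ℝ) * o ^ (5 / 4 : ℝ) := by
  rw [pow_id1 ho hy, ← mul_assoc]
  congr 1
  rw [one_div, ← Real.rpow_neg_one, ← Real.rpow_add hy]
  norm_num

lemma pow_id3 {o y : ℝ} (ho : 0 < o) (hy : 0 < y) :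
    (o / y) ^ (3 / 4 : ℝ) * (o ^ (-1 / 2 : ℝ) * (o / y)) =
      y ^ (-7 / 4 : ℝ) * o ^ (5 / 4 : ℝ) := by
  rw [← pow_id2 ho hy]
  have : o ^ (-1 / 2 : ℝ) * o = o ^ (1 / 2 : ℝ) := by
    rw [← Real.rpow_add_one ho.ne']; norm_num
  rw [← this]
  ring

lemma tm_norm {ε : ℂ} (hε : ‖ε‖ = 1) {F : ℂ → ℂ} (l : List Zs) {z : ℂ} (hz : 0 < z.im) {C : ℝ}
    (hF : ‖F (orb l z)‖ ≤ C * (orb l z).im ^ (1 / 2 : ℝ)) :
    ‖fac ε l z * F (orb l z)‖ ≤ C * (z.im ^ (-3 / 4 : ℝ) * (orb l z).im ^ (5 / 4 : ℝ)) := by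
  have ho := orb_im_pos l hz
  rw [norm_mul, fac_norm hε l hz, ← pow_id1 ho hz]
  calc _ ≤ ((orb l z).im / z.im) ^ (3 / 4 : ℝ) * (C * (orb l z).im ^ (1 / 2 : ℝ)) := by gcongr
    _ = _ := by ring

lemma tD_norm {ε : ℂ} (hε : ‖ε‖ = 1) {F : ℂ → ℂ} (l : List Zs) {z : ℂ} (hz : 0 < z.im) {C : ℝ}
    (hC : 0 ≤ C) (hF : ‖F (orb l z)‖ ≤ C * (orb l z).im ^ (1 / 2 : ℝ))
    (hF' : ‖fderiv ℝ F (orb l z)‖ ≤ C * (orb l z).im ^ (-1 / 2 : ℝ)) :
    ‖tD ε F l z‖ ≤ 3 * C * (z.im ^ (-7 / 4 : ℝ) * (orb l z).im ^ (5 / 4 : ℝ)) := by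
  have ho := orb_im_pos l hz
  refine slash_norm.trans ?_
  rw [fac_norm hε l hz, orb_deriv_norm l hz]
  have h1 := fac_deriv_norm hε l hz
  have e1 : ((orb l z).im / z.im) ^ (3 / 4 : ℝ) *
      ((C * (orb l z).im ^ (-1 / 2 : ℝ)) * ((orb l z).im / z.im)) =
      C * (z.im ^ (-7 / 4 : ℝ) * (orb l z).im ^ (5 / 4 : ℝ)) := by
    rw [← pow_id3 ho hz]; ring
  have e2 : C * (orb l z).im ^ (1 / 2 : ℝ) *
      (3 / (2 * z.im) * ((orb l z).im / z.im) ^ (3 / 4 : ℝ)) =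
      (3 / 2) * C * (z.im ^ (-7 / 4 : ℝ) * (orb l z).im ^ (5 / 4 : ℝ)) := by
    rw [← pow_id2 ho hz]; ring
  have h3 : 0 ≤ C * (z.im ^ (-7 / 4 : ℝ) * (orb l z).im ^ (5 / 4 : ℝ)) := by positivity
  calc _ ≤ ((orb l z).im / z.im) ^ (3 / 4 : ℝ) *
      ((C * (orb l z).im ^ (-1 / 2 : ℝ)) * ((orb l z).im / z.im)) +
      C * (orb l z).im ^ (1 / 2 : ℝ) *
      (3 / (2 * z.im) * ((orb l z).im / z.im) ^ (3 / 4 : ℝ)) := by gcongr
    _ ≤ _ := by rw [e1, e2]; nlinarith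

lemma norm_shift_ge {z : ℂ} {k : ℤ} : 2 * |(k : ℝ)| - ‖z‖ ≤ ‖z + 2 * k‖ := by
  have h3 : ‖(2 * k : ℂ)‖ ≤ ‖z + 2 * k‖ + ‖z‖ := by
    have := norm_sub_le (z + 2 * k) z
    simpa using this
  rw [norm_mul] at h3
  simp only [Complex.norm_ofNat, Complex.norm_intCast] at h3
  linarith

lemma Om0_isOpen : IsOpen Om0 := by
  rw [isOpen_iff_mem_nhds]
  intro z hz
  obtain ⟨N, hN⟩ := exists_nat_gt (‖z‖ + 3)
  have h1 : ∀ᶠ w in 𝓝 z, 0 < w.im :=
    (Complex.continuous_im.tendsto z).eventually (lt_mem_nhds hz.1)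
  have h2 : ∀ᶠ w in 𝓝 z, ‖w - z‖ < 1 := by
    have : Tendsto (fun w : ℂ => ‖w - z‖) (𝓝 z) (𝓝 0) := by
      have hc : Continuous (fun w : ℂ => ‖w - z‖) := by fun_prop
      have h := hc.tendsto z
      simpa using h
    exact this.eventually (gt_mem_nhds one_pos)
  have h3 : ∀ᶠ w : ℂ in 𝓝 z, ∀ k ∈ Finset.Icc (-(N : ℤ)) N, k ≠ 0 → 1 < ‖w + 2 * k‖ := by
    rw [Filter.eventually_all_finset]
    intro k _
    by_cases hk : k = 0
    · exact Filter.Eventually.of_forall fun w h => absurd hk h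
    · have hc : Continuous (fun w : ℂ => ‖w + 2 * k‖) := by fun_prop
      filter_upwards [(hc.tendsto z).eventually (lt_mem_nhds (hz.2 k hk))] with w hw _
      exact hw
  filter_upwards [h1, h2, h3] with w hw1 hw2 hw3
  refine ⟨hw1, fun k hk => ?_⟩
  by_cases hkN : k ∈ Finset.Icc (-(N : ℤ)) N
  · exact hw3 k hkN hk
  · have h4 : (N : ℝ) < |(k : ℝ)| := by
      rw [Finset.mem_Icc, not_and_or] at hkN
      have : (N : ℤ) < |k| := by
        rcases hkN with h | h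
        · exact lt_of_lt_of_le (by omega) (neg_le_abs k)
        · exact lt_of_lt_of_le (by omega) (le_abs_self k)
      exact_mod_cast this
    have h5 := norm_shift_ge (z := w) (k := k)
    have h6 : ‖w‖ ≤ ‖z‖ + 1 := by
      have := norm_add_le (w - z) z
      rw [sub_add_cancel] at this
      linarith
    linarith [norm_nonneg z]

end Pool.Agent.W759
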