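import Pool.Agent.W759.Tm
set_option autoImplicit false

/-! The word series `v`, its derivative and the recursion. -/

namespace Pool.Agent.W759

open Complex MeasureTheory Filter Topology
open scoped ENNReal

/-- hypotheses on the seed function -/
structure W1Dat (w1 : ℂ → ℂ) (C1 : ℝ) : Prop where
  C0 : 0 ≤ C1
  b : ∀ z ∈ Om0, ‖w1 z‖ ≤ C1 * z.im ^ (1 / 2 : ℝ)
  d : ∀ z ∈ Om0, DifferentiableAt ℝ w1 z
  bd : ∀ z ∈ Om0, ‖fderiv ℝ w1 z‖ ≤ C1 * z.im ^ (-1 / 2 : ℝ)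
  kc : ContinuousOn (fun z => db (fderiv ℝ w1 z)) Om0

/-- the series `v` -/
noncomputable def vv (ε : ℂ) (w1 : ℂ → ℂ) (z : ℂ) : ℂ := ∑' l : List Zs, fac ε l z * w1 (orb l z)

/-- density slash by a word -/
noncomputable def dl (ε : ℂ) (κ : ℂ → ℂ) (l : List Zs) (z : ℂ) : ℂ :=
  fac ε l z * (starRingEnd ℂ) (deriv (orb l) z) * κ (orb l z)

/-- one step density slash -/
noncomputable def dk (ε : ℂ) (k : ℤ) (z : ℂ) : ℂ :=
  ε * jf (z + 2 * k) * (starRingEnd ℂ) (((z + 2 * k) ^ 2)⁻¹)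

lemma cons_inj : Function.Injective (fun p : Zs × List Zs => p.1 :: p.2) := by
  rintro ⟨a, b⟩ ⟨c, d⟩ h
  simpa using h

lemma words_tsum {f : List Zs → ℂ} (hf : Summable f) :
    ∑' l, f l = f [] + ∑' k : Zs, ∑' l : List Zs, f (k :: l) := by
  have h1 : Summable (fun p : Zs × List Zs => f (p.1 :: p.2)) := hf.comp_injective cons_inj
  rw [hf.tsum_eq_add_tsum_ite []]
  congr 1
  rw [← h1.tsum_prod]
  rw [← cons_inj.tsum_eq]
  · congr 1
  · intro l hl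
    cases l with
    | nil => simp at hl
    | cons k l => exact ⟨(k, l), rfl⟩

lemma words_summable' {f : List Zs → ℂ} (hf : Summable f) :
    Summable (fun k : Zs => ∑' l : List Zs, f (k :: l)) := by
  have h1 : Summable (fun p : Zs × List Zs => f (p.1 :: p.2)) := hf.comp_injective cons_inj
  exact h1.prod

variable {ε : ℂ} {w1 : ℂ → ℂ} {C1 : ℝ}

lemma vv_term_norm (hε : ‖ε‖ = 1) (h : W1Dat w1 C1) (l : List Zs) {z : ℂ} (hz : z ∈ Om0) :
    ‖fac ε l z * w1 (orb l z)‖ ≤ C1 * (z.im ^ (-3 / 4 : ℝ) * (orb l z).im ^ (5 / 4 : ℝ)) :=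
  tm_norm hε l hz.1 (h.b _ (orb_mem_Om0 l hz))

lemma vv_summable (hε : ‖ε‖ = 1) (h : W1Dat w1 C1) {z : ℂ} (hz : z ∈ Om0) :
    Summable (fun l => fac ε l z * w1 (orb l z)) :=
  Summable.of_norm_bounded (((words_summable hz).mul_left _).mul_left _)
    (fun l => vv_term_norm hε h l hz)

lemma vv_norm (hε : ‖ε‖ = 1) (h : W1Dat w1 C1) {z : ℂ} (hz : z ∈ Om0) :
    ‖vv ε w1 z‖ ≤ C1 * (z.im ^ (-3 / 4 : ℝ) * Rr z) := by
  have hs := ((words_summable hz).mul_left (z.im ^ (-3 / 4 : ℝ))).mul_left C1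
  refine (tsum_of_norm_bounded hs.hasSum (fun l => vv_term_norm hε h l hz)).trans ?_
  rw [tsum_mul_left, tsum_mul_left]
  rfl

lemma vv_rec (hε : ‖ε‖ = 1) (h : W1Dat w1 C1) {z : ℂ} (hz : z ∈ Om0) :
    vv ε w1 z = w1 z + ∑' k : Zs, ε * jf (z + 2 * k) * vv ε w1 (sk k z) := by
  have hs := vv_summable hε h hz
  unfold vv
  rw [words_tsum hs]
  congr 1
  · simp
  · congr 1
    funext k
    rw [← tsum_mul_left]
    congr 1
    funext l
    rw [fac_cons, orb_cons]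
    ring

lemma vv_rec_summable (hε : ‖ε‖ = 1) (h : W1Dat w1 C1) {z : ℂ} (hz : z ∈ Om0) :
    Summable (fun k : Zs => ε * jf (z + 2 * k) * vv ε w1 (sk k z)) := by
  have hs := words_summable' (vv_summable hε h hz)
  refine hs.congr fun k => ?_
  unfold vv
  rw [← tsum_mul_left]
  congr 1
  funext l
  rw [fac_cons, orb_cons]
  ring

lemma exists_ball {z : ℂ} (hz : z ∈ Om0) : ∃ r > 0, r ≤ z.im / 2 ∧ Metric.ball z r ⊆ Om0 := by
  obtain ⟨r, hr, hb⟩ := Metric.isOpen_iff.1 Om0_isOpen z hz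
  refine ⟨min r (z.im / 2), lt_min hr (by linarith [hz.1]), min_le_right _ _, ?_⟩
  exact (Metric.ball_subset_ball (min_le_left _ _)).trans hb

lemma ball_im {z z' : ℂ} {r : ℝ} (hr : r ≤ z.im / 2) (h : z' ∈ Metric.ball z r) :
    z.im / 2 ≤ z'.im ∧ ‖z' - z‖ ≤ z.im / 2 := by
  rw [Metric.mem_ball, dist_eq_norm] at h
  have h2 : ‖z' - z‖ ≤ z.im / 2 := by linarith
  refine ⟨?_, h2⟩
  have := Complex.abs_im_le_norm (z' - z)
  rw [Complex.sub_im] at this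
  have := (abs_le.1 (this.trans h2)).1
  linarith

lemma tD_ball (hε : ‖ε‖ = 1) (h : W1Dat w1 C1) (l : List Zs) {z z' : ℂ} {r : ℝ}
    (hz : z ∈ Om0) (hr : r ≤ z.im / 2) (hb : Metric.ball z r ⊆ Om0) (hz' : z' ∈ Metric.ball z r) :
    ‖tD ε w1 l z'‖ ≤ 3 * C1 * ((z.im / 2) ^ (-7 / 4 : ℝ) *
      (3 ^ (5 / 4 : ℝ) * (orb l z).im ^ (5 / 4 : ℝ))) := by
  obtain ⟨h1, h2⟩ := ball_im hr hz'
  have hO := hb hz'
  have h0 := hz.1
  have ho := orb_im_pos l hz.1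
  have ho' := orb_im_pos l hO.1
  refine (tD_norm hε l hO.1 h.C0 (h.b _ (orb_mem_Om0 l hO)) (h.bd _ (orb_mem_Om0 l hO))).trans ?_
  have hC := h.C0
  have h3 : z'.im ^ (-7 / 4 : ℝ) ≤ (z.im / 2) ^ (-7 / 4 : ℝ) :=
    Real.rpow_le_rpow_of_nonpos (by linarith) h1 (by norm_num)
  have h4 : (orb l z').im ^ (5 / 4 : ℝ) ≤ 3 ^ (5 / 4 : ℝ) * (orb l z).im ^ (5 / 4 : ℝ) := by
    rw [← Real.mul_rpow (by norm_num) ho.le]
    exact Real.rpow_le_rpow ho'.le (orb_ball l hz.1 h2) (by norm_num)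
  gcongr

lemma tD_summable (hε : ‖ε‖ = 1) (h : W1Dat w1 C1) {z : ℂ} (hz : z ∈ Om0) :
    Summable (fun l => tD ε w1 l z) := by
  obtain ⟨r, hr0, hr, hb⟩ := exists_ball hz
  refine Summable.of_norm_bounded (((((words_summable hz).mul_left _).mul_left _)).mul_left _)
    (fun l => tD_ball hε h l hz hr hb (Metric.mem_ball_self hr0))

lemma vv_hasFDerivAt (hε : ‖ε‖ = 1) (h : W1Dat w1 C1) {z : ℂ} (hz : z ∈ Om0) :
    HasFDerivAt (vv ε w1) (∑' l, tD ε w1 l z) z := by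
  obtain ⟨r, hr0, hr, hb⟩ := exists_ball hz
  have hu := ((((words_summable hz).mul_left (3 ^ (5 / 4 : ℝ))).mul_left
    ((z.im / 2) ^ (-7 / 4 : ℝ)))).mul_left (3 * C1)
  exact hasFDerivAt_tsum_of_isPreconnected (f := fun l ζ => fac ε l ζ * w1 (orb l ζ)) hu
    Metric.isOpen_ball (convex_ball z r).isPreconnected
    (fun l ζ hζ => tm_hasFDerivAt ε l (hb hζ).1 (h.d _ (orb_mem_Om0 l (hb hζ))))
    (fun l ζ hζ => tD_ball hε h l hz hr hb hζ) (Metric.mem_ball_self hr0)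
    (vv_summable hε h hz) (Metric.mem_ball_self hr0)

lemma hasSum_db {ι : Type} {T : ι → ℂ →L[ℝ] ℂ} {S : ℂ →L[ℝ] ℂ} (h : HasSum T S) :
    HasSum (fun i => db (T i)) (db S) := by
  have h1 := h.mapL (ContinuousLinearMap.apply ℝ ℂ (1 : ℂ))
  have h2 := (h.mapL (ContinuousLinearMap.apply ℝ ℂ I)).mul_left I
  exact h1.add h2

/-- the density series -/
noncomputable def Vd (ε : ℂ) (κ : ℂ → ℂ) (z : ℂ) : ℂ := ∑' l : List Zs, dl ε κ l z

lemma Vd_hasSum (hε : ‖ε‖ = 1) (h : W1Dat w1 C1) {z : ℂ} (hz : z ∈ Om0) :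
    HasSum (fun l => dl ε (fun ζ => db (fderiv ℝ w1 ζ)) l z) (db (∑' l, tD ε w1 l z)) := by
  have h1 := hasSum_db (tD_summable hε h hz).hasSum
  simp only [tD_db] at h1
  exact h1

lemma Vd_eq (hε : ‖ε‖ = 1) (h : W1Dat w1 C1) {z : ℂ} (hz : z ∈ Om0) :
    db (∑' l, tD ε w1 l z) = Vd ε (fun ζ => db (fderiv ℝ w1 ζ)) z :=
  (Vd_hasSum hε h hz).tsum_eq.symm

lemma dl_nil (κ : ℂ → ℂ) {z : ℂ} : dl ε κ [] z = κ z := by
  unfold dl
  have : deriv (orb []) z = 1 := by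
    have : orb [] = id := rfl
    rw [this]; exact deriv_id z
  rw [this]
  simp

lemma dl_cons (κ : ℂ → ℂ) (k : Zs) (l : List Zs) {z : ℂ} (hz : 0 < z.im) :
    dl ε κ (k :: l) z = dk ε k z * dl ε κ l (sk k z) := by
  unfold dl dk
  rw [orb_deriv_cons k l hz, fac_cons, orb_cons, map_mul]
  ring

lemma Vd_rec (hε : ‖ε‖ = 1) (h : W1Dat w1 C1) {z : ℂ} (hz : z ∈ Om0) :
    Vd ε (fun ζ => db (fderiv ℝ w1 ζ)) z = db (fderiv ℝ w1 z) +
      ∑' k : Zs, dk ε k z * Vd ε (fun ζ => db (fderiv ℝ w1 ζ)) (sk k z) := by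
  have hs := (Vd_hasSum hε h hz).summable
  unfold Vd
  rw [words_tsum hs, dl_nil]
  congr 1
  congr 1
  funext k
  rw [← tsum_mul_left]
  congr 1
  funext l
  rw [dl_cons _ k l hz.1]

lemma Vd_rec_summable (hε : ‖ε‖ = 1) (h : W1Dat w1 C1) {z : ℂ} (hz : z ∈ Om0) :
    Summable (fun k : Zs => dk ε k z * Vd ε (fun ζ => db (fderiv ℝ w1 ζ)) (sk k z)) := by
  have hs := words_summable' (Vd_hasSum hε h hz).summable
  refine hs.congr fun k => ?_
  unfold Vd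
  rw [← tsum_mul_left]
  congr 1
  funext l
  rw [dl_cons _ k l hz.1]

lemma dl_norm (hε : ‖ε‖ = 1) (h : W1Dat w1 C1) (l : List Zs) {z : ℂ} (hz : z ∈ Om0) :
    ‖dl ε (fun ζ => db (fderiv ℝ w1 ζ)) l z‖ ≤
      2 * C1 * (z.im ^ (-7 / 4 : ℝ) * (orb l z).im ^ (5 / 4 : ℝ)) := by
  unfold dl
  have ho := orb_im_pos l hz.1
  have hy := hz.1
  rw [norm_mul, norm_mul, fac_norm hε l hz.1, RCLike.norm_conj, orb_deriv_norm l hz.1]
  have h1 : ‖db (fderiv ℝ w1 (orb l z))‖ ≤ 2 * (C1 * (orb l z).im ^ (-1 / 2 : ℝ)) :=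
    (db_norm _).trans (by have := h.bd _ (orb_mem_Om0 l hz); linarith)
  rw [← pow_id3 ho hz.1]
  calc _ ≤ ((orb l z).im / z.im) ^ (3 / 4 : ℝ) * ((orb l z).im / z.im) *
        (2 * (C1 * (orb l z).im ^ (-1 / 2 : ℝ))) := by gcongr
    _ = _ := by ring

lemma Vd_norm (hε : ‖ε‖ = 1) (h : W1Dat w1 C1) {z : ℂ} (hz : z ∈ Om0) :
    ‖Vd ε (fun ζ => db (fderiv ℝ w1 ζ)) z‖ ≤ 2 * C1 * (z.im ^ (-7 / 4 : ℝ) * Rr z) := by
  have hs := ((words_summable hz).mul_left (z.im ^ (-7 / 4 : ℝ))).mul_left (2 * C1)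
  refine (tsum_of_norm_bounded hs.hasSum (fun l => dl_norm hε h l hz)).trans ?_
  rw [tsum_mul_left, tsum_mul_left]
  rfl

lemma orb_contOn (l : List Zs) : ContinuousOn (orb l) Om0 := fun _ hz =>
  (orb_hasDerivAt l hz.1).continuousAt.continuousWithinAt

lemma fac_contOn (l : List Zs) : ContinuousOn (fac ε l) Om0 := fun _ hz =>
  (fac_hasDerivAt ε l hz.1).continuousAt.continuousWithinAt

lemma derivorb_contOn (l : List Zs) : ContinuousOn (deriv (orb l)) Om0 := by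
  have h : DifferentiableOn ℂ (orb l) HP := fun _ hz =>
    (orb_hasDerivAt l hz).differentiableAt.differentiableWithinAt
  have hO : IsOpen HP := isOpen_lt continuous_const Complex.continuous_im
  exact (h.deriv hO).continuousOn.mono fun _ hz => hz.1

lemma Vd_contOn (hε : ‖ε‖ = 1) (h : W1Dat w1 C1) :
    ContinuousOn (Vd ε (fun ζ => db (fderiv ℝ w1 ζ))) Om0 := by
  intro z hz
  obtain ⟨r, hr0, hr, hb⟩ := exists_ball hz
  have hc : ContinuousOn (Vd ε (fun ζ => db (fderiv ℝ w1 ζ))) (Metric.ball z r) := by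
    have hu := ((((words_summable hz).mul_left (3 ^ (5 / 4 : ℝ))).mul_left
      ((z.im / 2) ^ (-7 / 4 : ℝ)))).mul_left (2 * C1)
    refine continuousOn_tsum (fun l => ?_) hu (fun l z' hz' => ?_)
    · unfold dl
      have h1 : ContinuousOn (fun ζ => db (fderiv ℝ w1 (orb l ζ))) (Metric.ball z r) :=
        h.kc.comp ((orb_contOn l).mono hb) (fun ζ hζ => orb_mem_Om0 l (hb hζ))
      exact (((fac_contOn l).mono hb).mul
        (Complex.continuous_conj.comp_continuousOn ((derivorb_contOn l).mono hb))).mul h1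
    · obtain ⟨h1, h2⟩ := ball_im hr hz'
      have hO := hb hz'
      have h0 := hz.1
      have ho := orb_im_pos l hz.1
      have ho' := orb_im_pos l hO.1
      refine (dl_norm hε h l hO).trans ?_
      have hC := h.C0
      have h3 : z'.im ^ (-7 / 4 : ℝ) ≤ (z.im / 2) ^ (-7 / 4 : ℝ) :=
        Real.rpow_le_rpow_of_nonpos (by linarith) h1 (by norm_num)
      have h4 : (orb l z').im ^ (5 / 4 : ℝ) ≤ 3 ^ (5 / 4 : ℝ) * (orb l z).im ^ (5 / 4 : ℝ) := by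
        rw [← Real.mul_rpow (by norm_num) ho.le]
        exact Real.rpow_le_rpow ho'.le (orb_ball l hz.1 h2) (by norm_num)
      gcongr
  exact (hc.continuousAt (Metric.ball_mem_nhds z hr0)).continuousWithinAt

end Pool.Agent.W759
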