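import Pool.Agent.W759.W2
set_option autoImplicit false

/-! The function `W` and its vanishing; the function `q`. -/

namespace Pool.Agent.W759

open Complex MeasureTheory Filter Topology
open scoped ENNReal

variable {ε : ℂ} {φ : ℂ → ℂ} {C : ℝ}

/-- `v` -/
noncomputable def v (ε : ℂ) (φ : ℂ → ℂ) : ℂ → ℂ := vv ε (w1 φ)

/-- `v | S` -/
noncomputable def vs (ε : ℂ) (φ : ℂ → ℂ) (z : ℂ) : ℂ := ε * jf z * v ε φ (-z⁻¹)

/-- `W` -/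
noncomputable def WW (ε : ℂ) (φ : ℂ → ℂ) (z : ℂ) : ℂ := v ε φ z + ww φ z + vs ε φ z

lemma diff_of_db {F : ℂ → ℂ} {T : ℂ →L[ℝ] ℂ} {z : ℂ} (h : HasFDerivAt F T z) (hT : db T = 0) :
    HasDerivAt F (T 1) z := by
  have h1 : ContinuousLinearMap.restrictScalars ℝ
      (ContinuousLinearMap.toSpanSingleton ℂ (T 1)) = T := by
    have h2 : T I = I * T 1 := by
      unfold db at hT
      linear_combination (-I) * hT + T I * Complex.I_mul_I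
    ext x
    have e : x = x.re • (1 : ℂ) + x.im • I := by
      simp only [Complex.real_smul, mul_one]
      exact (Complex.re_add_im x).symm
    conv_rhs => rw [e]
    rw [map_add, map_smul, map_smul, h2]
    simp only [Complex.real_smul, ContinuousLinearMap.coe_restrictScalars',
      ContinuousLinearMap.toSpanSingleton_apply, smul_eq_mul]
    nth_rewrite 1 [← Complex.re_add_im x]
    ring
  exact hasFDerivAt_of_restrictScalars ℝ h h1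

lemma vs_hasFDerivAt (hM : StMeas) (h : PhiDat ε φ C) {z : ℂ} (hz : 0 < z.im)
    (hz' : -z⁻¹ ∈ Om0) : ∃ T : ℂ →L[ℝ] ℂ, HasFDerivAt (vs ε φ) T z ∧
      db T = -(ε * jf z * (starRingEnd ℂ) ((z ^ 2)⁻¹) * uu φ (-z⁻¹)) := by
  have h0 := ne_zero_of_im hz
  obtain ⟨h1, h2⟩ := v_db hM h hz'
  have h3 : HasDerivAt (fun ζ : ℂ => -ζ⁻¹) ((z ^ 2)⁻¹) z := by
    have := (hasDerivAt_inv h0).fun_neg
    simpa using this
  have h4 : HasDerivAt (fun ζ : ℂ => ε * jf ζ) (ε * (-(3 / 2) / z * jf z)) z :=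
    (jf_diff hz).const_mul ε
  have h5 := slash_hasFDerivAt h4 h3 (h1.hasFDerivAt)
  refine ⟨_, h5, ?_⟩
  rw [slash_db, h2]
  ring

lemma WW_diff (hM : StMeas) (h : PhiDat ε φ C) {z : ℂ} (hz : z ∈ Om1) :
    DifferentiableAt ℂ (WW ε φ) z := by
  obtain ⟨hz1, hz2⟩ := hz
  obtain ⟨T, hT, hT2⟩ := vs_hasFDerivAt hM h hz1.1 hz2
  obtain ⟨h1, h2⟩ := v_db hM h hz1
  have h3 := ww_hasFDerivAt hz1.1 (h.hol z hz1.1)
  have h4 : HasFDerivAt (WW ε φ) (fderiv ℝ (vv ε (w1 φ)) z + wD φ z + T) z :=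
    (h1.hasFDerivAt.add h3).add hT
  refine (diff_of_db h4 ?_).differentiableAt
  rw [db_add, db_add, h2, hT2, slash_id h hz1.1]
  ring

lemma Om_sub {z : ℂ} (hz : z ∈ Om) : z ∈ Om0 := ⟨hz.1, fun k _ => hz.2 k⟩

lemma vs_shift (k : ℤ) (z : ℂ) :
    vs ε φ (z + 2 * k) = ε * jf (z + 2 * k) * vv ε (w1 φ) (sk k z) := rfl

lemma vs_summable (h : PhiDat ε φ C) {z : ℂ} (hz : z ∈ Om0) :
    Summable (fun k : ℤ => vs ε φ (z + 2 * k)) := by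
  have h1 := vv_rec_summable h.εn (w1_dat h) hz
  have h2 : Summable (Set.indicator {k : ℤ | k ≠ 0} (fun k : ℤ => vs ε φ (z + 2 * k))) :=
    summable_subtype_iff_indicator.1 h1
  have h3 : Summable (fun k : ℤ => if k = 0 then vs ε φ (z + 2 * k) else 0) :=
    (hasSum_ite_eq (0 : ℤ) (vs ε φ (z + 2 * (0 : ℤ)))).summable.congr fun k => by
      by_cases hk : k = 0
      · subst hk; simp
      · simp [hk]
  refine (h2.add h3).congr fun k => ?_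
  by_cases hk : k = 0
  · subst hk; simp
  · simp [hk]

lemma tsum_Zs {f : ℤ → ℂ} (hf : Summable f) : ∑' k : ℤ, f k = f 0 + ∑' k : Zs, f k := by
  have h2 : HasSum (fun k : ℤ => f k - if k = 0 then f 0 else 0) (∑' k : ℤ, f k - f 0) :=
    hf.hasSum.sub (hasSum_ite_eq 0 (f 0))
  have h3 : (fun k : ℤ => f k - if k = 0 then f 0 else 0) =
      Set.indicator {k : ℤ | k ≠ 0} f := by
    funext k
    by_cases hk : k = 0
    · subst hk; simp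
    · simp [hk]
  rw [h3] at h2
  have h4 : HasSum (fun k : Zs => f k) (∑' k : ℤ, f k - f 0) := hasSum_subtype_iff_indicator.2 h2
  rw [h4.tsum_eq]
  ring

lemma WW_sum (h : PhiDat ε φ C) {z : ℂ} (hz : z ∈ Om) :
    WW ε φ z = ∑' k : ℤ, (ww φ (z + 2 * k) + vs ε φ (z + 2 * k)) := by
  have hO := Om_sub hz
  have s1 := ww_summable h hO.1
  have s2 := vs_summable h hO
  rw [s1.tsum_add s2, tsum_Zs s1, tsum_Zs s2]
  have h1 : v ε φ z = w1 φ z + ∑' k : Zs, vs ε φ (z + 2 * ((k : ℤ) : ℂ)) :=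
    vv_rec h.εn (w1_dat h) hO
  unfold WW
  rw [h1]
  have e1 : z + 2 * ((0 : ℤ) : ℂ) = z := by simp
  rw [e1]
  unfold w1
  ring

lemma Om_shift {z : ℂ} (hz : z ∈ Om) : z + 2 ∈ Om := by
  refine ⟨by simpa using hz.1, fun k => ?_⟩
  have := hz.2 (k + 1)
  have e : z + 2 * ((k + 1 : ℤ) : ℂ) = z + 2 + 2 * k := by push_cast; ring
  rwa [e] at this

lemma WW_per (h : PhiDat ε φ C) {z : ℂ} (hz : z ∈ Om) : WW ε φ (z + 2) = WW ε φ z := by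
  rw [WW_sum h hz, WW_sum h (Om_shift hz)]
  rw [← (Equiv.addRight (1 : ℤ)).tsum_eq (fun k : ℤ => ww φ (z + 2 * k) + vs ε φ (z + 2 * k))]
  congr 1
  funext k
  have e : z + 2 * (((Equiv.addRight (1 : ℤ)) k : ℤ) : ℂ) = z + 2 + 2 * k := by
    simp only [Equiv.coe_addRight]
    push_cast; ring
  rw [e]

lemma ww_inv (h : PhiDat ε φ C) {z : ℂ} (hz : 0 < z.im) :
    ww φ (-z⁻¹) = ε * J z ^ 3 * ww φ z := by
  have h0 := ne_zero_of_im hz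
  have hJ := J_ne hz
  have hn := norm_pos_iff.2 h0
  have hnc : (‖z‖ : ℂ) ≠ 0 := by exact_mod_cast hn.ne'
  unfold ww
  rw [h.inv z hz, inv_im', Real.div_rpow hz.le (by positivity), map_mul, map_mul, h.εc]
  have e2 : (‖z‖ ^ 2) ^ (1 / 2 : ℝ) = ‖z‖ := by
    rw [← Real.rpow_natCast, ← Real.rpow_mul hn.le]
    norm_num
  rw [e2, inv_neg, inv_inv]
  push_cast
  rw [← J_mul_conj]
  have hJc : (starRingEnd ℂ) (J z) ≠ 0 := by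
    rw [Ne, map_eq_zero]; exact hJ
  have e3 : I * (((z.im ^ (1 / 2 : ℝ) : ℝ) : ℂ) / (J z * (starRingEnd ℂ) (J z))) *
      (ε * (starRingEnd ℂ) (J z) * (starRingEnd ℂ) (φ z)) * -z =
      I * ((z.im ^ (1 / 2 : ℝ) : ℝ) : ℂ) * (starRingEnd ℂ) (φ z) * z⁻¹ * ε * (J z)⁻¹ * (-(z ^ 2)) := by
    field_simp
  rw [e3]
  have e4 : -(z ^ 2) = J z ^ 4 := by
    have : J z ^ 4 = (J z ^ 2) ^ 2 := by ring
    rw [this, J_sq, mul_pow, neg_sq, Complex.I_sq]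
    ring
  rw [e4]
  field_simp

lemma jf_inv {z : ℂ} (hz : 0 < z.im) : jf (-z⁻¹) = J z ^ 3 := by
  unfold jf
  rw [J_inv hz, inv_inv]

lemma WW_inv (h : PhiDat ε φ C) {z : ℂ} (hz : 0 < z.im) :
    WW ε φ (-z⁻¹) = ε * J z ^ 3 * WW ε φ z := by
  have hJ := J_ne hz
  have hn : ‖J z‖ ≠ 0 := norm_ne_zero_iff.2 hJ
  unfold WW vs
  rw [ww_inv h hz, jf_inv hz]
  have e1 : -(-z⁻¹)⁻¹ = z := by rw [inv_neg, neg_neg, inv_inv]
  rw [e1]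
  unfold jf
  have e2 : J z ^ 3 * (J z)⁻¹ ^ 3 = 1 := by
    rw [← mul_pow, mul_inv_cancel₀ hJ, one_pow]
  have e3 := h.εε
  linear_combination (-(v ε φ (-z⁻¹)) * (J z ^ 3 * (J z)⁻¹ ^ 3)) * e3 - v ε φ (-z⁻¹) * e2

/-- the constant `C_1` -/
noncomputable def C1 (C : ℝ) : ℝ := 6 * C * (S0 + 1)

lemma C1_nonneg (h : PhiDat ε φ C) : 0 ≤ C1 C := (w1_dat h).C0

lemma v_norm0 (h : PhiDat ε φ C) {z : ℂ} (hz : z ∈ Om0) :
    ‖v ε φ z‖ ≤ C1 C * (z.im ^ (1 / 2 : ℝ) + cs⁻¹ * Real.pi * z.im ^ (-1 / 2 : ℝ)) := by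
  have h0 := hz.1
  have hC := C1_nonneg h
  have hA := An_mem h0
  have hc := cs_pos
  refine (vv_norm h.εn (w1_dat h) hz).trans ?_
  have h1 := Rr_le0 hz
  have e1 : z.im ^ (-3 / 4 : ℝ) * z.im ^ (5 / 4 : ℝ) = z.im ^ (1 / 2 : ℝ) := by
    rw [← Real.rpow_add h0]; norm_num
  have e2 : z.im ^ (-3 / 4 : ℝ) * z.im ^ (1 / 4 : ℝ) = z.im ^ (-1 / 2 : ℝ) := by
    rw [← Real.rpow_add h0]; norm_num
  have hp : 0 < z.im ^ (-1 / 2 : ℝ) := by positivity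
  apply mul_le_mul_of_nonneg_left _ hC
  calc z.im ^ (-3 / 4 : ℝ) * Rr z ≤ z.im ^ (-3 / 4 : ℝ) * (z.im ^ (5 / 4 : ℝ) +
        cs⁻¹ * (z.im ^ (1 / 4 : ℝ) * (Real.pi - An z))) := by gcongr
    _ = z.im ^ (-3 / 4 : ℝ) * z.im ^ (5 / 4 : ℝ) +
        cs⁻¹ * (z.im ^ (-3 / 4 : ℝ) * z.im ^ (1 / 4 : ℝ)) * (Real.pi - An z) := by ring
    _ = z.im ^ (1 / 2 : ℝ) + cs⁻¹ * z.im ^ (-1 / 2 : ℝ) * (Real.pi - An z) := by rw [e1, e2]
    _ ≤ z.im ^ (1 / 2 : ℝ) + cs⁻¹ * z.im ^ (-1 / 2 : ℝ) * Real.pi := by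
        gcongr
        linarith
    _ = _ := by ring

lemma v_normU (h : PhiDat ε φ C) {z : ℂ} (hz : z ∈ U) :
    ‖v ε φ z‖ ≤ C1 C * cs⁻¹ * z.im ^ (-1 / 2 : ℝ) * (Real.pi - An z) := by
  have h0 := hz.1
  have hC := C1_nonneg h
  refine (vv_norm h.εn (w1_dat h) (U_sub hz)).trans ?_
  have h1 := Rr_le hz
  have e2 : z.im ^ (-3 / 4 : ℝ) * z.im ^ (1 / 4 : ℝ) = z.im ^ (-1 / 2 : ℝ) := by
    rw [← Real.rpow_add h0]; norm_num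
  calc C1 C * (z.im ^ (-3 / 4 : ℝ) * Rr z) ≤ C1 C * (z.im ^ (-3 / 4 : ℝ) *
        (cs⁻¹ * (z.im ^ (1 / 4 : ℝ) * (Real.pi - An z)))) := by gcongr
    _ = C1 C * cs⁻¹ * (z.im ^ (-3 / 4 : ℝ) * z.im ^ (1 / 4 : ℝ)) * (Real.pi - An z) := by ring
    _ = _ := by rw [e2]

lemma vs_norm (h : PhiDat ε φ C) {z : ℂ} (hz : 0 < z.im) (h1 : 1 < ‖z‖) :
    ‖vs ε φ z‖ ≤ C1 C * cs⁻¹ * (z.im ^ (-1 / 2 : ℝ) * ‖z‖ ^ (-1 / 2 : ℝ) * An z) := by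
  have hn := norm_pos_iff.2 (ne_zero_of_im hz)
  have hU : -z⁻¹ ∈ U := by
    refine ⟨inv_im_pos hz, ?_⟩
    rw [norm_neg, norm_inv]
    exact inv_lt_one_of_one_lt₀ h1
  have h2 := v_normU h hU
  rw [An_inv hz, sub_sub_cancel, inv_im', Real.div_rpow hz.le (by positivity)] at h2
  have e2 : (‖z‖ ^ 2) ^ (-1 / 2 : ℝ) = ‖z‖⁻¹ := by
    rw [← Real.rpow_natCast, ← Real.rpow_mul hn.le, ← Real.rpow_neg_one]
    norm_num
  rw [e2, div_inv_eq_mul] at h2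
  unfold vs
  rw [norm_mul, norm_mul, h.εn, one_mul, jf_norm]
  have e3 : ‖z‖ ^ (-3 / 2 : ℝ) * ‖z‖ = ‖z‖ ^ (-1 / 2 : ℝ) := by
    rw [← Real.rpow_add_one hn.ne']; norm_num
  calc ‖z‖ ^ (-3 / 2 : ℝ) * ‖v ε φ (-z⁻¹)‖ ≤ ‖z‖ ^ (-3 / 2 : ℝ) *
        (C1 C * cs⁻¹ * (z.im ^ (-1 / 2 : ℝ) * ‖z‖) * An z) := by gcongr
    _ = C1 C * cs⁻¹ * (z.im ^ (-1 / 2 : ℝ) * (‖z‖ ^ (-3 / 2 : ℝ) * ‖z‖) * An z) := by ring
    _ = _ := by rw [e3]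

lemma WW_bound (h : PhiDat ε φ C) {z : ℂ} (hz : z ∈ Om1) (h1 : 1 ≤ ‖z‖) (h2 : z.im ≤ 2) :
    ‖WW ε φ z‖ ≤ (4 * C1 C * (1 + cs⁻¹ * Real.pi) + 2 * C) * z.im ^ (-1 / 2 : ℝ) := by
  obtain ⟨hz1, hz2⟩ := hz
  have h0 := hz1.1
  have hC1 := C1_nonneg h
  have hC := h.C0
  have hc := cs_pos
  have hpi := Real.pi_pos
  have hn := norm_pos_iff.2 (ne_zero_of_im h0)
  have hy : z.im ^ (1 / 2 : ℝ) ≤ 2 * z.im ^ (-1 / 2 : ℝ) := by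
    have : z.im ^ (1 / 2 : ℝ) = z.im ^ (-1 / 2 : ℝ) * z.im := by
      rw [← Real.rpow_add_one h0.ne']; norm_num
    rw [this, mul_comm]
    gcongr
  have b1 := v_norm0 h hz1
  have b2 := v_norm0 h hz2
  rw [inv_im', Real.div_rpow h0.le (by positivity), Real.div_rpow h0.le (by positivity)] at b2
  have e1 : (‖z‖ ^ 2) ^ (1 / 2 : ℝ) = ‖z‖ := by
    rw [← Real.rpow_natCast, ← Real.rpow_mul hn.le]
    norm_num
  have e2 : (‖z‖ ^ 2) ^ (-1 / 2 : ℝ) = ‖z‖⁻¹ := by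
    rw [← Real.rpow_natCast, ← Real.rpow_mul hn.le, ← Real.rpow_neg_one]
    norm_num
  rw [e1, e2, div_inv_eq_mul] at b2
  have b3 := ww_norm h h0
  set a := z.im ^ (-1 / 2 : ℝ) with ha
  have ha0 : 0 < a := by positivity
  have t1 : ‖v ε φ z‖ ≤ 2 * C1 C * (1 + cs⁻¹ * Real.pi) * a := by
    refine b1.trans ?_
    calc C1 C * (z.im ^ (1 / 2 : ℝ) + cs⁻¹ * Real.pi * a) ≤
          C1 C * (2 * a + 2 * (cs⁻¹ * Real.pi * a)) := by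
          apply mul_le_mul_of_nonneg_left _ hC1
          have : 0 ≤ cs⁻¹ * Real.pi * a := by positivity
          linarith
      _ = _ := by ring
  have t2 : ‖vs ε φ z‖ ≤ 2 * C1 C * (1 + cs⁻¹ * Real.pi) * a := by
    unfold vs
    rw [norm_mul, norm_mul, h.εn, one_mul, jf_norm]
    have hr1 : ‖z‖ ^ (-3 / 2 : ℝ) ≤ 1 :=
      Real.rpow_le_one_of_one_le_of_nonpos h1 (by norm_num)
    have hr2 : ‖z‖ ^ (-3 / 2 : ℝ) * ‖z‖ ≤ 1 := by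
      rw [← Real.rpow_add_one hn.ne']
      exact Real.rpow_le_one_of_one_le_of_nonpos h1 (by norm_num)
    have hr3 : z.im ^ (1 / 2 : ℝ) / ‖z‖ ≤ 2 * a := by
      refine le_trans (div_le_self (by positivity) h1) hy
    calc ‖z‖ ^ (-3 / 2 : ℝ) * ‖v ε φ (-z⁻¹)‖ ≤ ‖z‖ ^ (-3 / 2 : ℝ) *
          (C1 C * (z.im ^ (1 / 2 : ℝ) / ‖z‖ + cs⁻¹ * Real.pi * (a * ‖z‖))) := by gcongr
      _ = C1 C * (‖z‖ ^ (-3 / 2 : ℝ) * (z.im ^ (1 / 2 : ℝ) / ‖z‖) +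
          cs⁻¹ * Real.pi * a * (‖z‖ ^ (-3 / 2 : ℝ) * ‖z‖)) := by ring
      _ ≤ C1 C * (1 * (2 * a) + cs⁻¹ * Real.pi * a * 1) := by gcongr
      _ ≤ C1 C * (2 * a + 2 * (cs⁻¹ * Real.pi * a)) := by
          apply mul_le_mul_of_nonneg_left _ hC1
          have : 0 ≤ cs⁻¹ * Real.pi * a := by positivity
          linarith
      _ = _ := by ring
  have t3 : ‖ww φ z‖ ≤ 2 * C * a := by
    refine b3.trans ?_
    have hr1 : ‖z‖ ^ (-3 / 2 : ℝ) ≤ 1 :=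
      Real.rpow_le_one_of_one_le_of_nonpos h1 (by norm_num)
    calc C * (z.im ^ (1 / 2 : ℝ) * ‖z‖ ^ (-3 / 2 : ℝ)) ≤ C * (2 * a * 1) := by gcongr
      _ = _ := by ring
  unfold WW
  refine (norm_add_le _ _).trans ?_
  have := norm_add_le (v ε φ z) (ww φ z)
  nlinarith

lemma ww_small (h : PhiDat ε φ C) {δ r : ℝ} (hr : 0 < r)
    (hδ : ∀ z : ℂ, 0 < z.im → ‖z‖ ≤ r → ‖φ z‖ ≤ δ) {z : ℂ} (hz : 0 < z.im) (hzr : r⁻¹ ≤ ‖z‖) :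
    ‖ww φ z‖ ≤ δ * (z.im ^ (1 / 2 : ℝ) * ‖z‖ ^ (-3 / 2 : ℝ)) := by
  have hn := norm_pos_iff.2 (ne_zero_of_im hz)
  have h1 := h.inv z hz
  have h2 : ‖φ (-z⁻¹)‖ = ‖z‖ ^ (1 / 2 : ℝ) * ‖φ z‖ := by
    rw [h1, norm_mul, norm_mul, h.εn, one_mul, J_norm']
  have h3 : ‖φ (-z⁻¹)‖ ≤ δ := by
    apply hδ _ (inv_im_pos hz)
    rw [norm_neg, norm_inv]
    exact inv_le_of_inv_le₀ hr hzr
  rw [h2] at h3
  have h4 : ‖φ z‖ = (‖z‖ ^ (1 / 2 : ℝ) * ‖φ z‖) * ‖z‖ ^ (-1 / 2 : ℝ) := by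
    rw [mul_right_comm, ← Real.rpow_add hn]
    norm_num
  unfold ww
  rw [norm_mul, norm_mul, norm_mul, Complex.norm_I, one_mul, Complex.norm_real, Real.norm_eq_abs,
    abs_of_pos (by positivity), RCLike.norm_conj, norm_inv]
  have e : ‖z‖ ^ (-3 / 2 : ℝ) = ‖z‖ ^ (-1 / 2 : ℝ) * ‖z‖⁻¹ := by
    rw [← Real.rpow_neg_one, ← Real.rpow_add hn]
    norm_num
  rw [h4]
  calc z.im ^ (1 / 2 : ℝ) * (‖z‖ ^ (1 / 2 : ℝ) * ‖φ z‖ * ‖z‖ ^ (-1 / 2 : ℝ)) * ‖z‖⁻¹ ≤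
        z.im ^ (1 / 2 : ℝ) * (δ * ‖z‖ ^ (-1 / 2 : ℝ)) * ‖z‖⁻¹ := by gcongr
    _ = _ := by rw [e]; ring

lemma mem_Om_of_im {z : ℂ} (hz : 1 < z.im) : z ∈ Om := by
  refine ⟨by linarith, fun k => ?_⟩
  have h1 := Complex.abs_im_le_norm (z + 2 * k)
  rw [shift_im, abs_of_pos (by linarith)] at h1
  linarith

lemma WW_inf (h : PhiDat ε φ C) : ∀ δ > 0, ∃ T : ℝ, ∀ z : ℂ, T ≤ z.im → ‖WW ε φ z‖ ≤ δ := by
  intro δ hδ
  have hC1 := C1_nonneg h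
  have hc := cs_pos
  have hpi := Real.pi_pos
  obtain ⟨r, hr, hrφ⟩ := h.lim0 (δ / 64) (by positivity)
  have ht : Tendsto (fun y : ℝ => C1 C * cs⁻¹ * Real.pi * y ^ (-(1 / 2) : ℝ)) atTop (𝓝 0) := by
    have := (tendsto_rpow_neg_atTop (y := 1 / 2) (by norm_num)).const_mul
      (C1 C * cs⁻¹ * Real.pi)
    simpa using this
  obtain ⟨T0, hT0⟩ := (ht.eventually (gt_mem_nhds (half_pos hδ))).exists_forall_of_atTop
  refine ⟨max (max T0 2) r⁻¹, fun z hz => ?_⟩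
  have hzT : T0 ≤ z.im := (le_max_left _ _).trans ((le_max_left _ _).trans hz)
  have hz2 : 2 ≤ z.im := (le_max_right _ _).trans ((le_max_left _ _).trans hz)
  have hzr : r⁻¹ ≤ z.im := (le_max_right _ _).trans hz
  have hz0 : 0 < z.im := by linarith
  have hO : z ∈ Om := mem_Om_of_im (by linarith)
  rw [WW_sum h hO]
  have hnk : ∀ k : ℤ, z.im ≤ ‖z + 2 * k‖ := by
    intro k
    have h1 := Complex.abs_im_le_norm (z + 2 * k)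
    rwa [shift_im, abs_of_pos hz0] at h1
  have b1 : ∀ k : ℤ, ‖ww φ (z + 2 * k)‖ ≤
      δ / 64 * (z.im ^ (1 / 2 : ℝ) * ‖z + 2 * k‖ ^ (-3 / 2 : ℝ)) := by
    intro k
    have := ww_small h hr hrφ (z := z + 2 * k) (by rw [shift_im]; exact hz0)
      (hzr.trans (hnk k))
    rwa [shift_im] at this
  have b2 : ∀ k : ℤ, ‖vs ε φ (z + 2 * k)‖ ≤
      C1 C * cs⁻¹ * z.im ^ (-1 / 2 : ℝ) * An (z + 2 * k) := by
    intro k
    have h1 : 1 < ‖z + 2 * k‖ := by have := hnk k; linarith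
    have h2 := vs_norm h (z := z + 2 * k) (by rw [shift_im]; exact hz0) h1
    rw [shift_im] at h2
    refine h2.trans ?_
    have h3 : ‖z + 2 * k‖ ^ (-1 / 2 : ℝ) ≤ 1 :=
      Real.rpow_le_one_of_one_le_of_nonpos h1.le (by norm_num)
    have h4 := (An_mem (z := z + 2 * k) (by rw [shift_im]; exact hz0)).1
    calc _ ≤ C1 C * cs⁻¹ * (z.im ^ (-1 / 2 : ℝ) * 1 * An (z + 2 * k)) := by gcongr
      _ = _ := by ring
  have s1 := ((sum32 hz0).mul_left (z.im ^ (1 / 2 : ℝ))).mul_left (δ / 64)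
  have s2 := (An_hasSum hz0).mul_left (C1 C * cs⁻¹ * z.im ^ (-1 / 2 : ℝ))
  have h5 := tsum_of_norm_bounded (s1.hasSum.add s2)
    (fun k => (norm_add_le (ww φ (z + 2 * k)) (vs ε φ (z + 2 * k))).trans
      (add_le_add (b1 k) (b2 k)))
  refine h5.trans ?_
  rw [tsum_mul_left, tsum_mul_left]
  have h6 := sum32_inf (z := z) (by linarith)
  have h7 : z.im ^ (1 / 2 : ℝ) * ∑' k : ℤ, ‖z + 2 * k‖ ^ (-3 / 2 : ℝ) ≤ 32 := by
    calc _ ≤ z.im ^ (1 / 2 : ℝ) * (32 * z.im ^ (-1 / 2 : ℝ)) := by gcongr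
      _ = 32 * (z.im ^ (1 / 2 : ℝ) * z.im ^ (-1 / 2 : ℝ)) := by ring
      _ = 32 := by rw [← Real.rpow_add hz0]; norm_num
  have h8 := hT0 z.im hzT
  have e : (-(1 / 2) : ℝ) = -1 / 2 := by norm_num
  rw [e] at h8
  calc _ ≤ δ / 64 * 32 + C1 C * cs⁻¹ * Real.pi * z.im ^ (-1 / 2 : ℝ) := by
        apply add_le_add
        · gcongr
        · exact le_of_eq (by ring)
    _ ≤ δ := by linarith

/-- `W = 0` -/
theorem WW_zero (hM : StMeas) (hU : StUniq) (h : PhiDat ε φ C) : ∀ z ∈ Om1, WW ε φ z = 0 :=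
  hU ε h.hε (WW ε φ) (fun _ hz => WW_diff hM h hz) (fun _ hz => WW_per h hz)
    (fun _ hz => WW_inv h hz.1.1) _ (fun _ hz h1 _ h2 => WW_bound h hz h1 h2) (WW_inf h)

end Pool.Agent.W759
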