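import Pool.Agent.W759.E
import Pool.Agent.W759.Sm
set_option autoImplicit false

/-! The functions `w` and `w_1`. -/

namespace Pool.Agent.W759

open Complex MeasureTheory Filter Topology
open scoped ENNReal

/-- properties of the theta transform -/
structure PhiDat (ε : ℂ) (φ : ℂ → ℂ) (C : ℝ) : Prop where
  hε : ε = 1 ∨ ε = -1
  C0 : 0 ≤ C
  hol : ∀ z : ℂ, 0 < z.im → DifferentiableAt ℂ φ z
  b0 : ∀ z : ℂ, 0 < z.im → ‖φ z‖ ≤ C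
  inv : ∀ z : ℂ, 0 < z.im → φ (-z⁻¹) = ε * J z * φ z
  lim0 : ∀ δ > 0, ∃ r > 0, ∀ z : ℂ, 0 < z.im → ‖z‖ ≤ r → ‖φ z‖ ≤ δ
  L2 : ∫⁻ z in HP, ENNReal.ofReal (z.im ^ (-1 / 2 : ℝ)) * ‖deriv φ z‖ₑ ^ 2 < ∞
  sm : ∀ z : ℂ, 0 < z.im → Summable (fun k : ℤ => deriv φ (z + 2 * k))
  poi : ∀ z : ℂ, 0 < z.im → ∑' k : ℤ, deriv φ (z + 2 * k) = 0

variable {ε : ℂ} {φ : ℂ → ℂ} {C : ℝ}

lemma PhiDat.εn (h : PhiDat ε φ C) : ‖ε‖ = 1 := by
  rcases h.hε with h | h <;> simp [h]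

lemma PhiDat.εε (h : PhiDat ε φ C) : ε * ε = 1 := by
  rcases h.hε with h | h <;> simp [h]

lemma PhiDat.εc (h : PhiDat ε φ C) : (starRingEnd ℂ) ε = ε := by
  rcases h.hε with h | h <;> simp [h]

/-- the function `w` -/
noncomputable def ww (φ : ℂ → ℂ) (z : ℂ) : ℂ :=
  I * ((z.im ^ (1 / 2 : ℝ) : ℝ) : ℂ) * (starRingEnd ℂ) (φ z) * z⁻¹

/-- the density `u` -/
noncomputable def uu (φ : ℂ → ℂ) (z : ℂ) : ℂ :=
  ((z.im ^ (-1 / 2 : ℝ) : ℝ) : ℂ) * (starRingEnd ℂ) (deriv φ z)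

lemma inv_im_pos {z : ℂ} (hz : 0 < z.im) : 0 < (-z⁻¹).im := by
  rw [inv_im']
  have := norm_pos_iff.2 (ne_zero_of_im hz)
  positivity

lemma PhiDat.dec (h : PhiDat ε φ C) {z : ℂ} (hz : 0 < z.im) :
    ‖φ z‖ ≤ C * ‖z‖ ^ (-1 / 2 : ℝ) := by
  have h1 := h.inv z hz
  have h2 : ‖φ (-z⁻¹)‖ = ‖z‖ ^ (1 / 2 : ℝ) * ‖φ z‖ := by
    rw [h1, norm_mul, norm_mul, h.εn, one_mul, J_norm']
  have h3 := h.b0 _ (inv_im_pos hz)
  have hn := norm_pos_iff.2 (ne_zero_of_im hz)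
  rw [h2] at h3
  have h4 : ‖φ z‖ = (‖z‖ ^ (1 / 2 : ℝ) * ‖φ z‖) * ‖z‖ ^ (-1 / 2 : ℝ) := by
    rw [mul_right_comm, ← Real.rpow_add hn]
    norm_num
  rw [h4]
  gcongr

lemma PhiDat.dec' (h : PhiDat ε φ C) {z : ℂ} (hz : 0 < z.im) :
    ‖deriv φ z‖ ≤ 4 * C * z.im⁻¹ * ‖z‖ ^ (-1 / 2 : ℝ) := by
  have hn := norm_pos_iff.2 (ne_zero_of_im hz)
  have hiz : z.im ≤ ‖z‖ := by
    have := Complex.abs_im_le_norm z
    rwa [abs_of_pos hz] at this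
  have hin : ∀ w : ℂ, ‖w - z‖ ≤ z.im / 2 → 0 < w.im := by
    intro w hw
    have := Complex.abs_im_le_norm (w - z)
    rw [Complex.sub_im] at this
    have := (abs_le.1 (this.trans hw)).1
    linarith
  have h1 : ‖deriv φ z‖ ≤ (C * (2 * ‖z‖ ^ (-1 / 2 : ℝ))) / (z.im / 2) := by
    apply Complex.norm_deriv_le_of_forall_mem_sphere_norm_le (by positivity)
    · apply DifferentiableOn.diffContOnCl
      rw [closure_ball _ (by positivity)]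
      intro w hw
      rw [Metric.mem_closedBall, dist_eq_norm] at hw
      exact (h.hol w (hin w hw)).differentiableWithinAt
    · intro w hw
      rw [mem_sphere_iff_norm] at hw
      have hwi := hin w hw.le
      refine (h.dec hwi).trans ?_
      have h2 : ‖z‖ / 2 ≤ ‖w‖ := by
        have := norm_sub_le w (w - z)
        rw [sub_sub_cancel, hw] at this
        linarith
      have h3 : ‖w‖ ^ (-1 / 2 : ℝ) ≤ (‖z‖ / 2) ^ (-1 / 2 : ℝ) :=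
        Real.rpow_le_rpow_of_nonpos (by positivity) h2 (by norm_num)
      have h4 : (‖z‖ / 2) ^ (-1 / 2 : ℝ) ≤ 2 * ‖z‖ ^ (-1 / 2 : ℝ) := by
        rw [Real.div_rpow hn.le (by norm_num), div_eq_mul_inv, mul_comm]
        have h5 : ((2 : ℝ) ^ (-1 / 2 : ℝ))⁻¹ ≤ 2 := by
          rw [← Real.rpow_neg (by norm_num)]
          calc (2 : ℝ) ^ (-(-1 / 2) : ℝ) ≤ 2 ^ (1 : ℝ) :=
                Real.rpow_le_rpow_of_exponent_le (by norm_num) (by norm_num)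
            _ = 2 := by norm_num
        gcongr
      have := h.C0
      gcongr
      exact h3.trans h4
  refine h1.trans (le_of_eq ?_)
  field_simp
  ring

/-- derivative of the real factor -/
noncomputable def yD (z : ℂ) : ℂ →L[ℝ] ℂ :=
  Complex.ofRealCLM.comp ((1 / 2 * z.im ^ (-1 / 2 : ℝ)) • Complex.imCLM)

lemma yD_hasFDerivAt {z : ℂ} (hz : 0 < z.im) :
    HasFDerivAt (fun ζ : ℂ => ((ζ.im ^ (1 / 2 : ℝ) : ℝ) : ℂ)) (yD z) z := by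
  have h1 : HasDerivAt (fun t : ℝ => t ^ (1 / 2 : ℝ)) (1 / 2 * z.im ^ (-1 / 2 : ℝ)) z.im := by
    have := Real.hasDerivAt_rpow_const (x := z.im) (p := 1 / 2) (Or.inl hz.ne')
    convert this using 2
    norm_num
  have h2 : HasFDerivAt (fun ζ : ℂ => ζ.im) Complex.imCLM z := Complex.imCLM.hasFDerivAt
  have h3 := h1.comp_hasFDerivAt z h2
  exact Complex.ofRealCLM.hasFDerivAt.comp z h3

lemma yD_norm {z : ℂ} (hz : 0 < z.im) : ‖yD z‖ ≤ z.im ^ (-1 / 2 : ℝ) := by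
  refine ContinuousLinearMap.opNorm_le_bound _ (by positivity) fun x => ?_
  have e : yD z x = ((1 / 2 * z.im ^ (-1 / 2 : ℝ) * x.im : ℝ) : ℂ) := by
    simp [yD]
  rw [e, Complex.norm_real, Real.norm_eq_abs, abs_mul, abs_of_pos (by positivity)]
  have h1 := Complex.abs_im_le_norm x
  have h2 : 0 < z.im ^ (-1 / 2 : ℝ) := by positivity
  have h3 : 0 ≤ |x.im| := abs_nonneg _
  have h4 : 0 ≤ ‖x‖ := norm_nonneg _
  calc 1 / 2 * z.im ^ (-1 / 2 : ℝ) * |x.im| ≤ 1 * z.im ^ (-1 / 2 : ℝ) * ‖x‖ := by gcongr; norm_num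
    _ = _ := by ring

lemma yD_db (z : ℂ) : db (yD z) = I * ((1 / 2 * z.im ^ (-1 / 2 : ℝ) : ℝ) : ℂ) := by
  unfold db yD
  simp

/-- derivative of `ww` -/
noncomputable def wD (φ : ℂ → ℂ) (z : ℂ) : ℂ →L[ℝ] ℂ :=
  (I * ((z.im ^ (1 / 2 : ℝ) : ℝ) : ℂ) * (starRingEnd ℂ) (φ z)) • mulR (-(z ^ 2)⁻¹) +
  z⁻¹ • ((I * ((z.im ^ (1 / 2 : ℝ) : ℝ) : ℂ)) •
    ((Complex.conjCLE : ℂ →L[ℝ] ℂ).comp (mulR (deriv φ z))) +
    (starRingEnd ℂ) (φ z) • (I • yD z))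

lemma ww_hasFDerivAt {z : ℂ} (hz : 0 < z.im) (hφ : DifferentiableAt ℂ φ z) :
    HasFDerivAt (ww φ) (wD φ z) z := by
  have h0 := ne_zero_of_im hz
  have h1 : HasFDerivAt (fun ζ : ℂ => I * ((ζ.im ^ (1 / 2 : ℝ) : ℝ) : ℂ)) (I • yD z) z :=
    (yD_hasFDerivAt hz).const_mul I
  have h2 : HasFDerivAt (fun ζ : ℂ => (starRingEnd ℂ) (φ ζ))
      ((Complex.conjCLE : ℂ →L[ℝ] ℂ).comp (mulR (deriv φ z))) z :=
    (Complex.conjCLE : ℂ →L[ℝ] ℂ).hasFDerivAt.comp z (hasFDerivAt_mulR hφ.hasDerivAt)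
  have h3 : HasFDerivAt (fun ζ : ℂ => ζ⁻¹) (mulR (-(z ^ 2)⁻¹)) z :=
    hasFDerivAt_mulR (hasDerivAt_inv h0)
  exact (h1.mul h2).mul h3

lemma conj_mulR_db (c : ℂ) :
    db ((Complex.conjCLE : ℂ →L[ℝ] ℂ).comp (mulR c)) = 2 * (starRingEnd ℂ) c := by
  unfold db
  simp only [ContinuousLinearMap.comp_apply, mulR_apply, mul_one, ContinuousLinearEquiv.coe_coe,
    Complex.conjCLE_apply, map_mul, Complex.conj_I]
  linear_combination (-(starRingEnd ℂ) c) * Complex.I_mul_I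

lemma wD_db (z : ℂ) : db (wD φ z) = z⁻¹ * (2 * I * ((z.im ^ (1 / 2 : ℝ) : ℝ) : ℂ) *
    (starRingEnd ℂ) (deriv φ z) - (1 / 2) * ((z.im ^ (-1 / 2 : ℝ) : ℝ) : ℂ) *
    (starRingEnd ℂ) (φ z)) := by
  unfold wD
  rw [db_add, db_smul, db_mulR, db_smul, db_add, db_smul, conj_mulR_db, db_smul, db_smul, yD_db]
  push_cast
  linear_combination (z⁻¹ * (starRingEnd ℂ) (φ z) * (1 / 2) *
    ((z.im ^ (-1 / 2 : ℝ) : ℝ) : ℂ)) * Complex.I_mul_I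

lemma conj_comp_norm (c : ℂ) :
    ‖(Complex.conjCLE : ℂ →L[ℝ] ℂ).comp (mulR c)‖ ≤ ‖c‖ := by
  refine ContinuousLinearMap.opNorm_le_bound _ (norm_nonneg _) fun x => ?_
  simp only [ContinuousLinearMap.comp_apply, mulR_apply, ContinuousLinearEquiv.coe_coe,
    Complex.conjCLE_apply, RCLike.norm_conj, norm_mul]
  exact le_rfl

lemma ww_norm (h : PhiDat ε φ C) {z : ℂ} (hz : 0 < z.im) :
    ‖ww φ z‖ ≤ C * (z.im ^ (1 / 2 : ℝ) * ‖z‖ ^ (-3 / 2 : ℝ)) := by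
  have hn := norm_pos_iff.2 (ne_zero_of_im hz)
  unfold ww
  rw [norm_mul, norm_mul, norm_mul, Complex.norm_I, one_mul, Complex.norm_real, Real.norm_eq_abs,
    abs_of_pos (by positivity), RCLike.norm_conj, norm_inv]
  have h1 := h.dec hz
  have e : ‖z‖ ^ (-3 / 2 : ℝ) = ‖z‖ ^ (-1 / 2 : ℝ) * ‖z‖⁻¹ := by
    rw [← Real.rpow_neg_one, ← Real.rpow_add hn]
    norm_num
  calc z.im ^ (1 / 2 : ℝ) * ‖φ z‖ * ‖z‖⁻¹ ≤ z.im ^ (1 / 2 : ℝ) * (C * ‖z‖ ^ (-1 / 2 : ℝ)) * ‖z‖⁻¹ := by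
        gcongr
    _ = _ := by rw [e]; ring

lemma wD_norm (h : PhiDat ε φ C) {z : ℂ} (hz : 0 < z.im) :
    ‖wD φ z‖ ≤ 6 * C * (z.im ^ (-1 / 2 : ℝ) * ‖z‖ ^ (-3 / 2 : ℝ)) := by
  have hn := norm_pos_iff.2 (ne_zero_of_im hz)
  have hC := h.C0
  have hiz : z.im ≤ ‖z‖ := by
    have := Complex.abs_im_le_norm z
    rwa [abs_of_pos hz] at this
  have h1 := h.dec hz
  have h2 := h.dec' hz
  have e : ‖z‖ ^ (-3 / 2 : ℝ) = ‖z‖ ^ (-1 / 2 : ℝ) * ‖z‖⁻¹ := by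
    rw [← Real.rpow_neg_one, ← Real.rpow_add hn]
    norm_num
  have e2 : z.im ^ (1 / 2 : ℝ) = z.im ^ (-1 / 2 : ℝ) * z.im := by
    rw [← Real.rpow_add_one hz.ne']; norm_num
  set a := z.im ^ (-1 / 2 : ℝ) with ha
  set b := ‖z‖ ^ (-1 / 2 : ℝ) with hb
  have ha0 : 0 < a := by positivity
  have hb0 : 0 < b := by positivity
  have t1 : ‖(I * ((z.im ^ (1 / 2 : ℝ) : ℝ) : ℂ) * (starRingEnd ℂ) (φ z)) • mulR (-(z ^ 2)⁻¹)‖ ≤
      C * (a * ‖z‖ ^ (-3 / 2 : ℝ)) := by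
    rw [norm_smul, norm_mul, norm_mul, Complex.norm_I, one_mul, Complex.norm_real,
      Real.norm_eq_abs, abs_of_pos (by positivity), RCLike.norm_conj]
    have h3 : ‖mulR (-(z ^ 2)⁻¹)‖ ≤ (‖z‖ ^ 2)⁻¹ := by
      refine (mulR_norm _).trans ?_
      rw [norm_neg, norm_inv, norm_pow]
    rw [e, e2]
    calc a * z.im * ‖φ z‖ * ‖mulR (-(z ^ 2)⁻¹)‖ ≤ a * ‖z‖ * (C * b) * (‖z‖ ^ 2)⁻¹ := by
          gcongr
      _ = C * (a * (b * ‖z‖⁻¹)) := by field_simp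
  have t2 : ‖(I * ((z.im ^ (1 / 2 : ℝ) : ℝ) : ℂ)) •
      ((Complex.conjCLE : ℂ →L[ℝ] ℂ).comp (mulR (deriv φ z)))‖ ≤ 4 * C * (a * b) := by
    rw [norm_smul, norm_mul, Complex.norm_I, one_mul, Complex.norm_real,
      Real.norm_eq_abs, abs_of_pos (by positivity), e2]
    have h3 := conj_comp_norm (deriv φ z)
    calc _ ≤ a * z.im * (4 * C * z.im⁻¹ * b) := by
          gcongr
          exact h3.trans h2
      _ = 4 * C * (a * b) := by field_simp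
  have t3 : ‖(starRingEnd ℂ) (φ z) • (I • yD z)‖ ≤ C * (a * b) := by
    rw [norm_smul, norm_smul, Complex.norm_I, one_mul, RCLike.norm_conj]
    have h3 := yD_norm hz
    calc _ ≤ (C * b) * a := by gcongr
      _ = _ := by ring
  unfold wD
  refine (norm_add_le _ _).trans ?_
  rw [norm_smul z⁻¹, norm_inv]
  have t4 := (norm_add_le ((I * ((z.im ^ (1 / 2 : ℝ) : ℝ) : ℂ)) •
      ((Complex.conjCLE : ℂ →L[ℝ] ℂ).comp (mulR (deriv φ z))))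
      ((starRingEnd ℂ) (φ z) • (I • yD z)))
  calc _ ≤ C * (a * ‖z‖ ^ (-3 / 2 : ℝ)) + ‖z‖⁻¹ * (4 * C * (a * b) + C * (a * b)) := by
        gcongr
        exact t4.trans (add_le_add t2 t3)
    _ = 6 * C * (a * ‖z‖ ^ (-3 / 2 : ℝ)) := by rw [e]; ring

end Pool.Agent.W759
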