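import Pool.Agent.W759.W1
set_option autoImplicit false

/-! The seed `w_1` and its `∂̄` derivative. -/

namespace Pool.Agent.W759

open Complex MeasureTheory Filter Topology
open scoped ENNReal

variable {ε : ℂ} {φ : ℂ → ℂ} {C : ℝ}

lemma deriv_inv_id (h : PhiDat ε φ C) {z : ℂ} (hz : 0 < z.im) :
    deriv φ (-z⁻¹) * (z ^ 2)⁻¹ = ε * (-I / (2 * J z) * φ z + J z * deriv φ z) := by
  have h0 := ne_zero_of_im hz
  have h1 : HasDerivAt (fun ζ : ℂ => -ζ⁻¹) ((z ^ 2)⁻¹) z := by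
    have := (hasDerivAt_inv h0).fun_neg
    simpa using this
  have h2 : HasDerivAt (fun ζ : ℂ => φ (-ζ⁻¹)) (deriv φ (-z⁻¹) * (z ^ 2)⁻¹) z :=
    HasDerivAt.comp (h₂ := φ) z (h.hol _ (inv_im_pos hz)).hasDerivAt h1
  have h3 : HasDerivAt (fun ζ : ℂ => ε * (J ζ * φ ζ))
      (ε * (-I / (2 * J z) * φ z + J z * deriv φ z)) z :=
    ((J_diff hz).fun_mul (h.hol z hz).hasDerivAt).const_mul ε
  have h4 : (fun ζ : ℂ => φ (-ζ⁻¹)) =ᶠ[𝓝 z] fun ζ : ℂ => ε * (J ζ * φ ζ) := by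
    have : ∀ᶠ w in 𝓝 z, 0 < w.im :=
      (Complex.continuous_im.tendsto z).eventually (lt_mem_nhds hz)
    filter_upwards [this] with w hw
    rw [h.inv w hw, mul_assoc]
  exact (h2.congr_of_eventuallyEq h4.symm).unique h3

lemma slash_id (h : PhiDat ε φ C) {z : ℂ} (hz : 0 < z.im) :
    db (wD φ z) = uu φ z + ε * jf z * (starRingEnd ℂ) ((z ^ 2)⁻¹) * uu φ (-z⁻¹) := by
  have h0 := ne_zero_of_im hz
  have hJ := J_ne hz
  have hn := norm_pos_iff.2 h0
  have key := congrArg (starRingEnd ℂ) (deriv_inv_id h hz)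
  have hJc : (starRingEnd ℂ) (J z) ≠ 0 := by
    rw [Ne, map_eq_zero]; exact hJ
  rw [map_mul, map_mul, h.εc, map_add, map_mul, map_mul, map_div₀, map_neg, Complex.conj_I,
    neg_neg, map_mul] at key
  have h2c : (starRingEnd ℂ) 2 = 2 := Complex.conj_ofNat 2
  rw [h2c] at key
  have e1 : uu φ (-z⁻¹) = ((z.im ^ (-1 / 2 : ℝ) : ℝ) : ℂ) * (J z * (starRingEnd ℂ) (J z)) *
      (starRingEnd ℂ) (deriv φ (-z⁻¹)) := by
    unfold uu
    rw [inv_im', Real.div_rpow hz.le (by positivity), J_mul_conj]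
    have e2 : (‖z‖ ^ 2) ^ (-1 / 2 : ℝ) = ‖z‖⁻¹ := by
      rw [← Real.rpow_natCast, ← Real.rpow_mul hn.le, ← Real.rpow_neg_one]
      norm_num
    rw [e2, div_inv_eq_mul]
    push_cast
    ring
  rw [e1, wD_db]
  unfold uu jf
  have e3 : ε * (J z)⁻¹ ^ 3 * (starRingEnd ℂ) ((z ^ 2)⁻¹) *
      (((z.im ^ (-1 / 2 : ℝ) : ℝ) : ℂ) * (J z * (starRingEnd ℂ) (J z)) *
      (starRingEnd ℂ) (deriv φ (-z⁻¹))) =
      ((z.im ^ (-1 / 2 : ℝ) : ℝ) : ℂ) * ((J z) ^ 2)⁻¹ * (starRingEnd ℂ) (J z) * ε *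
      ((starRingEnd ℂ) (deriv φ (-z⁻¹)) * (starRingEnd ℂ) ((z ^ 2)⁻¹)) := by
    field_simp
  rw [e3, key]
  have e4 : ((z.im ^ (-1 / 2 : ℝ) : ℝ) : ℂ) * ((J z) ^ 2)⁻¹ * (starRingEnd ℂ) (J z) * ε *
      (ε * (I / (2 * (starRingEnd ℂ) (J z)) * (starRingEnd ℂ) (φ z) +
        (starRingEnd ℂ) (J z) * (starRingEnd ℂ) (deriv φ z))) =
      ((z.im ^ (-1 / 2 : ℝ) : ℝ) : ℂ) * ((J z) ^ 2)⁻¹ * (ε * ε) *
      (I / 2 * (starRingEnd ℂ) (φ z) +
        (starRingEnd ℂ) (J z) ^ 2 * (starRingEnd ℂ) (deriv φ z)) := by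
    field_simp
  rw [e4, h.εε, ← map_pow, J_sq, map_mul, map_neg, Complex.conj_I, neg_neg]
  have e5 : (-I * z)⁻¹ = I * z⁻¹ := by
    rw [mul_inv, inv_neg, Complex.inv_I, neg_neg]
  have e6 : ((z.im ^ (1 / 2 : ℝ) : ℝ) : ℂ) = ((z.im ^ (-1 / 2 : ℝ) : ℝ) : ℂ) * z.im := by
    rw [← Complex.ofReal_mul, ← Real.rpow_add_one hz.ne']
    norm_num
  have e7 : (starRingEnd ℂ) z = z - 2 * z.im * I := by
    apply Complex.ext
    · simp
    · simp; ring
  have e8 : z⁻¹ * z = 1 := inv_mul_cancel₀ h0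
  rw [e5, e6, e7]
  set a := ((z.im ^ (-1 / 2 : ℝ) : ℝ) : ℂ)
  set p := (starRingEnd ℂ) (φ z)
  set q := (starRingEnd ℂ) (deriv φ z)
  set y : ℂ := (z.im : ℂ)
  have hI : I * I = -1 := Complex.I_mul_I
  linear_combination (a * z⁻¹ * (- p / 2 - q * (z - 2 * y * I))) * hI + a * q * e8

/-- the seed -/
noncomputable def w1 (φ : ℂ → ℂ) (z : ℂ) : ℂ := ∑' k : Zs, ww φ (z + 2 * k)

lemma ww_shift_norm (h : PhiDat ε φ C) {z : ℂ} (hz : 0 < z.im) (k : ℤ) :
    ‖ww φ (z + 2 * k)‖ ≤ C * (z.im ^ (1 / 2 : ℝ) * ‖z + 2 * k‖ ^ (-3 / 2 : ℝ)) := by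
  have := ww_norm h (z := z + 2 * k) (by rw [shift_im]; exact hz)
  rwa [shift_im] at this

lemma ww_summable (h : PhiDat ε φ C) {z : ℂ} (hz : 0 < z.im) :
    Summable (fun k : ℤ => ww φ (z + 2 * k)) :=
  Summable.of_norm_bounded (((sum32 hz).mul_left _).mul_left _) (ww_shift_norm h hz)

lemma w1_norm (h : PhiDat ε φ C) {z : ℂ} (hz : z ∈ Om0) :
    ‖w1 φ z‖ ≤ C * (S0 + 1) * z.im ^ (1 / 2 : ℝ) := by
  have hs := ((sum32_Zs hz.1).mul_left (z.im ^ (1 / 2 : ℝ))).mul_left C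
  refine (tsum_of_norm_bounded hs.hasSum (fun k => ww_shift_norm h hz.1 k)).trans ?_
  rw [tsum_mul_left, tsum_mul_left]
  have h1 := sum32_le hz
  have hC := h.C0
  have h0 := hz.1
  calc _ ≤ C * (z.im ^ (1 / 2 : ℝ) * (S0 + 1)) := by gcongr
    _ = _ := by ring

lemma wD_shift_ball (h : PhiDat ε φ C) {z z' : ℂ} (hz : 0 < z.im) (k : ℤ)
    (h1 : z.im / 2 ≤ z'.im) (h2 : ‖z' - z‖ ≤ z.im / 2) :
    ‖wD φ (z' + 2 * k)‖ ≤ 6 * C * ((z.im / 2) ^ (-1 / 2 : ℝ) *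
      (4 * ‖z + 2 * k‖ ^ (-3 / 2 : ℝ))) := by
  have hz' : 0 < z'.im := by linarith
  have := wD_norm h (z := z' + 2 * k) (by rw [shift_im]; exact hz')
  rw [shift_im] at this
  refine this.trans ?_
  have h3 := shift_ball hz h2 k
  have h4 : z'.im ^ (-1 / 2 : ℝ) ≤ (z.im / 2) ^ (-1 / 2 : ℝ) :=
    Real.rpow_le_rpow_of_nonpos (by linarith) h1 (by norm_num)
  have hC := h.C0
  gcongr

lemma wD_summable (h : PhiDat ε φ C) {z : ℂ} (hz : 0 < z.im) :
    Summable (fun k : Zs => wD φ (z + 2 * k)) := by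
  refine Summable.of_norm_bounded ((((sum32_Zs hz).mul_left 4).mul_left _).mul_left _)
    (fun k => wD_shift_ball h hz k (z' := z) (by linarith) (by simp; linarith))

lemma shift_hasFDerivAt {F : ℂ → ℂ} {T : ℂ →L[ℝ] ℂ} {z : ℂ} (c : ℂ)
    (hF : HasFDerivAt F T (z + c)) : HasFDerivAt (fun ζ => F (ζ + c)) T z := by
  have h1 : HasFDerivAt (fun ζ : ℂ => ζ + c) (ContinuousLinearMap.id ℝ ℂ) z :=
    (hasFDerivAt_id z).add_const c
  have h2 := hF.comp z h1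
  rwa [ContinuousLinearMap.comp_id] at h2

lemma w1_hasFDerivAt (h : PhiDat ε φ C) {z : ℂ} (hz : 0 < z.im) :
    HasFDerivAt (w1 φ) (∑' k : Zs, wD φ (z + 2 * k)) z := by
  have hr0 : 0 < z.im / 2 := by positivity
  have hu := ((((sum32_Zs hz).mul_left 4).mul_left
    ((z.im / 2) ^ (-1 / 2 : ℝ)))).mul_left (6 * C)
  have hb : ∀ ζ ∈ Metric.ball z (z.im / 2), z.im / 2 ≤ ζ.im ∧ ‖ζ - z‖ ≤ z.im / 2 :=
    fun ζ hζ => ball_im le_rfl hζ
  refine hasFDerivAt_tsum_of_isPreconnected (f := fun (k : Zs) ζ => ww φ (ζ + 2 * k))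
    (f' := fun (k : Zs) ζ => wD φ (ζ + 2 * k)) hu
    Metric.isOpen_ball (convex_ball z (z.im / 2)).isPreconnected
    (fun k ζ hζ => ?_) (fun k ζ hζ => wD_shift_ball h hz k (hb ζ hζ).1 (hb ζ hζ).2)
    (Metric.mem_ball_self hr0) ((ww_summable h hz).subtype _) (Metric.mem_ball_self hr0)
  have hζi : 0 < (ζ + 2 * ((k : ℤ) : ℂ)).im := by
    rw [shift_im]
    have := (hb ζ hζ).1
    linarith
  exact shift_hasFDerivAt _ (ww_hasFDerivAt hζi (h.hol _ hζi))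

lemma w1_kappa (h : PhiDat ε φ C) {z : ℂ} (hz : 0 < z.im) :
    db (fderiv ℝ (w1 φ) z) = ∑' k : Zs, db (wD φ (z + 2 * k)) := by
  rw [(w1_hasFDerivAt h hz).fderiv]
  exact (hasSum_db (wD_summable h hz).hasSum).tsum_eq.symm

lemma wD_contOn (h : PhiDat ε φ C) : ContinuousOn (fun z => db (wD φ z)) HP := by
  have e : Set.EqOn (fun z => db (wD φ z)) (fun z => z⁻¹ * (2 * I * ((z.im ^ (1 / 2 : ℝ) : ℝ) : ℂ) *
    (starRingEnd ℂ) (deriv φ z) - (1 / 2) * ((z.im ^ (-1 / 2 : ℝ) : ℝ) : ℂ) *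
    (starRingEnd ℂ) (φ z))) HP := fun z _ => wD_db z
  refine ContinuousOn.congr ?_ e
  have hO : IsOpen HP := isOpen_lt continuous_const Complex.continuous_im
  have hd : DifferentiableOn ℂ φ HP := fun z hz => (h.hol z hz).differentiableWithinAt
  have h1 : ContinuousOn φ HP := hd.continuousOn
  have h2 : ContinuousOn (deriv φ) HP := (hd.deriv hO).continuousOn
  have h3 : ContinuousOn (fun z : ℂ => z⁻¹) HP :=
    continuousOn_id.inv₀ fun z hz => ne_zero_of_im hz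
  have h4 : ∀ p : ℝ, ContinuousOn (fun z : ℂ => ((z.im ^ p : ℝ) : ℂ)) HP := fun p =>
    Complex.continuous_ofReal.comp_continuousOn
      (Complex.continuous_im.continuousOn.rpow_const fun z hz => Or.inl (ne_of_gt hz))
  have h5 := Complex.continuous_conj.comp_continuousOn h1
  have h6 := Complex.continuous_conj.comp_continuousOn h2
  exact h3.mul (((continuousOn_const.mul (h4 _)).mul h6).sub
    ((continuousOn_const.mul (h4 _)).mul h5))

lemma kappa_contOn (h : PhiDat ε φ C) :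
    ContinuousOn (fun z => db (fderiv ℝ (w1 φ) z)) HP := by
  intro z hz
  have hz' : 0 < z.im := hz
  have hr0 : 0 < z.im / 2 := by positivity
  have hb : ∀ ζ ∈ Metric.ball z (z.im / 2), z.im / 2 ≤ ζ.im ∧ ‖ζ - z‖ ≤ z.im / 2 :=
    fun ζ hζ => ball_im le_rfl hζ
  have hc : ContinuousOn (fun z => db (fderiv ℝ (w1 φ) z)) (Metric.ball z (z.im / 2)) := by
    have e : Set.EqOn (fun z => db (fderiv ℝ (w1 φ) z))
        (fun z => ∑' k : Zs, db (wD φ (z + 2 * k))) (Metric.ball z (z.im / 2)) :=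
      fun ζ hζ => w1_kappa h (by have := (hb ζ hζ).1; linarith)
    refine ContinuousOn.congr ?_ e
    have hu := (((((sum32_Zs hz').mul_left 4).mul_left
      ((z.im / 2) ^ (-1 / 2 : ℝ)))).mul_left (6 * C)).mul_left 2
    refine continuousOn_tsum (fun k => ?_) hu (fun k ζ hζ => ?_)
    · have hm : Set.MapsTo (fun ζ : ℂ => ζ + 2 * ((k : ℤ) : ℂ)) (Metric.ball z (z.im / 2)) HP := by
        intro ζ hζ
        have h1 := (hb ζ hζ).1
        have h2 : (ζ + 2 * ((k : ℤ) : ℂ)).im = ζ.im := shift_im ζ k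
        show 0 < (ζ + 2 * ((k : ℤ) : ℂ)).im
        rw [h2]; linarith
      exact (wD_contOn h).comp (by fun_prop) hm
    · exact (db_norm _).trans (mul_le_mul_of_nonneg_left
        (wD_shift_ball h hz' k (hb ζ hζ).1 (hb ζ hζ).2) (by norm_num))
  exact (hc.continuousAt (Metric.ball_mem_nhds z hr0)).continuousWithinAt

lemma uu_shift {z : ℂ} (k : ℤ) : uu φ (z + 2 * k) =
    ((z.im ^ (-1 / 2 : ℝ) : ℝ) : ℂ) * (starRingEnd ℂ) (deriv φ (z + 2 * k)) := by
  unfold uu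
  rw [shift_im]

lemma uu_summable (h : PhiDat ε φ C) {z : ℂ} (hz : 0 < z.im) :
    Summable (fun k : ℤ => uu φ (z + 2 * k)) := by
  simp only [uu_shift]
  exact ((Complex.hasSum_conj'.2 (h.sm z hz).hasSum).summable).mul_left _

lemma uu_hasSum (h : PhiDat ε φ C) {z : ℂ} (hz : 0 < z.im) :
    HasSum (fun k : ℤ => uu φ (z + 2 * k)) 0 := by
  simp only [uu_shift]
  have h1 := (h.sm z hz).hasSum
  rw [h.poi z hz] at h1
  have h2 := (Complex.hasSum_conj'.2 h1).mul_left (((z.im ^ (-1 / 2 : ℝ) : ℝ) : ℂ))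
  simpa using h2

lemma dk_uu (k : ℤ) {z : ℂ} (h : PhiDat ε φ C) (hz : 0 < z.im) :
    db (wD φ (z + 2 * k)) = uu φ (z + 2 * k) + dk ε k z * uu φ (sk k z) := by
  have := slash_id h (z := z + 2 * k) (by rw [shift_im]; exact hz)
  rw [this]
  rfl

lemma wDdb_summable (h : PhiDat ε φ C) {z : ℂ} (hz : 0 < z.im) :
    Summable (fun k : Zs => db (wD φ (z + 2 * k))) :=
  (hasSum_db (wD_summable h hz).hasSum).summable

lemma dkuu_summable (h : PhiDat ε φ C) {z : ℂ} (hz : 0 < z.im) :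
    Summable (fun k : Zs => dk ε k z * uu φ (sk k z)) := by
  have h1 := (wDdb_summable h hz).sub ((uu_summable h hz).subtype {k : ℤ | k ≠ 0})
  refine h1.congr fun k => ?_
  rw [dk_uu k h hz]
  simp

lemma uu_Zs {z : ℂ} (h : PhiDat ε φ C) (hz : 0 < z.im) :
    HasSum (fun k : Zs => uu φ (z + 2 * k)) (-uu φ z) := by
  have h1 := uu_hasSum h hz
  have h2 : HasSum (fun k : ℤ => uu φ (z + 2 * k) - if k = 0 then uu φ z else 0) (0 - uu φ z) :=
    h1.sub (hasSum_ite_eq 0 (uu φ z))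
  have h3 : (fun k : ℤ => uu φ (z + 2 * k) - if k = 0 then uu φ z else 0) =
      Set.indicator {k : ℤ | k ≠ 0} (fun k : ℤ => uu φ (z + 2 * k)) := by
    funext k
    by_cases hk : k = 0
    · subst hk; simp
    · simp [hk]
  rw [h3, zero_sub] at h2
  exact hasSum_subtype_iff_indicator.2 h2

lemma kappa_id (h : PhiDat ε φ C) {z : ℂ} (hz : 0 < z.im) :
    db (fderiv ℝ (w1 φ) z) = -uu φ z + ∑' k : Zs, dk ε k z * uu φ (sk k z) := by
  rw [w1_kappa h hz]
  have h1 := (uu_Zs h hz).add (dkuu_summable h hz).hasSum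
  rw [← h1.tsum_eq]
  congr 1
  funext k
  exact dk_uu k h hz

lemma w1_dat (h : PhiDat ε φ C) : W1Dat (w1 φ) (6 * C * (S0 + 1)) := by
  have hC := h.C0
  have hS := S0_nonneg
  refine ⟨by positivity, fun z hz => ?_, fun z hz => (w1_hasFDerivAt h hz.1).differentiableAt,
    fun z hz => ?_, (kappa_contOn h).mono fun z hz => hz.1⟩
  · refine (w1_norm h hz).trans ?_
    have h0 := hz.1
    have h1 : 0 ≤ C * (S0 + 1) * z.im ^ (1 / 2 : ℝ) := by positivity
    nlinarith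
  · have h0 := hz.1
    rw [(w1_hasFDerivAt h hz.1).fderiv]
    have hb : ∀ k : Zs, ‖wD φ (z + 2 * k)‖ ≤
        6 * C * (z.im ^ (-1 / 2 : ℝ) * ‖z + 2 * k‖ ^ (-3 / 2 : ℝ)) := by
      intro k
      have := wD_norm h (z := z + 2 * k) (by rw [shift_im]; exact h0)
      rwa [shift_im] at this
    have hs := ((sum32_Zs hz.1).mul_left (z.im ^ (-1 / 2 : ℝ))).mul_left (6 * C)
    refine (tsum_of_norm_bounded hs.hasSum hb).trans ?_
    rw [tsum_mul_left, tsum_mul_left]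
    have h1 := sum32_le hz
    calc _ ≤ 6 * C * (z.im ^ (-1 / 2 : ℝ) * (S0 + 1)) := by gcongr
      _ = _ := by ring

lemma uu_measurable : Measurable (uu φ) := by
  unfold uu
  have h1 : Measurable (fun z : ℂ => ((z.im ^ (-1 / 2 : ℝ) : ℝ) : ℂ)) :=
    Complex.measurable_ofReal.comp (Complex.measurable_im.pow_const _)
  exact h1.mul (Complex.continuous_conj.measurable.comp (measurable_deriv φ))

lemma HP_isOpen : IsOpen HP := isOpen_lt continuous_const Complex.continuous_im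

lemma uu_contOn (h : PhiDat ε φ C) : ContinuousOn (uu φ) HP := by
  have hd : DifferentiableOn ℂ φ HP := fun z hz => (h.hol z hz).differentiableWithinAt
  have h2 : ContinuousOn (deriv φ) HP := (hd.deriv HP_isOpen).continuousOn
  have h4 : ∀ p : ℝ, ContinuousOn (fun z : ℂ => ((z.im ^ p : ℝ) : ℂ)) HP := fun p =>
    Complex.continuous_ofReal.comp_continuousOn
      (Complex.continuous_im.continuousOn.rpow_const fun z hz => Or.inl (ne_of_gt hz))
  exact (h4 _).mul (Complex.continuous_conj.comp_continuousOn h2)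

/-- the main identity for the derivative of `v` -/
theorem v_db (hM : StMeas) (h : PhiDat ε φ C) {z : ℂ} (hz : z ∈ Om0) :
    DifferentiableAt ℝ (vv ε (w1 φ)) z ∧ db (fderiv ℝ (vv ε (w1 φ)) z) = -uu φ z := by
  have hd := vv_hasFDerivAt h.εn (w1_dat h) hz
  refine ⟨hd.differentiableAt, ?_⟩
  rw [hd.fderiv, Vd_eq h.εn (w1_dat h) hz]
  refine Vd_eq_neg hM h.εn (w1_dat h) uu_measurable ((uu_contOn h).mono fun z hz => hz.1)
    (fun z hz => dkuu_summable h hz.1) (fun z hz => kappa_id h hz.1) ?_ z hz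
  refine lt_of_le_of_lt ?_ h.L2
  have hUm : MeasurableSet U := by
    have : U = {z : ℂ | 0 < z.im} ∩ {z : ℂ | ‖z‖ < 1} := rfl
    rw [this]
    exact (isOpen_lt continuous_const Complex.continuous_im).measurableSet.inter
      (isOpen_lt continuous_norm continuous_const).measurableSet
  calc ∫⁻ z in U, (ENNReal.ofReal (z.im ^ (7 / 4 : ℝ)) * ‖uu φ z‖ₑ) ^ 2 *
      ENNReal.ofReal (z.im ^ (-3 : ℝ))
      = ∫⁻ z in U, ENNReal.ofReal (z.im ^ (-1 / 2 : ℝ)) * ‖deriv φ z‖ₑ ^ 2 := by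
        refine setLIntegral_congr_fun hUm fun z hz => ?_
        have h0 := hz.1
        rw [← ofReal_norm, ← ofReal_norm]
        unfold uu
        rw [norm_mul, Complex.norm_real, Real.norm_eq_abs, abs_of_pos (by positivity),
          RCLike.norm_conj, ← ENNReal.ofReal_mul (by positivity), ← ENNReal.ofReal_pow (by positivity),
          ← ENNReal.ofReal_pow (by positivity), ← ENNReal.ofReal_mul (by positivity),
          ← ENNReal.ofReal_mul (by positivity)]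
        congr 1
        have e1 : z.im ^ (7 / 4 : ℝ) * z.im ^ (-1 / 2 : ℝ) = z.im ^ (5 / 4 : ℝ) := by
          rw [← Real.rpow_add h0]; norm_num
        have e2 : (z.im ^ (5 / 4 : ℝ)) ^ 2 * z.im ^ (-3 : ℝ) = z.im ^ (-1 / 2 : ℝ) := by
          rw [← Real.rpow_natCast, ← Real.rpow_mul h0.le, ← Real.rpow_add h0]; norm_num
        rw [← mul_assoc, e1, mul_pow, mul_right_comm, e2]
    _ ≤ _ := lintegral_mono_set fun z hz => hz.1

end Pool.Agent.W759
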