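import Pool.Agent.W759.Sup
set_option autoImplicit false

/-! Words and iterates of the transfer operator. -/

namespace Pool.Agent.W759

open Complex MeasureTheory Filter Topology
open scoped ENNReal

/-- the action of a word -/
noncomputable def orb : List Zs → ℂ → ℂ
  | [], z => z
  | k :: l, z => orb l (sk k z)

@[simp] lemma orb_nil (z : ℂ) : orb [] z = z := rfl
@[simp] lemma orb_cons (k : Zs) (l : List Zs) (z : ℂ) : orb (k :: l) z = orb l (sk k z) := rfl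

lemma orb_im_pos (l : List Zs) : ∀ {z : ℂ}, 0 < z.im → 0 < (orb l z).im := by
  induction l with
  | nil => intro z hz; exact hz
  | cons k l ih => intro z hz; exact ih (sk_im_pos k hz)

lemma orb_mem_U (l : List Zs) : ∀ {z : ℂ}, z ∈ U → orb l z ∈ U := by
  induction l with
  | nil => intro z hz; exact hz
  | cons k l ih => intro z hz; exact ih (sk_mem k.2 (U_sub hz))

lemma orb_mem_Om0 (l : List Zs) {z : ℂ} (hz : z ∈ Om0) : orb l z ∈ Om0 := by
  cases l with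
  | nil => exact hz
  | cons k l => exact U_sub (orb_mem_U l (sk_mem k.2 hz))

/-- words of length `n` -/
abbrev Wn (n : ℕ) : Type := {l : List Zs // l.length = n}

def consEquiv (n : ℕ) : Zs × Wn n ≃ Wn (n + 1) where
  toFun p := ⟨p.1 :: p.2.1, by simp [p.2.2]⟩
  invFun l := match l with
    | ⟨k :: t, h⟩ => (k, ⟨t, by simpa using h⟩)
  left_inv p := rfl
  right_inv l := by
    obtain ⟨l, h⟩ := l
    cases l with
    | nil => simp at h
    | cons k t => rfl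

lemma tsum_Wn (F : ℂ → ℝ≥0∞) (n : ℕ) : ∀ z, ∑' l : Wn n, F (orb l z) = (SS^[n] F) z := by
  induction n with
  | zero =>
    intro z
    have hu : Unique (Wn 0) :=
      { default := ⟨[], rfl⟩
        uniq := fun l => Subtype.ext (List.length_eq_zero_iff.1 l.2) }
    have hd : ∀ l : Wn 0, (l : List Zs) = [] := fun l => List.length_eq_zero_iff.1 l.2
    rw [tsum_eq_single (⟨[], rfl⟩ : Wn 0) (fun b hb => absurd (Subtype.ext (hd b)) hb)]
    rfl
  | succ n ih =>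
    intro z
    rw [Function.iterate_succ_apply', ← (consEquiv n).tsum_eq, ENNReal.tsum_prod']
    unfold SS
    congr 1
    funext k
    exact ih (sk k z)

lemma tsum_words (F : ℂ → ℝ≥0∞) (z : ℂ) :
    ∑' l : List Zs, F (orb l z) = ∑' n : ℕ, (SS^[n] F) z := by
  rw [← (Equiv.sigmaFiberEquiv (List.length : List Zs → ℕ)).tsum_eq, ENNReal.tsum_sigma']
  congr 1
  funext n
  exact tsum_Wn F n z

lemma SS_mono_on {F G : ℂ → ℝ≥0∞} (h : ∀ z ∈ U, F z ≤ G z) {z : ℂ} (hz : z ∈ Om0) :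
    SS F z ≤ SS G z :=
  ENNReal.tsum_le_tsum fun k => h _ (sk_mem k.2 hz)

lemma SS_tsum {ι : Type} (F : ι → ℂ → ℝ≥0∞) (z : ℂ) :
    SS (fun w => ∑' i, F i w) z = ∑' i, SS (F i) z := by
  unfold SS
  exact ENNReal.tsum_comm

lemma SS_add (F G : ℂ → ℝ≥0∞) (z : ℂ) : SS (fun w => F w + G w) z = SS F z + SS G z :=
  ENNReal.tsum_add

lemma SS_mul (c : ℝ≥0∞) (F : ℂ → ℝ≥0∞) (z : ℂ) : SS (fun w => c * F w) z = c * SS F z :=
  ENNReal.tsum_mul_left

lemma iter_sum_le (N : ℕ) : ∀ z ∈ U,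
    (∑ n ∈ Finset.range N, ENNReal.ofReal cs * (SS^[n] Fs) z) + (SS^[N] Gs) z ≤ Gs z := by
  induction N with
  | zero => intro z _; simp
  | succ N ih =>
    intro z hz
    have h1 : SS (fun w => (∑ n ∈ Finset.range N, ENNReal.ofReal cs * (SS^[n] Fs) w) +
        (SS^[N] Gs) w) z ≤ SS Gs z := SS_mono_on ih (U_sub hz)
    have h2 : SS (fun w => (∑ n ∈ Finset.range N, ENNReal.ofReal cs * (SS^[n] Fs) w) +
        (SS^[N] Gs) w) z = (∑ n ∈ Finset.range N, ENNReal.ofReal cs * (SS^[n + 1] Fs) z) +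
        (SS^[N + 1] Gs) z := by
      rw [SS_add, Function.iterate_succ_apply']
      congr 1
      have h3 : ∀ s : Finset ℕ, SS (fun w => ∑ n ∈ s, ENNReal.ofReal cs * (SS^[n] Fs) w) z =
          ∑ n ∈ s, ENNReal.ofReal cs * (SS^[n + 1] Fs) z := by
        intro s
        induction s using Finset.induction_on with
        | empty => simp [SS]
        | insert a s ha ih2 =>
          simp only [Finset.sum_insert ha]
          rw [SS_add, ih2, SS_mul, ← Function.iterate_succ_apply' SS]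
      exact h3 _
    rw [Finset.sum_range_succ']
    simp only [Function.iterate_zero, id]
    calc (∑ n ∈ Finset.range N, ENNReal.ofReal cs * (SS^[n + 1] Fs) z) +
          ENNReal.ofReal cs * Fs z + (SS^[N + 1] Gs) z
        = ENNReal.ofReal cs * Fs z + ((∑ n ∈ Finset.range N, ENNReal.ofReal cs *
          (SS^[n + 1] Fs) z) + (SS^[N + 1] Gs) z) := by ring
      _ ≤ ENNReal.ofReal cs * Fs z + SS Gs z := by rw [← h2]; gcongr
      _ ≤ Gs z := SS_Gs_lt hz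

/-- total word sum -/
noncomputable def Rs (z : ℂ) : ℝ≥0∞ := ∑' l : List Zs, Fs (orb l z)

lemma Rs_eq (z : ℂ) : Rs z = ∑' n : ℕ, (SS^[n] Fs) z := tsum_words Fs z

lemma cs_Rs_le {z : ℂ} (hz : z ∈ U) : ENNReal.ofReal cs * Rs z ≤ Gs z := by
  rw [Rs_eq, ← ENNReal.tsum_mul_left]
  refine ENNReal.tsum_le_of_sum_range_le fun N => ?_
  exact le_trans le_self_add (iter_sum_le N z hz)

lemma Rs_rec (z : ℂ) : Rs z = Fs z + SS Rs z := by
  have h1 : Rs = fun w => ∑' n : ℕ, (SS^[n] Fs) w := funext Rs_eq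
  have h2 : SS Rs z = ∑' n : ℕ, (SS^[n + 1] Fs) z := by
    rw [h1, SS_tsum]
    simp only [← Function.iterate_succ_apply' SS]
  rw [h2, Rs_eq, tsum_eq_zero_add' ENNReal.summable]
  rfl

lemma cs_Rs_le0 {z : ℂ} (hz : z ∈ Om0) :
    ENNReal.ofReal cs * Rs z ≤ ENNReal.ofReal cs * Fs z + Gs z := by
  rw [Rs_rec, mul_add]
  gcongr
  rw [← SS_mul]
  exact (SS_mono_on (fun w hw => cs_Rs_le hw) hz).trans (SS_Gs_le hz)

lemma Rs_lt_top {z : ℂ} (hz : z ∈ Om0) : Rs z < ∞ := by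
  have h1 := cs_Rs_le0 hz
  have h2 : ENNReal.ofReal cs * Fs z + Gs z < ∞ := by
    unfold Fs Gs
    exact ENNReal.add_lt_top.2 ⟨ENNReal.mul_lt_top ENNReal.ofReal_lt_top ENNReal.ofReal_lt_top,
      ENNReal.ofReal_lt_top⟩
  have h3 := lt_of_le_of_lt h1 h2
  by_contra h
  rw [not_lt, top_le_iff] at h
  rw [h, ENNReal.mul_top (by simpa using cs_pos)] at h3
  exact lt_irrefl _ h3

lemma SS_iter_Rs (m : ℕ) (z : ℂ) : (SS^[m] Rs) z = ∑' n : ℕ, (SS^[n + m] Fs) z := by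
  induction m generalizing z with
  | zero => simpa using Rs_eq z
  | succ m ih =>
    rw [Function.iterate_succ_apply']
    have h1 : SS^[m] Rs = fun w => ∑' n : ℕ, (SS^[n + m] Fs) w := funext ih
    rw [h1, SS_tsum]
    simp only [← Function.iterate_succ_apply' SS]
    rfl

lemma SS_iter_Rs_tendsto {z : ℂ} (hz : z ∈ Om0) :
    Tendsto (fun m : ℕ => (SS^[m] Rs) z) atTop (𝓝 0) := by
  simp only [SS_iter_Rs]
  apply ENNReal.tendsto_sum_nat_add (fun n => (SS^[n] Fs) z)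
  rw [← Rs_eq]
  exact (Rs_lt_top hz).ne

/-- real valued word sum -/
noncomputable def Rr (z : ℂ) : ℝ := ∑' l : List Zs, (orb l z).im ^ (5 / 4 : ℝ)

lemma words_summable {z : ℂ} (hz : z ∈ Om0) :
    Summable (fun l : List Zs => (orb l z).im ^ (5 / 4 : ℝ)) := by
  have h1 := (Rs_lt_top hz).ne
  unfold Rs Fs at h1
  have h2 := ENNReal.summable_toReal h1
  refine h2.congr fun l => ?_
  rw [ENNReal.toReal_ofReal]
  have := orb_im_pos l hz.1
  positivity

lemma ofReal_Rr {z : ℂ} (hz : z ∈ Om0) : ENNReal.ofReal (Rr z) = Rs z := by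
  unfold Rr Rs Fs
  rw [ENNReal.ofReal_tsum_of_nonneg _ (words_summable hz)]
  intro l
  have := orb_im_pos l hz.1
  positivity

lemma Rr_nonneg {z : ℂ} (hz : z ∈ Om0) : 0 ≤ Rr z :=
  tsum_nonneg fun l => by
    have := orb_im_pos l hz.1
    positivity

lemma Rr_le {z : ℂ} (hz : z ∈ U) : Rr z ≤ cs⁻¹ * (z.im ^ (1 / 4 : ℝ) * (Real.pi - An z)) := by
  have h1 := cs_Rs_le hz
  rw [← ofReal_Rr (U_sub hz)] at h1
  unfold Gs at h1
  rw [← ENNReal.ofReal_mul cs_pos.le] at h1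
  have hA := An_mem hz.1
  have h0 := hz.1
  have h3 : 0 ≤ z.im ^ (1 / 4 : ℝ) * (Real.pi - An z) :=
    mul_nonneg (by positivity) (by linarith)
  have h2 := (ENNReal.ofReal_le_ofReal_iff h3).1 h1
  rw [← div_eq_inv_mul, le_div_iff₀ cs_pos]
  linarith

lemma Rr_le0 {z : ℂ} (hz : z ∈ Om0) : Rr z ≤ z.im ^ (5 / 4 : ℝ) +
    cs⁻¹ * (z.im ^ (1 / 4 : ℝ) * (Real.pi - An z)) := by
  have h1 := cs_Rs_le0 hz
  rw [← ofReal_Rr hz] at h1
  have h0 := hz.1
  have hA := An_mem hz.1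
  have h3 : 0 ≤ z.im ^ (1 / 4 : ℝ) * (Real.pi - An z) :=
    mul_nonneg (by positivity) (by linarith)
  have h4 : 0 ≤ z.im ^ (5 / 4 : ℝ) := by positivity
  have hc := cs_pos
  unfold Gs Fs at h1
  rw [← ENNReal.ofReal_mul cs_pos.le, ← ENNReal.ofReal_mul cs_pos.le,
    ← ENNReal.ofReal_add (by positivity) h3] at h1
  have h2 := (ENNReal.ofReal_le_ofReal_iff (by positivity)).1 h1
  have h5 : Rr z ≤ (cs * z.im ^ (5 / 4 : ℝ) + z.im ^ (1 / 4 : ℝ) * (Real.pi - An z)) / cs := by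
    rw [le_div_iff₀ cs_pos]
    linarith
  refine h5.trans (le_of_eq ?_)
  field_simp

/-- The identity `Y ≤ π - An` on `U`. -/
lemma im_le_U {z : ℂ} (hz : z ∈ U) : z.im ≤ Real.pi - An z := by
  have h0 := hz.1
  have hz0 := ne_zero_of_im h0
  have h1 : Real.pi - An z = An (-z⁻¹) := (An_inv h0).symm
  have hi : 0 < (-z⁻¹).im := by
    rw [inv_im']
    have := norm_pos_iff.2 hz0
    positivity
  have h2 := An_ge hi
  rw [h1]
  refine le_trans ?_ h2
  rw [inv_im']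
  have hn := norm_pos_iff.2 hz0
  have h3 : ‖(-z⁻¹) ^ 2 - 1‖ ≤ (‖z‖ ^ 2)⁻¹ + 1 := by
    refine (norm_sub_le _ _).trans ?_
    rw [norm_pow, norm_neg, norm_inv, norm_one, inv_pow]
  have h4 : 0 < ‖(-z⁻¹) ^ 2 - 1‖ := norm_pos_iff.2 (z2_ne hi)
  rw [le_div_iff₀ h4]
  have h5 : ‖z‖ ^ 2 ≤ 1 := by
    have := hz.2
    nlinarith
  have h6 : (‖z‖ ^ 2)⁻¹ + 1 ≤ 2 * (‖z‖ ^ 2)⁻¹ := by
    have : 1 ≤ (‖z‖ ^ 2)⁻¹ := (one_le_inv₀ (by positivity)).2 h5
    linarith
  calc z.im * ‖(-z⁻¹) ^ 2 - 1‖ ≤ z.im * (2 * (‖z‖ ^ 2)⁻¹) := by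
        apply mul_le_mul_of_nonneg_left (h3.trans h6) h0.le
    _ = 2 * (z.im / ‖z‖ ^ 2) := by ring

end Pool.Agent.W759
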